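import Mathlib

/-!
# Hilbert space tensor products (completed), basic API

`HT E F` is the Hilbert space tensor product of the Hilbert spaces `E`, `F` and
`tm x y` is the elementary tensor `x ⊗ y`.
-/

set_option autoImplicit false

open scoped TensorProduct InnerProductSpace
open UniformSpace

noncomputable section

namespace LCQG

section compl

variable {X Y Z : Type*} [NormedAddCommGroup X] [InnerProductSpace ℂ X]
  [NormedAddCommGroup Y] [InnerProductSpace ℂ Y]
  [NormedAddCommGroup Z] [InnerProductSpace ℂ Z]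

/-- Continuous extension of a bounded operator to the completions. -/
def compl (f : X →L[ℂ] Y) : Completion X →L[ℂ] Completion Y :=
  ((Completion.toComplL : Y →L[ℂ] Completion Y) ∘L f).extend
    (Completion.toComplL : X →L[ℂ] Completion X)

@[simp] theorem compl_coe (f : X →L[ℂ] Y) (x : X) :
    compl f (x : Completion X) = ((f x : Y) : Completion Y) := by
  have := ContinuousLinearMap.extend_eq
    ((Completion.toComplL : Y →L[ℂ] Completion Y) ∘L f)
    (e := (Completion.toComplL : X →L[ℂ] Completion X))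
    (by simpa using Completion.denseRange_coe)
    (by simpa using Completion.isUniformInducing_coe X) x
  simpa [compl] using this

theorem norm_compl_le (f : X →L[ℂ] Y) : ‖compl f‖ ≤ ‖f‖ := by
  refine ContinuousLinearMap.opNorm_le_bound _ (norm_nonneg _) fun x => ?_
  refine Completion.induction_on x ?_ ?_
  · exact isClosed_le (by fun_prop) (by fun_prop)
  · intro a
    rw [compl_coe, Completion.norm_coe, Completion.norm_coe]
    exact f.le_opNorm a

theorem compl_ext {f g : Completion X →L[ℂ] Z} (h : ∀ x : X, f x = g x) : f = g := by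
  ext x
  refine Completion.induction_on x ?_ ?_
  · exact isClosed_eq (by fun_prop) (by fun_prop)
  · exact h

/-- Extension of a unitary to the completions. -/
def complE (f : X ≃ₗᵢ[ℂ] Y) : Completion X ≃ₗᵢ[ℂ] Completion Y where
  toFun := compl (f.toContinuousLinearEquiv : X →L[ℂ] Y)
  invFun := compl (f.symm.toContinuousLinearEquiv : Y →L[ℂ] X)
  map_add' := fun x y => map_add _ x y
  map_smul' := fun c x => map_smul _ c x
  left_inv := fun x => by
    refine Completion.induction_on x ?_ ?_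
    · exact isClosed_eq (by fun_prop) (by fun_prop)
    · intro a
      simp
  right_inv := fun x => by
    refine Completion.induction_on x ?_ ?_
    · exact isClosed_eq (by fun_prop) (by fun_prop)
    · intro a
      simp
  norm_map' := fun x => by
    refine Completion.induction_on x ?_ ?_
    · refine isClosed_eq ?_ (by fun_prop)
      exact (compl (f.toContinuousLinearEquiv : X →L[ℂ] Y)).continuous.norm
    · intro a
      change ‖compl (f.toContinuousLinearEquiv : X →L[ℂ] Y) (a : Completion X)‖ = _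
      simp

@[simp] theorem complE_coe (f : X ≃ₗᵢ[ℂ] Y) (x : X) :
    complE f (x : Completion X) = ((f x : Y) : Completion Y) := by
  change compl (f.toContinuousLinearEquiv : X →L[ℂ] Y) (x : Completion X) = _
  simp

@[simp] theorem complE_symm_coe (f : X ≃ₗᵢ[ℂ] Y) (y : Y) :
    (complE f).symm (y : Completion Y) = ((f.symm y : X) : Completion X) := by
  change compl (f.symm.toContinuousLinearEquiv : Y →L[ℂ] X) (y : Completion Y) = _
  simp

end compl

variable {E F G E' F' : Type*}
  [NormedAddCommGroup E] [InnerProductSpace ℂ E]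
  [NormedAddCommGroup F] [InnerProductSpace ℂ F]
  [NormedAddCommGroup G] [InnerProductSpace ℂ G]
  [NormedAddCommGroup E'] [InnerProductSpace ℂ E']
  [NormedAddCommGroup F'] [InnerProductSpace ℂ F']

/-- The Hilbert space tensor product of two (pre-)Hilbert spaces. -/
def HT (E F : Type*) [NormedAddCommGroup E] [InnerProductSpace ℂ E]
    [NormedAddCommGroup F] [InnerProductSpace ℂ F] : Type _ :=
  Completion (E ⊗[ℂ] F)

instance : NormedAddCommGroup (HT E F) :=
  inferInstanceAs (NormedAddCommGroup (Completion (E ⊗[ℂ] F)))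

instance : InnerProductSpace ℂ (HT E F) :=
  inferInstanceAs (InnerProductSpace ℂ (Completion (E ⊗[ℂ] F)))

instance : CompleteSpace (HT E F) :=
  inferInstanceAs (CompleteSpace (Completion (E ⊗[ℂ] F)))

/-- The canonical isometry from the algebraic tensor product. -/
def toHT (E F : Type*) [NormedAddCommGroup E] [InnerProductSpace ℂ E]
    [NormedAddCommGroup F] [InnerProductSpace ℂ F] : E ⊗[ℂ] F →ₗᵢ[ℂ] HT E F :=
  (Completion.toComplₗᵢ : E ⊗[ℂ] F →ₗᵢ[ℂ] Completion (E ⊗[ℂ] F))

theorem toHT_dense : DenseRange (toHT E F) :=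
  Completion.denseRange_coe

/-- Elementary tensors. -/
def tm (x : E) (y : F) : HT E F := toHT E F (x ⊗ₜ[ℂ] y)

theorem tm_def (x : E) (y : F) : tm x y = toHT E F (x ⊗ₜ[ℂ] y) := rfl

theorem tm_add_left (x x' : E) (y : F) : tm (x + x') y = tm x y + tm x' y := by
  simp [tm, TensorProduct.add_tmul]

theorem tm_add_right (x : E) (y y' : F) : tm x (y + y') = tm x y + tm x y' := by
  simp [tm, TensorProduct.tmul_add]

theorem tm_smul_left (c : ℂ) (x : E) (y : F) : tm (c • x) y = c • tm x y := by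
  rw [tm, tm, ← TensorProduct.smul_tmul', map_smul]

theorem tm_smul_right (c : ℂ) (x : E) (y : F) : tm x (c • y) = c • tm x y := by
  rw [tm, tm, TensorProduct.tmul_smul, map_smul]

@[simp] theorem tm_zero_left (y : F) : tm (0 : E) y = 0 := by
  simp [tm]

@[simp] theorem tm_zero_right (x : E) : tm x (0 : F) = 0 := by
  simp [tm]

theorem tm_neg_left (x : E) (y : F) : tm (-x) y = -tm x y := by
  have := tm_smul_left (-1) x y
  simpa using this

theorem tm_neg_right (x : E) (y : F) : tm x (-y) = -tm x y := by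
  have := tm_smul_right (-1) x y
  simpa using this

theorem tm_sub_left (x x' : E) (y : F) : tm (x - x') y = tm x y - tm x' y := by
  rw [sub_eq_add_neg, tm_add_left, tm_neg_left, ← sub_eq_add_neg]

theorem tm_sub_right (x : E) (y y' : F) : tm x (y - y') = tm x y - tm x y' := by
  rw [sub_eq_add_neg, tm_add_right, tm_neg_right, ← sub_eq_add_neg]

@[simp] theorem inner_tm_tm (x x' : E) (y y' : F) :
    ⟪tm x y, tm x' y'⟫_ℂ = ⟪x, x'⟫_ℂ * ⟪y, y'⟫_ℂ := by
  rw [tm, tm, LinearIsometry.inner_map_map, TensorProduct.inner_tmul]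

@[simp] theorem norm_tm (x : E) (y : F) : ‖tm x y‖ = ‖x‖ * ‖y‖ := by
  rw [tm, LinearIsometry.norm_map, TensorProduct.norm_tmul]

theorem continuous_tm : Continuous fun p : E × F => tm p.1 p.2 :=
  (toHT E F).continuous.comp TensorProduct.continuous_tmul

/-- Induction principle: a closed, additive property that holds for the elementary tensors
holds everywhere. -/
theorem HT.induction {p : HT E F → Prop} (z : HT E F) (hc : IsClosed {z | p z})
    (hadd : ∀ z w, p z → p w → p (z + w)) (htm : ∀ x y, p (tm x y)) : p z := by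
  refine toHT_dense.induction_on (p := p) z hc ?_
  intro a
  refine TensorProduct.induction_on a ?_ ?_ ?_
  · simpa [tm] using htm 0 0
  · intro x y
    exact htm x y
  · intro a b ha hb
    rw [map_add]
    exact hadd _ _ ha hb

/-- The elementary tensors are total. -/
theorem span_tm_dense :
    (Submodule.span ℂ (Set.range fun p : E × F => (tm p.1 p.2 : HT E F))).topologicalClosure
      = ⊤ := by
  rw [eq_top_iff]
  intro z _
  refine HT.induction (p := fun z => z ∈ (Submodule.span ℂ
    (Set.range fun p : E × F => (tm p.1 p.2 : HT E F))).topologicalClosure) z ?_ ?_ ?_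
  · exact Submodule.isClosed_topologicalClosure _
  · intro z w hz hw
    exact Submodule.add_mem _ hz hw
  · intro x y
    exact Submodule.le_topologicalClosure _ (Submodule.subset_span ⟨(x, y), rfl⟩)

/-- Two bounded operators that agree on elementary tensors are equal. -/
theorem HT.ext_clm {Z : Type*} [NormedAddCommGroup Z] [InnerProductSpace ℂ Z]
    {f g : HT E F →L[ℂ] Z} (h : ∀ x y, f (tm x y) = g (tm x y)) : f = g := by
  ext z
  refine HT.induction (p := fun z => f z = g z) z ?_ ?_ h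
  · exact isClosed_eq (by fun_prop) (by fun_prop)
  · intro z w hz hw
    rw [map_add, map_add, hz, hw]

/-- Two isometric isomorphisms that agree on elementary tensors are equal. -/
theorem HT.ext_equiv {Z : Type*} [NormedAddCommGroup Z] [InnerProductSpace ℂ Z]
    {f g : HT E F ≃ₗᵢ[ℂ] Z} (h : ∀ x y, f (tm x y) = g (tm x y)) : f = g := by
  ext z
  refine HT.induction (p := fun z => f z = g z) z ?_ ?_ h
  · exact isClosed_eq f.continuous g.continuous
  · intro z w hz hw
    rw [map_add, map_add, hz, hw]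

/-- Vectors are determined by their inner products with elementary tensors. -/
theorem HT.ext_inner {z w : HT E F} (h : ∀ x y, ⟪tm x y, z⟫_ℂ = ⟪tm x y, w⟫_ℂ) : z = w := by
  refine ext_inner_left ℂ fun v => ?_
  refine HT.induction (p := fun v => ⟪v, z⟫_ℂ = ⟪v, w⟫_ℂ) v ?_ ?_ h
  · exact isClosed_eq (by fun_prop) (by fun_prop)
  · intro a b ha hb
    rw [inner_add_left, inner_add_left, ha, hb]

/-- `y ↦ ξ ⊗ y`. -/
def insL (ξ : E) : F →L[ℂ] HT E F :=
  (toHT E F).toContinuousLinearMap ∘L TensorProduct.mkL ℂ E F ξ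

@[simp] theorem insL_apply (ξ : E) (y : F) : insL ξ y = tm ξ y := rfl

/-- `ξ ↦ ξ ⊗ y`. -/
def insR (y : F) : E →L[ℂ] HT E F :=
  (toHT E F).toContinuousLinearMap ∘L (TensorProduct.mkL ℂ E F).flip y

@[simp] theorem insR_apply (ξ : E) (y : F) : insR y ξ = tm ξ y := rfl

theorem norm_insL_le (ξ : E) : ‖(insL ξ : F →L[ℂ] HT E F)‖ ≤ ‖ξ‖ :=
  ContinuousLinearMap.opNorm_le_bound _ (norm_nonneg _) fun y => by simp

theorem norm_insR_le (y : F) : ‖(insR y : E →L[ℂ] HT E F)‖ ≤ ‖y‖ :=
  ContinuousLinearMap.opNorm_le_bound _ (norm_nonneg _) fun x => by simp [mul_comm]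

/-- `f ⊗ g` for bounded operators. -/
def mapC (f : E →L[ℂ] E') (g : F →L[ℂ] F') : HT E F →L[ℂ] HT E' F' :=
  compl (TensorProduct.mapL f g)

@[simp] theorem mapC_tm (f : E →L[ℂ] E') (g : F →L[ℂ] F') (x : E) (y : F) :
    mapC f g (tm x y) = tm (f x) (g y) :=
  compl_coe (TensorProduct.mapL f g) (x ⊗ₜ[ℂ] y)

theorem norm_mapC_le (f : E →L[ℂ] E') (g : F →L[ℂ] F') : ‖mapC f g‖ ≤ ‖f‖ * ‖g‖ :=
  (norm_compl_le _).trans (TensorProduct.norm_mapL_le f g)

/-- `1 ⊗ a`. -/
def ampR (a : F →L[ℂ] F) : HT E F →L[ℂ] HT E F := mapC (ContinuousLinearMap.id ℂ E) a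

@[simp] theorem ampR_tm (a : F →L[ℂ] F) (x : E) (y : F) :
    ampR (E := E) a (tm x y) = tm x (a y) := by
  simp [ampR]

theorem norm_ampR_le (a : F →L[ℂ] F) : ‖(ampR a : HT E F →L[ℂ] HT E F)‖ ≤ ‖a‖ := by
  refine (norm_mapC_le _ _).trans ?_
  have : ‖ContinuousLinearMap.id ℂ E‖ ≤ 1 := ContinuousLinearMap.norm_id_le
  calc ‖ContinuousLinearMap.id ℂ E‖ * ‖a‖ ≤ 1 * ‖a‖ := by gcongr
    _ = ‖a‖ := one_mul _

/-- `a ⊗ 1`. -/
def ampL (a : E →L[ℂ] E) : HT E F →L[ℂ] HT E F := mapC a (ContinuousLinearMap.id ℂ F)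

@[simp] theorem ampL_tm (a : E →L[ℂ] E) (x : E) (y : F) :
    ampL (F := F) a (tm x y) = tm (a x) y := by
  simp [ampL]

theorem norm_ampL_le (a : E →L[ℂ] E) : ‖(ampL a : HT E F →L[ℂ] HT E F)‖ ≤ ‖a‖ := by
  refine (norm_mapC_le _ _).trans ?_
  have : ‖ContinuousLinearMap.id ℂ F‖ ≤ 1 := ContinuousLinearMap.norm_id_le
  calc ‖a‖ * ‖ContinuousLinearMap.id ℂ F‖ ≤ ‖a‖ * 1 := by gcongr
    _ = ‖a‖ := mul_one _

/-- `U ⊗ V` for unitaries. -/
def mapT (f : E ≃ₗᵢ[ℂ] E') (g : F ≃ₗᵢ[ℂ] F') : HT E F ≃ₗᵢ[ℂ] HT E' F' :=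
  complE (TensorProduct.congrIsometry f g)

@[simp] theorem mapT_tm (f : E ≃ₗᵢ[ℂ] E') (g : F ≃ₗᵢ[ℂ] F') (x : E) (y : F) :
    mapT f g (tm x y) = tm (f x) (g y) :=
  complE_coe (TensorProduct.congrIsometry f g) (x ⊗ₜ[ℂ] y)

@[simp] theorem mapT_symm_tm (f : E ≃ₗᵢ[ℂ] E') (g : F ≃ₗᵢ[ℂ] F') (x : E') (y : F') :
    (mapT f g).symm (tm x y) = tm (f.symm x) (g.symm y) := by
  rw [LinearIsometryEquiv.symm_apply_eq]
  simp

/-- The flip `x ⊗ y ↦ y ⊗ x`. -/
def swapT (E F : Type*) [NormedAddCommGroup E] [InnerProductSpace ℂ E]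
    [NormedAddCommGroup F] [InnerProductSpace ℂ F] : HT E F ≃ₗᵢ[ℂ] HT F E :=
  complE (TensorProduct.commIsometry ℂ E F)

@[simp] theorem swapT_tm (x : E) (y : F) : swapT E F (tm x y) = tm y x :=
  complE_coe (TensorProduct.commIsometry ℂ E F) (x ⊗ₜ[ℂ] y)

@[simp] theorem swapT_symm_tm (x : E) (y : F) : (swapT E F).symm (tm y x) = tm x y := by
  rw [LinearIsometryEquiv.symm_apply_eq]
  simp

@[simp] theorem swapT_swapT (z : HT E F) : swapT F E (swapT E F z) = z := by
  refine HT.induction (p := fun z => swapT F E (swapT E F z) = z) z ?_ ?_ ?_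
  · exact isClosed_eq ((swapT F E).continuous.comp (swapT E F).continuous) continuous_id
  · intro z w hz hw
    rw [map_add, map_add, hz, hw]
  · simp

end LCQG
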