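import Mathlib
import Pool.Agent.Lib.MP_ea3264_an.HT

/-!
# Associativity of the Hilbert space tensor product
-/

set_option autoImplicit false

open scoped TensorProduct InnerProductSpace
open UniformSpace

noncomputable section

namespace LCQG

variable {E F G E' F' G' : Type*}
  [NormedAddCommGroup E] [InnerProductSpace ℂ E]
  [NormedAddCommGroup F] [InnerProductSpace ℂ F]
  [NormedAddCommGroup G] [InnerProductSpace ℂ G]

/-- `(E ⊗ F) ⊗ G → (E ⊗̂ F) ⊗̂ G`. -/
def emb1 (E F G : Type*)
    [NormedAddCommGroup E] [InnerProductSpace ℂ E]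
    [NormedAddCommGroup F] [InnerProductSpace ℂ F]
    [NormedAddCommGroup G] [InnerProductSpace ℂ G] :
    (E ⊗[ℂ] F) ⊗[ℂ] G →ₗᵢ[ℂ] HT (HT E F) G :=
  (toHT (HT E F) G).comp ((toHT E F).rTensor G)

/-- `E ⊗ (F ⊗ G) → E ⊗̂ (F ⊗̂ G)`. -/
def emb2 (E F G : Type*)
    [NormedAddCommGroup E] [InnerProductSpace ℂ E]
    [NormedAddCommGroup F] [InnerProductSpace ℂ F]
    [NormedAddCommGroup G] [InnerProductSpace ℂ G] :
    E ⊗[ℂ] (F ⊗[ℂ] G) →ₗᵢ[ℂ] HT E (HT F G) :=
  (toHT E (HT F G)).comp ((toHT F G).lTensor E)

theorem emb1_tmul (x : E) (y : F) (z : G) :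
    emb1 E F G ((x ⊗ₜ[ℂ] y) ⊗ₜ[ℂ] z) = tm (tm x y) z := by
  simp [emb1, tm]

theorem emb2_tmul (x : E) (y : F) (z : G) :
    emb2 E F G (x ⊗ₜ[ℂ] (y ⊗ₜ[ℂ] z)) = tm x (tm y z) := by
  simp [emb2, tm]

theorem emb1_dense : DenseRange (emb1 E F G) := by
  have key : ∀ z : HT (HT E F) G, z ∈ (LinearMap.range (emb1 E F G).toLinearMap).topologicalClosure := by
    intro z
    refine HT.induction (p := fun z => z ∈
      (LinearMap.range (emb1 E F G).toLinearMap).topologicalClosure) z ?_ ?_ ?_
    · exact Submodule.isClosed_topologicalClosure _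
    · intro z w hz hw
      exact Submodule.add_mem _ hz hw
    · intro v c
      refine HT.induction (p := fun v => tm v c ∈
        (LinearMap.range (emb1 E F G).toLinearMap).topologicalClosure) v ?_ ?_ ?_
      · exact (Submodule.isClosed_topologicalClosure _).preimage
          (continuous_tm.comp (by fun_prop : Continuous fun v : HT E F => (v, c)))
      · intro z w hz hw
        rw [tm_add_left]
        exact Submodule.add_mem _ hz hw
      · intro x y
        refine Submodule.le_topologicalClosure _ ⟨(x ⊗ₜ[ℂ] y) ⊗ₜ[ℂ] c, ?_⟩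
        exact emb1_tmul x y c
  intro z
  have := key z
  rw [← SetLike.mem_coe, Submodule.topologicalClosure_coe] at this
  exact this

theorem emb2_dense : DenseRange (emb2 E F G) := by
  have key : ∀ z : HT E (HT F G), z ∈ (LinearMap.range (emb2 E F G).toLinearMap).topologicalClosure := by
    intro z
    refine HT.induction (p := fun z => z ∈
      (LinearMap.range (emb2 E F G).toLinearMap).topologicalClosure) z ?_ ?_ ?_
    · exact Submodule.isClosed_topologicalClosure _
    · intro z w hz hw
      exact Submodule.add_mem _ hz hw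
    · intro c v
      refine HT.induction (p := fun v => tm c v ∈
        (LinearMap.range (emb2 E F G).toLinearMap).topologicalClosure) v ?_ ?_ ?_
      · exact (Submodule.isClosed_topologicalClosure _).preimage
          (continuous_tm.comp (by fun_prop : Continuous fun v : HT F G => (c, v)))
      · intro z w hz hw
        rw [tm_add_right]
        exact Submodule.add_mem _ hz hw
      · intro x y
        refine Submodule.le_topologicalClosure _ ⟨c ⊗ₜ[ℂ] (x ⊗ₜ[ℂ] y), ?_⟩
        exact emb2_tmul c x y
  intro z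
  have := key z
  rw [← SetLike.mem_coe, Submodule.topologicalClosure_coe] at this
  exact this

/-- The associativity isomorphism `(E ⊗ F) ⊗ G ≃ E ⊗ (F ⊗ G)`. -/
def assocT (E F G : Type*)
    [NormedAddCommGroup E] [InnerProductSpace ℂ E]
    [NormedAddCommGroup F] [InnerProductSpace ℂ F]
    [NormedAddCommGroup G] [InnerProductSpace ℂ G] :
    HT (HT E F) G ≃ₗᵢ[ℂ] HT E (HT F G) :=
  (TensorProduct.assocIsometry ℂ E F G).toLinearEquiv.extendOfIsometry
    (emb1 E F G).toLinearMap (emb2 E F G).toLinearMap emb1_dense emb2_dense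
    (fun x => by
      change ‖emb2 E F G (TensorProduct.assocIsometry ℂ E F G x)‖ = ‖emb1 E F G x‖
      rw [LinearIsometry.norm_map, LinearIsometryEquiv.norm_map, LinearIsometry.norm_map])

@[simp] theorem assocT_tm (x : E) (y : F) (z : G) :
    assocT E F G (tm (tm x y) z) = tm x (tm y z) := by
  rw [← emb1_tmul, ← emb2_tmul]
  have := LinearEquiv.extendOfIsometry_eq (TensorProduct.assocIsometry ℂ E F G).toLinearEquiv
    (emb1 E F G).toLinearMap (emb2 E F G).toLinearMap emb1_dense emb2_dense
    (fun x => by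
      change ‖emb2 E F G (TensorProduct.assocIsometry ℂ E F G x)‖ = ‖emb1 E F G x‖
      rw [LinearIsometry.norm_map, LinearIsometryEquiv.norm_map, LinearIsometry.norm_map])
    ((x ⊗ₜ[ℂ] y) ⊗ₜ[ℂ] z)
  exact this

@[simp] theorem assocT_symm_tm (x : E) (y : F) (z : G) :
    (assocT E F G).symm (tm x (tm y z)) = tm (tm x y) z := by
  rw [LinearIsometryEquiv.symm_apply_eq]
  simp

/-- Induction for triple tensors. -/
theorem HT.induction3 {p : HT E (HT F G) → Prop} (w : HT E (HT F G)) (hc : IsClosed {z | p z})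
    (hadd : ∀ z w, p z → p w → p (z + w)) (htm : ∀ x y z, p (tm x (tm y z))) : p w := by
  refine HT.induction w hc hadd ?_
  intro x v
  refine HT.induction (p := fun v => p (tm x v)) v ?_ ?_ (htm x)
  · exact hc.preimage (continuous_tm.comp (by fun_prop : Continuous fun v : HT F G => (x, v)))
  · intro z w hz hw
    rw [tm_add_right]
    exact hadd _ _ hz hw

end LCQG
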