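import Mathlib
import Pool.Agent.Lib.MP_ea3264_an.Assoc

/-!
# Slices of an operator on a tensor product

For a unitary `W` on `H ⊗ H` we define
* `lam W ξ η = (ω_{ξ,η} ⊗ id)(W)`, i.e. `⟪u, lam W ξ η y⟫ = ⟪η ⊗ u, W (ξ ⊗ y)⟫`,
* `rho W y u = (id ⊗ ω_{y,u})(W)`, i.e. `⟪η, rho W y u ξ⟫ = ⟪η ⊗ u, W (ξ ⊗ y)⟫`,
where `ω_{ξ,η}(x) = ⟪η, x ξ⟫`.
-/

set_option autoImplicit false

open scoped TensorProduct InnerProductSpace ComplexConjugate
open ContinuousLinearMap

noncomputable section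

namespace LCQG

variable {H : Type*} [NormedAddCommGroup H] [InnerProductSpace ℂ H] [CompleteSpace H]

/-! ### Subspaces and their duals as normed spaces -/

section sub

variable {B : Type*} [NormedAddCommGroup B] [NormedSpace ℂ B]

/-- A linear subspace of a normed space, as a normed space. -/
def SubT (A : Submodule ℂ B) : Type _ := ↥A

instance (A : Submodule ℂ B) : NormedAddCommGroup (SubT A) :=
  inferInstanceAs (NormedAddCommGroup A)

instance (A : Submodule ℂ B) : NormedSpace ℂ (SubT A) :=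
  inferInstanceAs (NormedSpace ℂ A)

/-- The inclusion of a subspace. -/
def SubT.val (A : Submodule ℂ B) : SubT A →ₗᵢ[ℂ] B := A.subtypeₗᵢ

/-- Constructor. -/
def SubT.mk (A : Submodule ℂ B) (x : B) (hx : x ∈ A) : SubT A := (⟨x, hx⟩ : A)

instance (A : Submodule ℂ B) : CoeOut (SubT A) B := ⟨fun x => SubT.val A x⟩

@[simp] theorem SubT.val_mk (A : Submodule ℂ B) (x : B) (hx : x ∈ A) :
    SubT.val A (SubT.mk A x hx) = x := rfl

theorem SubT.val_mem (A : Submodule ℂ B) (x : SubT A) : SubT.val A x ∈ A :=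
  (show A from x).2

theorem SubT.ext (A : Submodule ℂ B) {x y : SubT A} (h : SubT.val A x = SubT.val A y) :
    x = y := (SubT.val A).injective h

theorem SubT.norm_val (A : Submodule ℂ B) (x : SubT A) : ‖SubT.val A x‖ = ‖x‖ :=
  (SubT.val A).norm_map x

/-- The dual Banach space of a linear subspace. -/
def DualT (A : Submodule ℂ B) : Type _ := SubT A →L[ℂ] ℂ

instance (A : Submodule ℂ B) : NormedAddCommGroup (DualT A) :=
  inferInstanceAs (NormedAddCommGroup (SubT A →L[ℂ] ℂ))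

instance (A : Submodule ℂ B) : NormedSpace ℂ (DualT A) :=
  inferInstanceAs (NormedSpace ℂ (SubT A →L[ℂ] ℂ))

instance (A : Submodule ℂ B) : CompleteSpace (DualT A) :=
  inferInstanceAs (CompleteSpace (SubT A →L[ℂ] ℂ))

instance (A : Submodule ℂ B) : FunLike (DualT A) (SubT A) ℂ :=
  inferInstanceAs (FunLike (SubT A →L[ℂ] ℂ) _ _)

instance (A : Submodule ℂ B) : ContinuousLinearMapClass (DualT A) ℂ (SubT A) ℂ :=
  inferInstanceAs (ContinuousLinearMapClass (SubT A →L[ℂ] ℂ) ℂ _ _)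

/-- A bounded functional, as an element of `DualT A`. -/
def DualT.of (A : Submodule ℂ B) (f : SubT A →L[ℂ] ℂ) : DualT A := f

@[simp] theorem DualT.of_apply (A : Submodule ℂ B) (f : SubT A →L[ℂ] ℂ) (x : SubT A) :
    DualT.of A f x = f x := rfl

theorem DualT.ext {A : Submodule ℂ B} {φ ψ : DualT A} (h : ∀ x, φ x = ψ x) : φ = ψ :=
  DFunLike.ext _ _ h

@[simp] theorem DualT.add_apply {A : Submodule ℂ B} (φ ψ : DualT A) (x : SubT A) :
    (φ + ψ) x = φ x + ψ x := rfl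

@[simp] theorem DualT.sub_apply {A : Submodule ℂ B} (φ ψ : DualT A) (x : SubT A) :
    (φ - ψ) x = φ x - ψ x := rfl

@[simp] theorem DualT.neg_apply {A : Submodule ℂ B} (φ : DualT A) (x : SubT A) :
    (-φ) x = -φ x := rfl

@[simp] theorem DualT.zero_apply {A : Submodule ℂ B} (x : SubT A) :
    (0 : DualT A) x = 0 := rfl

@[simp] theorem DualT.smul_apply {A : Submodule ℂ B} (c : ℂ) (φ : DualT A) (x : SubT A) :
    (c • φ) x = c * φ x := rfl

theorem DualT.le_opNorm {A : Submodule ℂ B} (φ : DualT A) (x : SubT A) :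
    ‖φ x‖ ≤ ‖φ‖ * ‖x‖ := (show SubT A →L[ℂ] ℂ from φ).le_opNorm x

theorem DualT.opNorm_le_bound {A : Submodule ℂ B} (φ : DualT A) {C : ℝ} (hC : 0 ≤ C)
    (h : ∀ x, ‖φ x‖ ≤ C * ‖x‖) : ‖φ‖ ≤ C :=
  ContinuousLinearMap.opNorm_le_bound (show SubT A →L[ℂ] ℂ from φ) hC h

theorem DualT.norm_of_le (A : Submodule ℂ B) (f : SubT A →L[ℂ] ℂ) : ‖DualT.of A f‖ = ‖f‖ := rfl

theorem DualT.continuous {A : Submodule ℂ B} (φ : DualT A) : Continuous φ :=
  (show SubT A →L[ℂ] ℂ from φ).continuous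

/-- Evaluation at a point. -/
def DualT.eval {A : Submodule ℂ B} (x : SubT A) : DualT A →L[ℂ] ℂ :=
  LinearMap.mkContinuous
    { toFun := fun φ => φ x
      map_add' := fun φ ψ => rfl
      map_smul' := fun c φ => rfl } ‖x‖ (fun φ => by
        change ‖φ x‖ ≤ ‖x‖ * ‖φ‖
        rw [mul_comm]
        exact φ.le_opNorm x)

@[simp] theorem DualT.eval_apply {A : Submodule ℂ B} (x : SubT A) (φ : DualT A) :
    DualT.eval x φ = φ x := rfl

@[simp] theorem DualT.sum_apply {A : Submodule ℂ B} {ι : Type*} (s : Finset ι)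
    (φ : ι → DualT A) (x : SubT A) : (∑ i ∈ s, φ i) x = ∑ i ∈ s, φ i x := by
  rw [← DualT.eval_apply x (∑ i ∈ s, φ i), map_sum]
  rfl

end sub

/-- A unitary viewed as a bounded operator. -/
abbrev opW (W : HT H H ≃ₗᵢ[ℂ] HT H H) : HT H H →L[ℂ] HT H H :=
  (W.toContinuousLinearEquiv : HT H H →L[ℂ] HT H H)

/-- The slice `λ(ω_{ξ,η}) = (ω_{ξ,η} ⊗ id)(W)`. -/
def lam (W : HT H H ≃ₗᵢ[ℂ] HT H H) (ξ η : H) : H →L[ℂ] H :=
  (adjoint (insL η : H →L[ℂ] HT H H)) ∘L opW W ∘L (insL ξ : H →L[ℂ] HT H H)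

/-- The slice `(id ⊗ ω_{y,u})(W)`. -/
def rho (W : HT H H ≃ₗᵢ[ℂ] HT H H) (y u : H) : H →L[ℂ] H :=
  (adjoint (insR u : H →L[ℂ] HT H H)) ∘L opW W ∘L (insR y : H →L[ℂ] HT H H)

variable (W : HT H H ≃ₗᵢ[ℂ] HT H H)

theorem inner_lam (ξ η u y : H) : ⟪u, lam W ξ η y⟫_ℂ = ⟪tm η u, W (tm ξ y)⟫_ℂ := by
  simp [lam, adjoint_inner_right]

theorem inner_rho (y u ξ η : H) : ⟪η, rho W y u ξ⟫_ℂ = ⟪tm η u, W (tm ξ y)⟫_ℂ := by
  simp [rho, adjoint_inner_right]

theorem norm_lam_le (ξ η : H) : ‖lam W ξ η‖ ≤ ‖ξ‖ * ‖η‖ := by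
  refine opNorm_le_bound _ (by positivity) fun y => ?_
  by_cases h : ‖lam W ξ η y‖ = 0
  · rw [h]; positivity
  have h1 : ‖lam W ξ η y‖ * ‖lam W ξ η y‖ ≤ ‖ξ‖ * ‖η‖ * ‖y‖ * ‖lam W ξ η y‖ := by
    calc ‖lam W ξ η y‖ * ‖lam W ξ η y‖ = ‖⟪lam W ξ η y, lam W ξ η y⟫_ℂ‖ := by
          rw [inner_self_eq_norm_sq_to_K]; simp [sq]
      _ = ‖⟪tm η (lam W ξ η y), W (tm ξ y)⟫_ℂ‖ := by rw [inner_lam]
      _ ≤ ‖tm η (lam W ξ η y)‖ * ‖W (tm ξ y)‖ := norm_inner_le_norm _ _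
      _ = ‖ξ‖ * ‖η‖ * ‖y‖ * ‖lam W ξ η y‖ := by
          rw [LinearIsometryEquiv.norm_map, norm_tm, norm_tm]; ring
  have hpos : 0 < ‖lam W ξ η y‖ := lt_of_le_of_ne (norm_nonneg _) (Ne.symm h)
  exact le_of_mul_le_mul_right h1 hpos

theorem norm_rho_le (y u : H) : ‖rho W y u‖ ≤ ‖y‖ * ‖u‖ := by
  refine opNorm_le_bound _ (by positivity) fun x => ?_
  by_cases h : ‖rho W y u x‖ = 0
  · rw [h]; positivity
  have h1 : ‖rho W y u x‖ * ‖rho W y u x‖ ≤ ‖y‖ * ‖u‖ * ‖x‖ * ‖rho W y u x‖ := by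
    calc ‖rho W y u x‖ * ‖rho W y u x‖ = ‖⟪rho W y u x, rho W y u x⟫_ℂ‖ := by
          rw [inner_self_eq_norm_sq_to_K]; simp [sq]
      _ = ‖⟪tm (rho W y u x) u, W (tm x y)⟫_ℂ‖ := by rw [inner_rho]
      _ ≤ ‖tm (rho W y u x) u‖ * ‖W (tm x y)‖ := norm_inner_le_norm _ _
      _ = ‖y‖ * ‖u‖ * ‖x‖ * ‖rho W y u x‖ := by
          rw [LinearIsometryEquiv.norm_map, norm_tm, norm_tm]; ring
  have hpos : 0 < ‖rho W y u x‖ := lt_of_le_of_ne (norm_nonneg _) (Ne.symm h)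
  exact le_of_mul_le_mul_right h1 hpos

theorem lam_add_left (ξ ξ' η : H) : lam W (ξ + ξ') η = lam W ξ η + lam W ξ' η := by
  ext y
  refine ext_inner_left ℂ fun u => ?_
  rw [add_apply, inner_add_right, inner_lam, inner_lam, inner_lam,
    tm_add_left, map_add, inner_add_right]

theorem lam_add_right (ξ η η' : H) : lam W ξ (η + η') = lam W ξ η + lam W ξ η' := by
  ext y
  refine ext_inner_left ℂ fun u => ?_
  rw [add_apply, inner_add_right, inner_lam, inner_lam, inner_lam,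
    tm_add_left, inner_add_left]

theorem lam_smul_left (c : ℂ) (ξ η : H) : lam W (c • ξ) η = c • lam W ξ η := by
  ext y
  refine ext_inner_left ℂ fun u => ?_
  rw [smul_apply, inner_smul_right, inner_lam, inner_lam,
    tm_smul_left, map_smul, inner_smul_right]

theorem lam_smul_right (c : ℂ) (ξ η : H) : lam W ξ (c • η) = conj c • lam W ξ η := by
  ext y
  refine ext_inner_left ℂ fun u => ?_
  rw [smul_apply, inner_smul_right, inner_lam, inner_lam,
    tm_smul_left, inner_smul_left]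

theorem rho_add_left (y y' u : H) : rho W (y + y') u = rho W y u + rho W y' u := by
  ext x
  refine ext_inner_left ℂ fun v => ?_
  rw [add_apply, inner_add_right, inner_rho, inner_rho, inner_rho,
    tm_add_right, map_add, inner_add_right]

theorem rho_add_right (y u u' : H) : rho W y (u + u') = rho W y u + rho W y u' := by
  ext x
  refine ext_inner_left ℂ fun v => ?_
  rw [add_apply, inner_add_right, inner_rho, inner_rho, inner_rho,
    tm_add_right, inner_add_left]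

theorem rho_smul_left (c : ℂ) (y u : H) : rho W (c • y) u = c • rho W y u := by
  ext x
  refine ext_inner_left ℂ fun v => ?_
  rw [smul_apply, inner_smul_right, inner_rho, inner_rho,
    tm_smul_right, map_smul, inner_smul_right]

theorem rho_smul_right (c : ℂ) (y u : H) : rho W y (c • u) = conj c • rho W y u := by
  ext x
  refine ext_inner_left ℂ fun v => ?_
  rw [smul_apply, inner_smul_right, inner_rho, inner_rho,
    tm_smul_right, inner_smul_left]

/-- The slices `lam` as a sesquilinear map `(η, ξ) ↦ lam W ξ η`. -/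
def lamS : H →L⋆[ℂ] H →L[ℂ] (H →L[ℂ] H) :=
  LinearMap.mkContinuous₂
    (LinearMap.mk₂'ₛₗ (starRingEnd ℂ) (RingHom.id ℂ) (fun η ξ => lam W ξ η)
      (fun η η' ξ => lam_add_right W ξ η η') (fun c η ξ => lam_smul_right W c ξ η)
      (fun η ξ ξ' => lam_add_left W ξ ξ' η) (fun c η ξ => lam_smul_left W c ξ η)) 1
    (fun η ξ => by
      change ‖lam W ξ η‖ ≤ 1 * ‖η‖ * ‖ξ‖
      rw [one_mul, mul_comm]
      exact norm_lam_le W ξ η)

@[simp] theorem lamS_apply (η ξ : H) : lamS W η ξ = lam W ξ η := rfl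

/-- The slices `rho` as a sesquilinear map `(u, y) ↦ rho W y u`. -/
def rhoS : H →L⋆[ℂ] H →L[ℂ] (H →L[ℂ] H) :=
  LinearMap.mkContinuous₂
    (LinearMap.mk₂'ₛₗ (starRingEnd ℂ) (RingHom.id ℂ) (fun u y => rho W y u)
      (fun u u' y => rho_add_right W y u u') (fun c u y => rho_smul_right W c y u)
      (fun u y y' => rho_add_left W y y' u) (fun c u y => rho_smul_left W c y u)) 1
    (fun u y => by
      change ‖rho W y u‖ ≤ 1 * ‖u‖ * ‖y‖
      rw [one_mul, mul_comm]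
      exact norm_rho_le W y u)

@[simp] theorem rhoS_apply (u y : H) : rhoS W u y = rho W y u := rfl

section general

variable {B : Type*} [NormedAddCommGroup B] [NormedSpace ℂ B]

/-- The closed linear span of the values of a sesquilinear map `r`. -/
def Cs (r : H →L⋆[ℂ] H →L[ℂ] B) : Submodule ℂ B :=
  (Submodule.span ℂ (Set.range fun p : H × H => r p.1 p.2)).topologicalClosure

theorem mem_Cs (r : H →L⋆[ℂ] H →L[ℂ] B) (u y : H) : r u y ∈ Cs r :=
  Submodule.le_topologicalClosure _ (Submodule.subset_span ⟨(u, y), rfl⟩)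

/-- `r` with values in the closed span of its values. -/
def toCs (r : H →L⋆[ℂ] H →L[ℂ] B) : H →L⋆[ℂ] H →L[ℂ] (SubT (Cs r)) :=
  LinearMap.mkContinuous₂
    (LinearMap.mk₂'ₛₗ (starRingEnd ℂ) (RingHom.id ℂ)
      (fun u y => SubT.mk (Cs r) (r u y) (mem_Cs r u y))
      (fun u u' y => SubT.ext _ (by simp)) (fun c u y => SubT.ext _ (by simp))
      (fun u y y' => SubT.ext _ (by simp)) (fun c u y => SubT.ext _ (by simp))) ‖r‖
    (fun u y => by
      change ‖r u y‖ ≤ ‖r‖ * ‖u‖ * ‖y‖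
      exact r.le_opNorm₂ u y)

@[simp] theorem val_toCs (r : H →L⋆[ℂ] H →L[ℂ] B) (u y : H) :
    SubT.val (Cs r) (toCs r u y) = r u y := rfl

/-- The sesquilinear form `(u, y) ↦ φ (r u y)`. -/
def sliceForm (r : H →L⋆[ℂ] H →L[ℂ] B) (φ : DualT (Cs r)) : H →L⋆[ℂ] H →L[ℂ] ℂ :=
  LinearMap.mkContinuous₂
    (LinearMap.mk₂'ₛₗ (starRingEnd ℂ) (RingHom.id ℂ) (fun u y => φ (toCs r u y))
      (fun u u' y => by simp) (fun c u y => by simp)
      (fun u y y' => by simp) (fun c u y => by simp)) (‖φ‖ * ‖r‖)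
    (fun u y => by
      change ‖φ (toCs r u y)‖ ≤ ‖φ‖ * ‖r‖ * ‖u‖ * ‖y‖
      calc ‖φ (toCs r u y)‖ ≤ ‖φ‖ * ‖toCs r u y‖ := φ.le_opNorm _
        _ = ‖φ‖ * ‖r u y‖ := by rw [← SubT.norm_val, val_toCs]
        _ ≤ ‖φ‖ * (‖r‖ * ‖u‖ * ‖y‖) := by
            gcongr
            exact r.le_opNorm₂ u y
        _ = ‖φ‖ * ‖r‖ * ‖u‖ * ‖y‖ := by ring)

/-- Slicing with a functional: the operator with `⟪u, slice r φ y⟫ = φ (r u y)`. -/
def slice (r : H →L⋆[ℂ] H →L[ℂ] B) (φ : DualT (Cs r)) : H →L[ℂ] H :=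
  adjoint (InnerProductSpace.continuousLinearMapOfBilin (sliceForm r φ))

theorem inner_slice (r : H →L⋆[ℂ] H →L[ℂ] B) (φ : DualT (Cs r)) (u y : H) :
    ⟪u, slice r φ y⟫_ℂ = φ (toCs r u y) := by
  rw [slice, adjoint_inner_right, InnerProductSpace.continuousLinearMapOfBilin_apply]
  rfl

end general

end LCQG
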