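import Mathlib
import Pool.Agent.Lib.MP_ea3264_an.Coef

/-!
# Locally compact quantum groups through their multiplicative unitary

The definitions used in the main theorem.
-/

set_option autoImplicit false

open scoped TensorProduct InnerProductSpace ComplexConjugate Topology
open ContinuousLinearMap Filter

noncomputable section

namespace LCQG

variable {H : Type*} [NormedAddCommGroup H] [InnerProductSpace ℂ H] [CompleteSpace H]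

/-! ### Leg numbering and the pentagon equation -/

/-- `W₂₃` on `H ⊗ H ⊗ H`. -/
def leg23 (W : HT H H ≃ₗᵢ[ℂ] HT H H) : HT H (HT H H) ≃ₗᵢ[ℂ] HT H (HT H H) :=
  mapT (LinearIsometryEquiv.refl ℂ H) W

/-- `W₁₂` on `H ⊗ H ⊗ H`. -/
def leg12 (W : HT H H ≃ₗᵢ[ℂ] HT H H) : HT H (HT H H) ≃ₗᵢ[ℂ] HT H (HT H H) :=
  (assocT H H H).symm.trans
    ((mapT W (LinearIsometryEquiv.refl ℂ H)).trans (assocT H H H))

/-- The flip of the last two legs. -/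
def flip23 (H : Type*) [NormedAddCommGroup H] [InnerProductSpace ℂ H] :
    HT H (HT H H) ≃ₗᵢ[ℂ] HT H (HT H H) :=
  mapT (LinearIsometryEquiv.refl ℂ H) (swapT H H)

/-- `W₁₃` on `H ⊗ H ⊗ H`. -/
def leg13 (W : HT H H ≃ₗᵢ[ℂ] HT H H) : HT H (HT H H) ≃ₗᵢ[ℂ] HT H (HT H H) :=
  (flip23 H).trans ((leg12 W).trans (flip23 H))

/-- The pentagon equation `W₁₂ W₁₃ W₂₃ = W₂₃ W₁₂`. -/
def Pentagon (W : HT H H ≃ₗᵢ[ℂ] HT H H) : Prop :=
  ∀ z : HT H (HT H H), leg12 W (leg13 W (leg23 W z)) = leg23 W (leg12 W z)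

/-! ### One-parameter groups and analytic extensions -/

/-- `J a J` for an anti-unitary involution `J`. -/
def conjBy (J : H ≃ₗᵢ⋆[ℂ] H) (a : H →L[ℂ] H) : H →L[ℂ] H :=
  (J.toContinuousLinearEquiv : H →L⋆[ℂ] H).comp
    (a.comp (J.toContinuousLinearEquiv : H →L⋆[ℂ] H))

/-- The open strip `0 < Im z < s`. -/
def strip (s : ℝ) : Set ℂ := {z | 0 < z.im ∧ z.im < s}

/-- The closed strip `0 ≤ Im z ≤ s`. -/
def cstrip (s : ℝ) : Set ℂ := {z | 0 ≤ z.im ∧ z.im ≤ s}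

/-- `τ_t(a) = U_t a U_{-t}`. -/
def tau (U : ℝ → H ≃ₗᵢ[ℂ] H) (t : ℝ) (a : H →L[ℂ] H) : H →L[ℂ] H :=
  ((U t).toContinuousLinearEquiv : H →L[ℂ] H) ∘L a ∘L
    ((U (-t)).toContinuousLinearEquiv : H →L[ℂ] H)

/-- `IsExt U s a b`: the operator `a` lies in the domain of `τ_{is}` and `τ_{is}(a) = b`, that is,
`t ↦ τ_t(a) = U_t a U_{-t}` extends to a bounded norm-continuous function on the closed strip
`0 ≤ Im z ≤ s`, analytic in the interior, with value `b` at `is`. -/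
def IsExt (U : ℝ → H ≃ₗᵢ[ℂ] H) (s : ℝ) (a b : H →L[ℂ] H) : Prop :=
  ∃ F : ℂ → (H →L[ℂ] H), ContinuousOn F (cstrip s) ∧ DifferentiableOn ℂ F (strip s) ∧
    (∃ C : ℝ, ∀ z ∈ cstrip s, ‖F z‖ ≤ C) ∧ (∀ t : ℝ, F t = tau U t a) ∧
    F (s * Complex.I) = b

open Classical in
/-- `τ_{i/4}(a)` (and `0` if `a` is not in the domain of `τ_{i/4}`). -/
def tilde (U : ℝ → H ≃ₗᵢ[ℂ] H) (a : H →L[ℂ] H) : H →L[ℂ] H :=
  if h : ∃ b, IsExt U (1 / 4) a b then h.choose else 0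

/-! ### The data of a locally compact quantum group -/

/-- The data attached by Kustermans and Vaes to a locally compact quantum group `𝔾`, on the
Hilbert space `H = L²(𝔾)`: the multiplicative unitary `W`, the modular conjugations `J`
(of the left Haar weight of `𝔾`) and `Jh = Ĵ` (of the left Haar weight of the dual) and the
one-parameter group `U t = P^{it}` which implements the scaling groups of `𝔾` and of its dual:
`τ̂_t(a) = P^{it} a P^{-it}`. -/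
structure QData (H : Type*) [NormedAddCommGroup H] [InnerProductSpace ℂ H]
    [CompleteSpace H] where
  /-- The multiplicative unitary. -/
  W : HT H H ≃ₗᵢ[ℂ] HT H H
  /-- The modular conjugation of `𝔾`. -/
  J : H ≃ₗᵢ⋆[ℂ] H
  /-- The modular conjugation of the dual. -/
  Jh : H ≃ₗᵢ⋆[ℂ] H
  /-- The scaling unitaries `P^{it}`. -/
  U : ℝ → H ≃ₗᵢ[ℂ] H
  /-- The pentagon equation `W₁₂ W₁₃ W₂₃ = W₂₃ W₁₂`. -/
  pentagon : Pentagon W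
  J_J : ∀ x, J (J x) = x
  Jh_Jh : ∀ x, Jh (Jh x) = x
  U_add : ∀ s t x, U (s + t) x = U s (U t x)
  U_cont : ∀ x, Continuous fun t => U t x
  /-- `(Ĵ ⊗ J) W (Ĵ ⊗ J) = W*`, in terms of matrix coefficients. -/
  W_adj : ∀ ξ η y u : H, ⟪W (tm η u), tm ξ y⟫_ℂ =
    ⟪W (tm (Jh ξ) (J y)), tm (Jh η) (J u)⟫_ℂ
  /-- `W` commutes with `P^{it} ⊗ P^{it}`. -/
  W_U : ∀ (t : ℝ) (ξ y : H), W (tm (U t ξ) (U t y)) = mapT (U t) (U t) (W (tm ξ y))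
  /-- `τ̂_{i/2}(λ(ω_{ξ,η})) = J λ(ω_{η,ξ}) J`, i.e. the formula
  `Ŝ((ω ⊗ id)(W*)) = (ω ⊗ id)(W)` for the antipode `Ŝ = R̂ τ̂_{-i/2}` of the dual, whose unitary
  part is `R̂(x) = J x* J`. -/
  scaling : ∀ ξ η : H, IsExt U (1 / 2) (lam W ξ η) (conjBy J (lam W η ξ))

/-! ### Function algebras, their duals, and convolution -/

/-- `C₀(𝔾)`: the closed linear span of the slices `(id ⊗ ω_{y,u})(W)`. -/
abbrev C0 (W : HT H H ≃ₗᵢ[ℂ] HT H H) : Submodule ℂ (H →L[ℂ] H) := Cs (rhoS W)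

/-- `C₀(𝔾̂)`: the closed linear span of the slices `(ω_{ξ,η} ⊗ id)(W)`. -/
abbrev C0h (W : HT H H ≃ₗᵢ[ℂ] HT H H) : Submodule ℂ (H →L[ℂ] H) := Cs (lamS W)

/-- `λ(φ) = (φ ⊗ id)(W)` for `φ ∈ C₀(𝔾)^*`: the operator with
`⟪u, λ(φ) y⟫ = φ ((id ⊗ ω_{y,u})(W))`. -/
abbrev lamM (W : HT H H ≃ₗᵢ[ℂ] HT H H) (φ : DualT (C0 W)) : H →L[ℂ] H :=
  slice (rhoS W) φ

/-- `(id ⊗ ψ)(W)` for `ψ ∈ C₀(𝔾̂)^*`: the operator with
`⟪η, (id ⊗ ψ)(W) ξ⟫ = ψ ((ω_{ξ,η} ⊗ id)(W))`. -/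
abbrev rhoM (W : HT H H ≃ₗᵢ[ℂ] HT H H) (ψ : DualT (C0h W)) : H →L[ℂ] H :=
  slice (lamS W) ψ

/-- The vector functional `ω_{ξ,η}(x) = ⟪η, x ξ⟫`, restricted to a subspace of `B(H)`. -/
def vecF (A : Submodule ℂ (H →L[ℂ] H)) (ξ η : H) : DualT A :=
  DualT.of A ((innerSL ℂ η) ∘L ((ContinuousLinearMap.apply ℂ H ξ) ∘L
    (SubT.val A).toContinuousLinearMap))

@[simp] theorem vecF_apply (A : Submodule ℂ (H →L[ℂ] H)) (ξ η : H) (x : SubT A) :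
    vecF A ξ η x = ⟪η, (SubT.val A x) ξ⟫_ℂ := rfl

/-- The normal states of `L^∞(𝔾)`, as functionals on `C₀(𝔾)`: the norm closure of the set of
functionals `x ↦ ∑ⱼ ⟪vⱼ, x vⱼ⟫` with `∑ⱼ ‖vⱼ‖² = 1`. -/
def St (W : HT H H ≃ₗᵢ[ℂ] HT H H) : Set (DualT (C0 W)) :=
  closure {φ | ∃ (n : ℕ) (v : Fin n → H), ∑ j, ‖v j‖ ^ 2 = 1 ∧
    φ = ∑ j, vecF (C0 W) (v j) (v j)}

/-- `L¹(𝔾)` as a subspace of `C₀(𝔾)^*`. -/
def L1 (W : HT H H ≃ₗᵢ[ℂ] HT H H) : Submodule ℂ (DualT (C0 W)) :=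
  (Submodule.span ℂ (Set.range fun p : H × H => vecF (C0 W) p.1 p.2)).topologicalClosure

/-- Co-amenability of `𝔾` (i.e. strong amenability of `𝔾̂`): the Banach algebra `C₀(𝔾)^*` has a
unit. The convolution product of `C₀(𝔾)^*` is expressed through the injective homomorphism
`λ`. -/
def CoAm (W : HT H H ≃ₗᵢ[ℂ] HT H H) : Prop :=
  ∃ ε : DualT (C0 W), ∀ φ : DualT (C0 W),
    lamM W ε * lamM W φ = lamM W φ ∧ lamM W φ * lamM W ε = lamM W φ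

/-- Co-amenability of `𝔾̂` (i.e. strong amenability of `𝔾`): the Banach algebra `C₀(𝔾̂)^*` has a
unit. -/
def CoAmDual (W : HT H H ≃ₗᵢ[ℂ] HT H H) : Prop :=
  ∃ ε : DualT (C0h W), ∀ ψ : DualT (C0h W),
    rhoM W ε * rhoM W ψ = rhoM W ψ ∧ rhoM W ψ * rhoM W ε = rhoM W ψ

/-- There is a `w*`-continuous convolution semigroup of states `(μ_t)` with the properties
(i), (ii), (iii) of the problem. -/
def HasSemigroup (W : HT H H ≃ₗᵢ[ℂ] HT H H) (U : ℝ → H ≃ₗᵢ[ℂ] H) : Prop :=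
  ∃ μ : ℝ → DualT (C0 W),
    (∀ t, 0 < t → μ t ∈ St W) ∧
    (∀ s t, 0 < s → 0 < t → lamM W (μ (s + t)) = lamM W (μ s) * lamM W (μ t)) ∧
    (∀ u y : H, Tendsto (fun t => ⟪u, lamM W (μ t) y⟫_ℂ) (𝓝[>] 0) (𝓝 ⟪u, y⟫_ℂ)) ∧
    (∀ ω ∈ St W, Tendsto (fun t => ‖tilde U (lamM W ω * lamM W (μ t) - lamM W (μ t))‖)
      atTop (𝓝 0)) ∧
    (∀ t, 0 < t → ‖tilde U (lamM W (μ t))‖ = 1)

end LCQG
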