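import Mathlib
import Pool.Agent.Lib.MP_ea3264_an.Defs

/-!
# Basic API
-/

set_option autoImplicit false
set_option linter.unusedSectionVars false

open scoped TensorProduct InnerProductSpace ComplexConjugate Topology
open ContinuousLinearMap Filter

noncomputable section

namespace LCQG

variable {H : Type*} [NormedAddCommGroup H] [InnerProductSpace ℂ H] [CompleteSpace H]

section anti

omit [CompleteSpace H]

/-- Anti-unitaries flip the inner product. -/
theorem inner_anti (J : H ≃ₗᵢ⋆[ℂ] H) (x y : H) : ⟪J x, J y⟫_ℂ = ⟪y, x⟫_ℂ := by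
  rw [inner_eq_sum_norm_sq_div_four, inner_eq_sum_norm_sq_div_four]
  have e1 : J x + J y = J (y + x) := by rw [map_add, add_comm]
  have e2 : ‖J x - J y‖ = ‖y - x‖ := by
    rw [← map_sub, LinearIsometryEquiv.norm_map, norm_sub_rev]
  have e3 : ‖J x - (RCLike.I : ℂ) • J y‖ = ‖y - (RCLike.I : ℂ) • x‖ := by
    have h : J x - (RCLike.I : ℂ) • J y = J (x + (RCLike.I : ℂ) • y) := by
      rw [map_add, LinearIsometryEquiv.map_smulₛₗ]
      simp [sub_eq_add_neg]
    rw [h, LinearIsometryEquiv.norm_map]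
    have h2 : x + (RCLike.I : ℂ) • y = (RCLike.I : ℂ) • (y - (RCLike.I : ℂ) • x) := by
      rw [smul_sub, smul_smul]
      simp [add_comm]
    rw [h2, norm_smul]
    simp
  have e4 : ‖J x + (RCLike.I : ℂ) • J y‖ = ‖y + (RCLike.I : ℂ) • x‖ := by
    have h : J x + (RCLike.I : ℂ) • J y = J (x - (RCLike.I : ℂ) • y) := by
      rw [map_sub, LinearIsometryEquiv.map_smulₛₗ]
      simp [sub_eq_add_neg]
    rw [h, LinearIsometryEquiv.norm_map]
    have h2 : x - (RCLike.I : ℂ) • y = (-(RCLike.I : ℂ)) • (y + (RCLike.I : ℂ) • x) := by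
      rw [smul_add, smul_smul]
      simp [sub_eq_add_neg, add_comm]
    rw [h2, norm_smul]
    simp
  rw [e1, e2, e3, e4, LinearIsometryEquiv.norm_map]

end anti

theorem conjBy_apply (J : H ≃ₗᵢ⋆[ℂ] H) (a : H →L[ℂ] H) (x : H) :
    conjBy J a x = J (a (J x)) := rfl

theorem inner_conjBy (J : H ≃ₗᵢ⋆[ℂ] H) (hJ : ∀ x, J (J x) = x) (a : H →L[ℂ] H) (u y : H) :
    ⟪u, conjBy J a y⟫_ℂ = ⟪a (J y), J u⟫_ℂ := by
  rw [conjBy_apply]
  conv_lhs => rw [← hJ u]
  rw [inner_anti]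

theorem conjBy_add (J : H ≃ₗᵢ⋆[ℂ] H) (a b : H →L[ℂ] H) :
    conjBy J (a + b) = conjBy J a + conjBy J b := by
  ext x
  simp [conjBy_apply]

theorem conjBy_smul (J : H ≃ₗᵢ⋆[ℂ] H) (c : ℂ) (a : H →L[ℂ] H) :
    conjBy J (c • a) = conj c • conjBy J a := by
  ext x
  simp [conjBy_apply, LinearIsometryEquiv.map_smulₛₗ]

theorem conjBy_conjBy (J : H ≃ₗᵢ⋆[ℂ] H) (hJ : ∀ x, J (J x) = x) (a : H →L[ℂ] H) :
    conjBy J (conjBy J a) = a := by
  ext x
  simp [conjBy_apply, hJ]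

theorem norm_conjBy_le (J : H ≃ₗᵢ⋆[ℂ] H) (a : H →L[ℂ] H) : ‖conjBy J a‖ ≤ ‖a‖ := by
  refine opNorm_le_bound _ (norm_nonneg _) fun x => ?_
  rw [conjBy_apply, LinearIsometryEquiv.norm_map]
  calc ‖a (J x)‖ ≤ ‖a‖ * ‖J x‖ := a.le_opNorm _
    _ = ‖a‖ * ‖x‖ := by rw [LinearIsometryEquiv.norm_map]

theorem norm_conjBy (J : H ≃ₗᵢ⋆[ℂ] H) (hJ : ∀ x, J (J x) = x) (a : H →L[ℂ] H) :
    ‖conjBy J a‖ = ‖a‖ := by
  refine le_antisymm (norm_conjBy_le J a) ?_
  conv_lhs => rw [← conjBy_conjBy J hJ a]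
  exact norm_conjBy_le _ _

/-! ### The one-parameter group -/

section group

variable {U : ℝ → H ≃ₗᵢ[ℂ] H}

omit [CompleteSpace H] in
theorem U_zero (hU : ∀ s t x, U (s + t) x = U s (U t x)) (x : H) : U 0 x = x := by
  have h := hU 0 0 x
  rw [add_zero] at h
  exact ((U 0).injective h).symm

omit [CompleteSpace H] in
theorem U_neg_apply (hU : ∀ s t x, U (s + t) x = U s (U t x)) (t : ℝ) (x : H) :
    U (-t) (U t x) = x := by
  rw [← hU, neg_add_cancel, U_zero hU]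

omit [CompleteSpace H] in
theorem U_apply_neg (hU : ∀ s t x, U (s + t) x = U s (U t x)) (t : ℝ) (x : H) :
    U t (U (-t) x) = x := by
  rw [← hU, add_neg_cancel, U_zero hU]

omit [CompleteSpace H] in
theorem inner_U_left (hU : ∀ s t x, U (s + t) x = U s (U t x)) (t : ℝ) (x y : H) :
    ⟪U t x, y⟫_ℂ = ⟪x, U (-t) y⟫_ℂ := by
  conv_lhs => rw [← U_apply_neg hU t y]
  rw [LinearIsometryEquiv.inner_map_map]

omit [CompleteSpace H] in
theorem inner_U_right (hU : ∀ s t x, U (s + t) x = U s (U t x)) (t : ℝ) (x y : H) :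
    ⟪x, U t y⟫_ℂ = ⟪U (-t) x, y⟫_ℂ := by
  conv_lhs => rw [← U_apply_neg hU t x]
  rw [LinearIsometryEquiv.inner_map_map]

theorem tau_apply (t : ℝ) (a : H →L[ℂ] H) (x : H) : tau U t a x = U t (a (U (-t) x)) := rfl

theorem tau_add' (t : ℝ) (a b : H →L[ℂ] H) : tau U t (a + b) = tau U t a + tau U t b := by
  ext x; simp [tau_apply]

theorem tau_smul (t : ℝ) (c : ℂ) (a : H →L[ℂ] H) : tau U t (c • a) = c • tau U t a := by
  ext x; simp [tau_apply]

theorem tau_mul (hU : ∀ s t x, U (s + t) x = U s (U t x)) (t : ℝ) (a b : H →L[ℂ] H) :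
    tau U t (a * b) = tau U t a * tau U t b := by
  ext x; simp [tau_apply, U_neg_apply hU]

theorem tau_tau (hU : ∀ s t x, U (s + t) x = U s (U t x)) (s t : ℝ) (a : H →L[ℂ] H) :
    tau U s (tau U t a) = tau U (s + t) a := by
  ext x
  rw [tau_apply, tau_apply, tau_apply, hU, neg_add, add_comm (-s) (-t), hU]

theorem tau_zero (hU : ∀ s t x, U (s + t) x = U s (U t x)) (a : H →L[ℂ] H) :
    tau U 0 a = a := by
  ext x
  rw [tau_apply, U_zero hU, neg_zero, U_zero hU]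

theorem norm_tau_le (t : ℝ) (a : H →L[ℂ] H) : ‖tau U t a‖ ≤ ‖a‖ := by
  refine opNorm_le_bound _ (norm_nonneg _) fun x => ?_
  rw [tau_apply, LinearIsometryEquiv.norm_map]
  calc ‖a (U (-t) x)‖ ≤ ‖a‖ * ‖U (-t) x‖ := a.le_opNorm _
    _ = ‖a‖ * ‖x‖ := by rw [LinearIsometryEquiv.norm_map]

theorem norm_tau (hU : ∀ s t x, U (s + t) x = U s (U t x)) (t : ℝ) (a : H →L[ℂ] H) :
    ‖tau U t a‖ = ‖a‖ := by
  refine le_antisymm (norm_tau_le t a) ?_
  have h : tau U (-t) (tau U t a) = a := by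
    rw [tau_tau hU, neg_add_cancel, tau_zero hU]
  conv_lhs => rw [← h]
  exact norm_tau_le _ _

end group

/-! ### Slices -/

section slices

variable {B : Type*} [NormedAddCommGroup B] [NormedSpace ℂ B]

/-- Two operators with the same matrix coefficients are equal. -/
theorem op_ext_inner {a b : H →L[ℂ] H} (h : ∀ u y, ⟪u, a y⟫_ℂ = ⟪u, b y⟫_ℂ) : a = b := by
  ext y
  exact ext_inner_left ℂ fun u => h u y

theorem slice_add (r : H →L⋆[ℂ] H →L[ℂ] B) (φ ψ : DualT (Cs r)) :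
    slice r (φ + ψ) = slice r φ + slice r ψ := by
  refine op_ext_inner fun u y => ?_
  simp [inner_slice, inner_add_right]

theorem slice_smul (r : H →L⋆[ℂ] H →L[ℂ] B) (c : ℂ) (φ : DualT (Cs r)) :
    slice r (c • φ) = c • slice r φ := by
  refine op_ext_inner fun u y => ?_
  simp [inner_slice, inner_smul_right]

theorem norm_slice_le (r : H →L⋆[ℂ] H →L[ℂ] B) (hr : ∀ u y, ‖r u y‖ ≤ ‖u‖ * ‖y‖)
    (φ : DualT (Cs r)) : ‖slice r φ‖ ≤ ‖φ‖ := by
  refine ContinuousLinearMap.opNorm_le_bound _ (norm_nonneg _) fun y => ?_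
  by_cases h : ‖slice r φ y‖ = 0
  · rw [h]; positivity
  have h1 : ‖slice r φ y‖ * ‖slice r φ y‖ ≤ ‖φ‖ * ‖y‖ * ‖slice r φ y‖ := by
    calc ‖slice r φ y‖ * ‖slice r φ y‖ = ‖⟪slice r φ y, slice r φ y⟫_ℂ‖ := by
          rw [inner_self_eq_norm_sq_to_K]; simp [sq]
      _ = ‖φ (toCs r (slice r φ y) y)‖ := by rw [inner_slice]
      _ ≤ ‖φ‖ * ‖toCs r (slice r φ y) y‖ := φ.le_opNorm _
      _ ≤ ‖φ‖ * (‖slice r φ y‖ * ‖y‖) := by
          gcongr
          rw [← SubT.norm_val, val_toCs]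
          exact hr _ _
      _ = ‖φ‖ * ‖y‖ * ‖slice r φ y‖ := by ring
  have hpos : 0 < ‖slice r φ y‖ := lt_of_le_of_ne (norm_nonneg _) (Ne.symm h)
  exact le_of_mul_le_mul_right h1 hpos

/-- `slice` as a bounded linear map. -/
def sliceL (r : H →L⋆[ℂ] H →L[ℂ] B) (hr : ∀ u y, ‖r u y‖ ≤ ‖u‖ * ‖y‖) :
    DualT (Cs r) →L[ℂ] (H →L[ℂ] H) :=
  LinearMap.mkContinuous
    { toFun := slice r
      map_add' := slice_add r
      map_smul' := slice_smul r } 1
    (fun φ => by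
      rw [one_mul]
      exact norm_slice_le r hr φ)

@[simp] theorem sliceL_apply (r : H →L⋆[ℂ] H →L[ℂ] B) (hr : ∀ u y, ‖r u y‖ ≤ ‖u‖ * ‖y‖)
    (φ : DualT (Cs r)) : sliceL r hr φ = slice r φ := rfl

/-- Induction on `Cs r`: a closed linear property which holds for the values of `r`. -/
theorem Cs_induction (r : H →L⋆[ℂ] H →L[ℂ] B) {p : SubT (Cs r) → Prop} (x : SubT (Cs r))
    (hc : IsClosed {x | p x}) (h0 : p 0) (hadd : ∀ x y, p x → p y → p (x + y))
    (hsmul : ∀ (c : ℂ) x, p x → p (c • x)) (hr : ∀ u y, p (toCs r u y)) : p x := by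
  -- the algebraic span inside `Cs r`
  let S : Submodule ℂ (SubT (Cs r)) :=
    Submodule.span ℂ (Set.range fun q : H × H => toCs r q.1 q.2)
  have hS : ∀ x ∈ S, p x := by
    intro x hx
    induction hx using Submodule.span_induction with
    | mem x hx =>
      obtain ⟨q, rfl⟩ := hx
      exact hr _ _
    | zero => exact h0
    | add x y _ _ hx hy => exact hadd _ _ hx hy
    | smul c x _ hx => exact hsmul _ _ hx
  have key : ∀ b (hb : b ∈ Submodule.span ℂ (Set.range fun p : H × H => r p.1 p.2)),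
      ∃ c ∈ S, SubT.val (Cs r) c = b := by
    intro b hb
    induction hb using Submodule.span_induction with
    | mem b hb =>
      obtain ⟨q, rfl⟩ := hb
      exact ⟨_, Submodule.subset_span ⟨q, rfl⟩, rfl⟩
    | zero => exact ⟨0, S.zero_mem, by simp⟩
    | add b b' hb hb' h h' =>
      obtain ⟨c, hc, rfl⟩ := h
      obtain ⟨c', hc', rfl⟩ := h'
      exact ⟨c + c', S.add_mem hc hc', by simp⟩
    | smul c b hb h =>
      obtain ⟨c', hc', rfl⟩ := h
      exact ⟨c • c', S.smul_mem c hc', by simp⟩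
  have hdense : x ∈ closure (S : Set (SubT (Cs r))) := by
    have hx : SubT.val (Cs r) x ∈ closure
        ((Submodule.span ℂ (Set.range fun p : H × H => r p.1 p.2) : Submodule ℂ B) : Set B) := by
      have := SubT.val_mem (Cs r) x
      unfold Cs at this
      rw [← SetLike.mem_coe, Submodule.topologicalClosure_coe] at this
      exact this
    rw [Metric.mem_closure_iff] at hx ⊢
    intro δ hδ
    obtain ⟨b, hb, hxb⟩ := hx δ hδ
    obtain ⟨c, hc, rfl⟩ := key b hb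
    refine ⟨c, hc, ?_⟩
    rw [LinearIsometry.dist_map] at hxb
    exact hxb
  have : x ∈ {x | p x} := closure_minimal hS hc hdense
  exact this

/-- A functional on `Cs r` is determined by its slice. -/
theorem slice_injective (r : H →L⋆[ℂ] H →L[ℂ] B) {φ ψ : DualT (Cs r)}
    (h : slice r φ = slice r ψ) : φ = ψ := by
  refine DualT.ext fun x => ?_
  refine Cs_induction r (p := fun x => φ x = ψ x) x ?_ ?_ ?_ ?_ ?_
  · exact isClosed_eq φ.continuous ψ.continuous
  · simp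
  · intro x y hx hy
    rw [map_add, map_add, hx, hy]
  · intro c x hx
    rw [map_smul, map_smul, hx]
  · intro u y
    rw [← inner_slice, ← inner_slice, h]

end slices

variable (W : HT H H ≃ₗᵢ[ℂ] HT H H)

theorem norm_lamS_le (η ξ : H) : ‖lamS W η ξ‖ ≤ ‖η‖ * ‖ξ‖ := by
  rw [lamS_apply, mul_comm]
  exact norm_lam_le W ξ η

theorem norm_rhoS_le (u y : H) : ‖rhoS W u y‖ ≤ ‖u‖ * ‖y‖ := by
  rw [rhoS_apply, mul_comm]
  exact norm_rho_le W y u

theorem inner_lamM (φ : DualT (C0 W)) (u y : H) :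
    ⟪u, lamM W φ y⟫_ℂ = φ (toCs (rhoS W) u y) := inner_slice _ _ _ _

theorem inner_rhoM (ψ : DualT (C0h W)) (η ξ : H) :
    ⟪η, rhoM W ψ ξ⟫_ℂ = ψ (toCs (lamS W) η ξ) := inner_slice _ _ _ _

theorem norm_lamM_le (φ : DualT (C0 W)) : ‖lamM W φ‖ ≤ ‖φ‖ :=
  norm_slice_le _ (norm_rhoS_le W) _

theorem norm_rhoM_le (ψ : DualT (C0h W)) : ‖rhoM W ψ‖ ≤ ‖ψ‖ :=
  norm_slice_le _ (norm_lamS_le W) _

@[simp] theorem lamM_vecF (ξ η : H) : lamM W (vecF (C0 W) ξ η) = lam W ξ η := by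
  refine op_ext_inner fun u y => ?_
  rw [inner_lamM, vecF_apply, val_toCs, rhoS_apply, inner_rho, inner_lam]

@[simp] theorem rhoM_vecF (y u : H) : rhoM W (vecF (C0h W) y u) = rho W y u := by
  refine op_ext_inner fun η ξ => ?_
  rw [inner_rhoM, vecF_apply, val_toCs, lamS_apply, inner_rho, inner_lam]

section vecF

variable (A : Submodule ℂ (H →L[ℂ] H))

theorem norm_vecF_le (ξ η : H) : ‖vecF A ξ η‖ ≤ ‖ξ‖ * ‖η‖ := by
  refine DualT.opNorm_le_bound _ (by positivity) fun x => ?_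
  rw [vecF_apply]
  calc ‖⟪η, (SubT.val A x) ξ⟫_ℂ‖ ≤ ‖η‖ * ‖(SubT.val A x) ξ‖ := norm_inner_le_norm _ _
    _ ≤ ‖η‖ * (‖SubT.val A x‖ * ‖ξ‖) := by
        gcongr
        exact (SubT.val A x).le_opNorm ξ
    _ = ‖ξ‖ * ‖η‖ * ‖x‖ := by
        rw [SubT.norm_val]; ring

theorem vecF_add_left (ξ ξ' η : H) : vecF A (ξ + ξ') η = vecF A ξ η + vecF A ξ' η :=
  DualT.ext fun x => by simp

theorem vecF_add_right (ξ η η' : H) : vecF A ξ (η + η') = vecF A ξ η + vecF A ξ η' :=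
  DualT.ext fun x => by simp [inner_add_left]

theorem vecF_smul_left (c : ℂ) (ξ η : H) : vecF A (c • ξ) η = c • vecF A ξ η :=
  DualT.ext fun x => by simp [inner_smul_right]

theorem vecF_smul_right (c : ℂ) (ξ η : H) : vecF A ξ (c • η) = conj c • vecF A ξ η :=
  DualT.ext fun x => by rw [vecF_apply, inner_smul_left, DualT.smul_apply, vecF_apply]

/-- `vecF` as a sesquilinear map `(η, ξ) ↦ vecF A ξ η`. -/
def vecS : H →L⋆[ℂ] H →L[ℂ] DualT A :=
  LinearMap.mkContinuous₂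
    (LinearMap.mk₂'ₛₗ (starRingEnd ℂ) (RingHom.id ℂ) (fun η ξ => vecF A ξ η)
      (fun η η' ξ => vecF_add_right A ξ η η') (fun c η ξ => vecF_smul_right A c ξ η)
      (fun η ξ ξ' => vecF_add_left A ξ ξ' η) (fun c η ξ => vecF_smul_left A c ξ η)) 1
    (fun η ξ => by
      change ‖vecF A ξ η‖ ≤ 1 * ‖η‖ * ‖ξ‖
      rw [one_mul, mul_comm]
      exact norm_vecF_le A ξ η)

@[simp] theorem vecS_apply (η ξ : H) : vecS A η ξ = vecF A ξ η := rfl

/-- The map `(ξ, η) ↦ ω_{ξ,η}` is continuous. -/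
theorem continuous_vecF : Continuous fun p : H × H => vecF A p.1 p.2 := by
  have h : Continuous fun p : H × H => vecS A p.2 p.1 :=
    ((vecS A).continuous.comp continuous_snd).clm_apply continuous_fst
  exact h

end vecF

theorem continuous_lam : Continuous fun p : H × H => lam W p.1 p.2 := by
  have h : Continuous fun p : H × H => lamS W p.2 p.1 :=
    ((lamS W).continuous.comp continuous_snd).clm_apply continuous_fst
  exact h

theorem continuous_rho : Continuous fun p : H × H => rho W p.1 p.2 := by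
  have h : Continuous fun p : H × H => rhoS W p.2 p.1 :=
    ((rhoS W).continuous.comp continuous_snd).clm_apply continuous_fst
  exact h

end LCQG
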