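import Mathlib
import Pool.Agent.Lib.MP_ea3264_an.Coef

/-!
# Bounded characters of operator algebras

Let `A` be a linear subspace of `B(H)` closed under multiplication and `χ` a bounded character
of `A`.

`char_norm_le`: for `n ≥ 1`, `‖χ x‖ ^ n = ‖χ (x ^ n)‖ ≤ ‖χ‖ * ‖x‖ ^ n` (where `x ^ n ∈ A`); hence
`‖χ x‖ ≤ ‖x‖` (otherwise `(‖χ x‖ / ‖x‖) ^ n → ∞`; `x = 0` is trivial).

`char_re_le`: let `a = SubT.val A x`, let `h > 0`. From `‖η + h • a η‖² = ‖η‖² + 2 h Re⟪η, a η⟫ +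
h² ‖a η‖² ≤ (1 + 2 h m + h² ‖a‖²) ‖η‖²` we get `‖1 + h a‖² ≤ q := 1 + 2 h m + h² ‖a‖²`, `q ≥ 1`.
For each `n` there is `y ∈ A` with `(1 + h a) ^ n = 1 + y` and `(1 + h χ x) ^ n = 1 + χ y`
(induction on `n`: `(1 + y)(1 + h a) = 1 + (y + h a + h y a)`). So
`‖1 + h χ x‖ ^ n ≤ 1 + ‖χ‖ ‖y‖ ≤ 1 + ‖χ‖ (1 + ‖1 + h a‖ ^ n) ≤ (1 + 2 ‖χ‖) * (√q) ^ n` (note
`‖1‖ ≤ 1`), for all `n`, whence `‖1 + h χ x‖ ≤ √q`, so `1 + 2 h Re(χ x) ≤ ‖1 + h χ x‖² ≤ q`, i.e.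
`Re (χ x) ≤ m + h ‖a‖² / 2`. Let `h → 0`.
-/

set_option autoImplicit false
set_option linter.unusedSectionVars false

open scoped TensorProduct InnerProductSpace ComplexConjugate Topology
open ContinuousLinearMap Filter

noncomputable section

namespace LCQG

variable {H : Type*} [NormedAddCommGroup H] [InnerProductSpace ℂ H] [CompleteSpace H]

private theorem ch_pow {a b C : ℝ} (hb : 0 ≤ b)
    (h : ∀ n : ℕ, a ^ (n + 1) ≤ C * b ^ (n + 1)) : a ≤ b := by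
  by_contra hc
  rw [not_le] at hc
  have ha0 : 0 < a := lt_of_le_of_lt hb hc
  rcases eq_or_lt_of_le hb with hb0 | hb0
  · have h1 := h 0
    rw [← hb0] at h1
    simp at h1
    linarith
  · have h1 : 1 < a / b := (one_lt_div hb0).2 hc
    obtain ⟨n, hn⟩ := pow_unbounded_of_one_lt C h1
    have h2 : (a / b) ^ n ≤ (a / b) ^ (n + 1) := pow_le_pow_right₀ h1.le (Nat.le_succ n)
    have h3 : (a / b) ^ (n + 1) ≤ C := by
      rw [div_pow, div_le_iff₀ (pow_pos hb0 _)]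
      exact h n
    linarith

theorem char_norm_le (A : Submodule ℂ (H →L[ℂ] H)) (hA : ∀ a ∈ A, ∀ b ∈ A, a * b ∈ A)
    (χ : DualT A) (hχ : ∀ x y z : SubT A, SubT.val A z = SubT.val A x * SubT.val A y →
      χ z = χ x * χ y) (x : SubT A) : ‖χ x‖ ≤ ‖x‖ := by
  have key : ∀ n : ℕ, ∃ y : SubT A, SubT.val A y = SubT.val A x ^ (n + 1) ∧
      χ y = χ x ^ (n + 1) := by
    intro n
    induction n with
    | zero => exact ⟨x, by rw [zero_add, pow_one], by rw [zero_add, pow_one]⟩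
    | succ n ih =>
      obtain ⟨y, h1, h2⟩ := ih
      refine ⟨SubT.mk A (SubT.val A y * SubT.val A x)
        (hA _ (SubT.val_mem A y) _ (SubT.val_mem A x)), ?_, ?_⟩
      · rw [SubT.val_mk, h1, ← pow_succ]
      · rw [hχ y x _ (SubT.val_mk A _ _), h2, ← pow_succ]
  refine ch_pow (C := ‖χ‖) (norm_nonneg _) fun n => ?_
  obtain ⟨y, h1, h2⟩ := key n
  rw [← norm_pow, ← h2]
  refine (DualT.le_opNorm χ y).trans (mul_le_mul_of_nonneg_left ?_ (norm_nonneg _))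
  rw [← SubT.norm_val, h1, ← SubT.norm_val A x]
  exact norm_pow_le' _ (Nat.succ_pos n)

private theorem ch_step (A : Submodule ℂ (H →L[ℂ] H)) (hA : ∀ a ∈ A, ∀ b ∈ A, a * b ∈ A)
    (χ : DualT A) (hχ : ∀ x y z : SubT A, SubT.val A z = SubT.val A x * SubT.val A y →
      χ z = χ x * χ y) (x : SubT A) (t : ℂ) (n : ℕ) :
    ∃ y : SubT A, (1 + t • SubT.val A x) ^ n = 1 + SubT.val A y ∧
      (1 + t * χ x) ^ n = 1 + χ y := by
  induction n with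
  | zero => exact ⟨0, by rw [pow_zero, map_zero, add_zero], by rw [pow_zero, map_zero, add_zero]⟩
  | succ n ih =>
    obtain ⟨y, h1, h2⟩ := ih
    obtain ⟨z, hz⟩ : ∃ z : SubT A, SubT.val A z = SubT.val A y * SubT.val A x :=
      ⟨SubT.mk A (SubT.val A y * SubT.val A x)
        (hA _ (SubT.val_mem A y) _ (SubT.val_mem A x)), SubT.val_mk A _ _⟩
    refine ⟨y + t • x + t • z, ?_, ?_⟩
    · rw [pow_succ, h1, map_add, map_add, map_smul, map_smul, hz, mul_add, mul_one, add_mul,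
        one_mul, mul_smul_comm]
      abel
    · rw [pow_succ, h2, map_add, map_add, map_smul, map_smul, hχ y x z hz, smul_eq_mul,
        smul_eq_mul]
      ring

private theorem ch_norm (a : H →L[ℂ] H) {m t : ℝ} (hm : 0 ≤ m) (ht : 0 < t)
    (hx : ∀ η : H, (⟪η, a η⟫_ℂ).re ≤ m * ‖η‖ ^ 2) :
    ‖(1 : H →L[ℂ] H) + (t : ℂ) • a‖ ≤ Real.sqrt (1 + 2 * t * m + t ^ 2 * ‖a‖ ^ 2) := by
  refine ContinuousLinearMap.opNorm_le_bound _ (Real.sqrt_nonneg _) fun η => ?_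
  have hq : 0 ≤ 1 + 2 * t * m + t ^ 2 * ‖a‖ ^ 2 := by positivity
  have h1 : ((1 : H →L[ℂ] H) + (t : ℂ) • a) η = η + (t : ℂ) • a η := rfl
  rw [h1]
  refine (sq_le_sq₀ (norm_nonneg _) (by positivity)).1 ?_
  rw [mul_pow, Real.sq_sqrt hq, @norm_add_sq ℂ, inner_smul_right, norm_smul, mul_pow]
  have h2 : RCLike.re ((t : ℂ) * ⟪η, a η⟫_ℂ) = t * (⟪η, a η⟫_ℂ).re := by
    simp
  have h3 : ‖(t : ℂ)‖ ^ 2 = t ^ 2 := by
    rw [Complex.norm_real, Real.norm_eq_abs, sq_abs]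
  rw [h2, h3]
  have h4 : t * (⟪η, a η⟫_ℂ).re ≤ t * (m * ‖η‖ ^ 2) := mul_le_mul_of_nonneg_left (hx η) ht.le
  have h5 : ‖a η‖ ^ 2 ≤ (‖a‖ * ‖η‖) ^ 2 := pow_le_pow_left₀ (norm_nonneg _) (a.le_opNorm η) 2
  have h6 : t ^ 2 * ‖a η‖ ^ 2 ≤ t ^ 2 * (‖a‖ * ‖η‖) ^ 2 :=
    mul_le_mul_of_nonneg_left h5 (sq_nonneg t)
  calc ‖η‖ ^ 2 + 2 * (t * (⟪η, a η⟫_ℂ).re) + t ^ 2 * ‖a η‖ ^ 2
      ≤ ‖η‖ ^ 2 + 2 * (t * (m * ‖η‖ ^ 2)) + t ^ 2 * (‖a‖ * ‖η‖) ^ 2 := by linarith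
    _ = (1 + 2 * t * m + t ^ 2 * ‖a‖ ^ 2) * ‖η‖ ^ 2 := by ring

theorem char_re_le (A : Submodule ℂ (H →L[ℂ] H)) (hA : ∀ a ∈ A, ∀ b ∈ A, a * b ∈ A)
    (χ : DualT A) (hχ : ∀ x y z : SubT A, SubT.val A z = SubT.val A x * SubT.val A y →
      χ z = χ x * χ y) (x : SubT A) {m : ℝ} (hm : 0 ≤ m)
    (hx : ∀ η : H, (⟪η, (SubT.val A x) η⟫_ℂ).re ≤ m * ‖η‖ ^ 2) : (χ x).re ≤ m := by
  obtain ⟨a, ha⟩ : ∃ a, a = SubT.val A x := ⟨_, rfl⟩
  have key : ∀ t : ℝ, 0 < t → (χ x).re ≤ m + t * ‖a‖ ^ 2 / 2 := by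
    intro t ht
    obtain ⟨q, hq⟩ : ∃ q, q = 1 + 2 * t * m + t ^ 2 * ‖a‖ ^ 2 := ⟨_, rfl⟩
    have hq1 : 1 ≤ q := by
      rw [hq]
      have h1 : 0 ≤ 2 * t * m := by positivity
      have h2 : 0 ≤ t ^ 2 * ‖a‖ ^ 2 := by positivity
      linarith
    have hQ1 : 1 ≤ Real.sqrt q := Real.one_le_sqrt.2 hq1
    have hn1 : ‖(1 : H →L[ℂ] H) + (t : ℂ) • a‖ ≤ Real.sqrt q := by
      rw [hq]
      exact ch_norm a hm ht (by rw [ha]; exact hx)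
    have hle : ‖1 + (t : ℂ) * χ x‖ ≤ Real.sqrt q := by
      refine ch_pow (C := 1 + 2 * ‖χ‖) (Real.sqrt_nonneg _) fun n => ?_
      obtain ⟨y, h1, h2⟩ := ch_step A hA χ hχ x (t : ℂ) (n + 1)
      rw [← norm_pow, h2]
      have hQn : 1 ≤ Real.sqrt q ^ (n + 1) := one_le_pow₀ hQ1
      have h3 : ‖y‖ ≤ Real.sqrt q ^ (n + 1) + 1 := by
        rw [← SubT.norm_val]
        have h4 : SubT.val A y = (1 + (t : ℂ) • SubT.val A x) ^ (n + 1) - 1 := by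
          rw [h1]
          abel
        rw [h4, ← ha]
        refine (norm_sub_le _ _).trans (add_le_add ?_ ContinuousLinearMap.norm_id_le)
        exact (norm_pow_le' _ (Nat.succ_pos n)).trans
          (pow_le_pow_left₀ (norm_nonneg _) hn1 _)
      have h5 : ‖χ y‖ ≤ ‖χ‖ * (Real.sqrt q ^ (n + 1) + 1) :=
        (DualT.le_opNorm χ y).trans (mul_le_mul_of_nonneg_left h3 (norm_nonneg _))
      have h6 : ‖χ‖ * 1 ≤ ‖χ‖ * Real.sqrt q ^ (n + 1) :=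
        mul_le_mul_of_nonneg_left hQn (norm_nonneg _)
      calc ‖1 + χ y‖ ≤ ‖(1 : ℂ)‖ + ‖χ y‖ := norm_add_le _ _
        _ = 1 + ‖χ y‖ := by rw [norm_one]
        _ ≤ 1 + ‖χ‖ * (Real.sqrt q ^ (n + 1) + 1) := by linarith
        _ ≤ (1 + 2 * ‖χ‖) * Real.sqrt q ^ (n + 1) := by linarith
    have h7 : ‖1 + (t : ℂ) * χ x‖ ^ 2 ≤ q := by
      have h8 := pow_le_pow_left₀ (norm_nonneg _) hle 2
      rwa [Real.sq_sqrt (by linarith)] at h8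
    have h9 : 1 + 2 * (t * (χ x).re) ≤ ‖1 + (t : ℂ) * χ x‖ ^ 2 := by
      rw [← Complex.normSq_eq_norm_sq, Complex.normSq_apply]
      have e1 : (1 + (t : ℂ) * χ x).re = 1 + t * (χ x).re := by simp
      rw [e1]
      nlinarith [sq_nonneg (t * (χ x).re), mul_self_nonneg (1 + (t : ℂ) * χ x).im]
    have h10 : t * (2 * (χ x).re) ≤ t * (2 * m + t * ‖a‖ ^ 2) := by
      calc t * (2 * (χ x).re) = (1 + 2 * (t * (χ x).re)) - 1 := by ring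
        _ ≤ q - 1 := by linarith
        _ = t * (2 * m + t * ‖a‖ ^ 2) := by rw [hq]; ring
    have h11 := le_of_mul_le_mul_left h10 ht
    linarith
  refine le_of_forall_pos_le_add fun ε hε => ?_
  have ha1 : 0 < ‖a‖ ^ 2 + 1 := by positivity
  have h1 := key (2 * ε / (‖a‖ ^ 2 + 1)) (by positivity)
  have h2 : 2 * ε / (‖a‖ ^ 2 + 1) * ‖a‖ ^ 2 / 2 ≤ ε := by
    rw [div_mul_eq_mul_div, div_div, div_le_iff₀ (by positivity)]
    nlinarith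
  linarith

end LCQG
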