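import Mathlib
import Pool.Agent.Lib.MP_ea3264_an.Coef

/-!
# Approximating a functional by convex combinations of vector functionals

Proof of `exists_vectors`. Work in the real vector space `V = EuclideanSpace ℂ (Fin n)` (or
`Fin n → ℂ`). Let `K ⊆ V` be the set of all points `k ↦ ∑ j, ⟪v j, x_k (v j)⟫` with `m : ℕ`,
`v : Fin m → H`, `∑ j, ‖v j‖ ^ 2 ≤ 1`. `K` is convex: for `t ∈ [0, 1]` concatenate the families
`√t • v` and `√(1 - t) • v'` (`Fin.append`). Let `P = (χ (x k))_k`. If `P ∉ closure K`, then by the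
Hahn-Banach theorem (`geometric_hahn_banach_closed_point`, for the closed convex set `closure K`)
there are a real-linear functional `f` and a real number `c` with `f w < c < f P` for `w ∈ K`. A
real-linear functional on `V` has the form `f w = Re ∑ k, c_k * w_k` with `c_k ∈ ℂ` (take
`c_k = f (e_k) - i f (i e_k)`). As `0 ∈ K` we have `c > 0`. Put `x = ∑ k, c_k • x k : SubT A`.
For `η` with `‖η‖ ≤ 1` the point `(⟪η, x_k η⟫)_k` is in `K`, so `Re ⟪η, x η⟫ ≤ c`; by scaling
`Re ⟪η, x η⟫ ≤ c * ‖η‖ ^ 2` for all `η`; hence by hypothesis `f P = Re (χ x) ≤ c`, a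
contradiction. So `P ∈ closure K`, which is the claim.
-/

set_option autoImplicit false
set_option linter.unusedSectionVars false

open scoped TensorProduct InnerProductSpace ComplexConjugate Topology
open ContinuousLinearMap Filter

noncomputable section

namespace LCQG

variable {H : Type*} [NormedAddCommGroup H] [InnerProductSpace ℂ H] [CompleteSpace H]

private theorem HB_scale (y : H →L[ℂ] H) (c : ℝ) (v : H) :
    ⟪(c : ℂ) • v, y ((c : ℂ) • v)⟫_ℂ = ((c ^ 2 : ℝ) : ℂ) * ⟪v, y v⟫_ℂ := by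
  rw [map_smul, inner_smul_left, inner_smul_right, Complex.conj_ofReal]
  push_cast
  ring

private theorem HB_norm (c : ℝ) (v : H) : ‖(c : ℂ) • v‖ ^ 2 = c ^ 2 * ‖v‖ ^ 2 := by
  rw [norm_smul, mul_pow, Complex.norm_real, Real.norm_eq_abs, sq_abs]

/-- the set of the points given by finite families of vectors -/
private def HB_K (n : ℕ) (y : Fin n → H →L[ℂ] H) : Set (Fin n → ℂ) :=
  {w | ∃ (m : ℕ) (v : Fin m → H), ∑ j, ‖v j‖ ^ 2 ≤ 1 ∧ ∀ k, w k = ∑ j, ⟪v j, y k (v j)⟫_ℂ}

private theorem HB_convex (n : ℕ) (y : Fin n → H →L[ℂ] H) : Convex ℝ (HB_K n y) := by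
  rintro w ⟨m, v, hv, hw⟩ w' ⟨m', v', hv', hw'⟩ a b ha hb hab
  refine ⟨m + m', Fin.append (fun j => ((Real.sqrt a : ℝ) : ℂ) • v j)
    (fun j => ((Real.sqrt b : ℝ) : ℂ) • v' j), ?_, ?_⟩
  · rw [Fin.sum_univ_add]
    simp only [Fin.append_left, Fin.append_right, HB_norm, Real.sq_sqrt ha, Real.sq_sqrt hb]
    rw [← Finset.mul_sum, ← Finset.mul_sum]
    calc a * ∑ i, ‖v i‖ ^ 2 + b * ∑ i, ‖v' i‖ ^ 2 ≤ a * 1 + b * 1 :=
          add_le_add (mul_le_mul_of_nonneg_left hv ha) (mul_le_mul_of_nonneg_left hv' hb)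
      _ = 1 := by rw [mul_one, mul_one, hab]
  · intro k
    rw [Fin.sum_univ_add]
    simp only [Fin.append_left, Fin.append_right, HB_scale, Real.sq_sqrt ha, Real.sq_sqrt hb]
    rw [← Finset.mul_sum, ← Finset.mul_sum, ← hw k, ← hw' k]
    simp [Pi.add_apply, Pi.smul_apply, Complex.real_smul]

private theorem HB_functional (n : ℕ) (f : (Fin n → ℂ) →L[ℝ] ℝ) :
    ∃ c : Fin n → ℂ, ∀ w : Fin n → ℂ, f w = (∑ k, c k * w k).re := by
  classical
  refine ⟨fun k => (f (Pi.single k 1) : ℂ) - Complex.I * (f (Pi.single k Complex.I) : ℂ), ?_⟩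
  intro w
  have h1 : w = ∑ k, Pi.single k (w k) := by
    ext j
    simp [Finset.sum_apply, Pi.single_apply]
  have h2 : ∀ (k : Fin n) (z : ℂ), f (Pi.single k z) =
      (((f (Pi.single k 1) : ℂ) - Complex.I * (f (Pi.single k Complex.I) : ℂ)) * z).re := by
    intro k z
    have h3 : (Pi.single k z : Fin n → ℂ) =
        z.re • (Pi.single k 1 : Fin n → ℂ) + z.im • (Pi.single k Complex.I : Fin n → ℂ) := by
      ext j
      rcases eq_or_ne j k with h | h
      · subst h
        simp [Complex.real_smul, Complex.re_add_im]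
      · simp [Pi.single_apply, h]
    rw [h3, map_add, map_smul, map_smul]
    simp only [smul_eq_mul, Complex.mul_re, Complex.sub_re, Complex.sub_im, Complex.mul_im,
      Complex.ofReal_re, Complex.ofReal_im, Complex.I_re, Complex.I_im]
    ring
  conv_lhs => rw [h1, map_sum]
  rw [Complex.re_sum]
  exact Finset.sum_congr rfl fun k _ => h2 k (w k)

theorem exists_vectors (A : Submodule ℂ (H →L[ℂ] H)) (χ : DualT A)
    (h : ∀ (x : SubT A) (m : ℝ), 0 ≤ m →
      (∀ η : H, (⟪η, (SubT.val A x) η⟫_ℂ).re ≤ m * ‖η‖ ^ 2) → (χ x).re ≤ m)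
    (n : ℕ) (x : Fin n → SubT A) {δ : ℝ} (hδ : 0 < δ) :
    ∃ (m : ℕ) (v : Fin m → H), ∑ j, ‖v j‖ ^ 2 ≤ 1 ∧
      ∀ k, ‖χ (x k) - ∑ j, ⟪v j, (SubT.val A (x k)) (v j)⟫_ℂ‖ ≤ δ := by
  have key : (fun k => χ (x k)) ∈ closure (HB_K n fun k => SubT.val A (x k)) := by
    by_contra hP
    obtain ⟨f, u, hf1, hf2⟩ := geometric_hahn_banach_closed_point
      (HB_convex n fun k => SubT.val A (x k)).closure isClosed_closure hP
    obtain ⟨c, hc⟩ := HB_functional n f
    have h0 : (0 : Fin n → ℂ) ∈ HB_K n fun k => SubT.val A (x k) :=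
      ⟨0, fun j => 0, by simp, fun k => by simp⟩
    have hu : 0 < u := by
      have := hf1 0 (subset_closure h0)
      rwa [map_zero] at this
    have hval : ∀ η : H, (⟪η, (SubT.val A (∑ k, c k • x k)) η⟫_ℂ).re =
        f (fun k => ⟪η, (SubT.val A (x k)) η⟫_ℂ) := by
      intro η
      rw [hc]
      congr 1
      rw [map_sum]
      simp only [map_smul, ContinuousLinearMap.sum_apply, ContinuousLinearMap.smul_apply]
      rw [inner_sum]
      exact Finset.sum_congr rfl fun k _ => inner_smul_right _ _ _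
    have hχ : (χ (∑ k, c k • x k)).re = f (fun k => χ (x k)) := by
      rw [hc]
      congr 1
      have e : χ (∑ k, c k • x k) = ∑ k, χ (c k • x k) := map_sum (show SubT A →L[ℂ] ℂ from χ) _ _
      rw [e]
      exact Finset.sum_congr rfl fun k _ => by
        have := map_smul (show SubT A →L[ℂ] ℂ from χ) (c k) (x k)
        exact this
    have hfin := h (∑ k, c k • x k) u hu.le (by
      intro η
      rw [hval]
      rcases eq_or_ne η 0 with hη | hη
      · subst hη
        have : (fun k => ⟪(0 : H), (SubT.val A (x k)) 0⟫_ℂ) = 0 := by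
          ext k
          simp
        rw [this, map_zero, norm_zero]
        simp
      · have hn : 0 < ‖η‖ := norm_pos_iff.2 hη
        have hmem : (fun k => ⟪((‖η‖⁻¹ : ℝ) : ℂ) • η, (SubT.val A (x k)) (((‖η‖⁻¹ : ℝ) : ℂ) • η)⟫_ℂ) ∈
            HB_K n fun k => SubT.val A (x k) := by
          refine ⟨1, fun _ => ((‖η‖⁻¹ : ℝ) : ℂ) • η, ?_, fun k => by simp⟩
          simp only [HB_norm]
          rw [Finset.sum_const, Finset.card_univ, Fintype.card_fin, one_smul, ← mul_pow,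
            inv_mul_cancel₀ hn.ne', one_pow]
        have h1 := hf1 _ (subset_closure hmem)
        have h2 : (fun k => ⟪((‖η‖⁻¹ : ℝ) : ℂ) • η,
            (SubT.val A (x k)) (((‖η‖⁻¹ : ℝ) : ℂ) • η)⟫_ℂ) =
            (‖η‖⁻¹ ^ 2 : ℝ) • (fun k => ⟪η, (SubT.val A (x k)) η⟫_ℂ) := by
          ext k
          rw [HB_scale, Pi.smul_apply, Complex.real_smul]
        rw [h2, map_smul, smul_eq_mul] at h1
        have h3 : ‖η‖⁻¹ ^ 2 * ‖η‖ ^ 2 = 1 := by
          rw [← mul_pow, inv_mul_cancel₀ hn.ne', one_pow]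
        have h4 : 0 < ‖η‖ ^ 2 := by positivity
        have h5 : f (fun k => ⟪η, (SubT.val A (x k)) η⟫_ℂ) =
            (‖η‖⁻¹ ^ 2 * f (fun k => ⟪η, (SubT.val A (x k)) η⟫_ℂ)) * ‖η‖ ^ 2 := by
          rw [mul_right_comm, h3, one_mul]
        rw [h5]
        exact (mul_lt_mul_of_pos_right h1 h4).le)
    rw [hχ] at hfin
    exact absurd hf2 (not_lt.2 hfin)
  rw [Metric.mem_closure_iff] at key
  obtain ⟨w, ⟨m, v, hv, hw⟩, hd⟩ := key δ hδ
  refine ⟨m, v, hv, fun k => ?_⟩
  rw [← hw k, ← dist_eq_norm]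
  exact (dist_le_pi_dist (fun k => χ (x k)) w k).trans hd.le

end LCQG
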