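import Mathlib
import Pool.Agent.Lib.MP_ea3264_an.Api

/-!
# Products of slices, from the pentagon equation

Proof of `inner_lam_lam`. Formulas for the legs on elementary tensors (first step):
`leg23 W (tm x v) = tm x (W v)`; `leg12 W (tm x (tm y z)) = assocT H H H (tm (W (tm x y)) z)`.
Put `A := ⟪tm η (tm η' u), leg13 W (leg23 W (tm ξ (tm ξ' y)))⟫`. By `HT.induction` on
`v = W (tm ξ' y)` one has for all `v : HT H H`
`⟪tm η (tm η' u), leg13 W (tm ξ v)⟫ = ⟪tm η' u, ampR (lam W ξ η) v⟫`
(for `v = tm a b`: `leg13 W (tm ξ (tm a b)) = flip23 (assocT (tm (W (tm ξ b)) a))` and the inner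
product with `tm η (tm η' u)` is `⟪η', a⟫ * ⟪tm η u, W (tm ξ b)⟫`), hence `A =
⟪tm η' (adjoint (lam W ξ η) u), W (tm ξ' y)⟫ = ⟪u, lam W ξ η (lam W ξ' η' y)⟫`.
On the other hand, by the pentagon equation, `leg13 (leg23 x) = leg12.symm (leg23 (leg12 x))`, so
`A = ⟪leg12 W (tm η (tm η' u)), leg23 W (leg12 W (tm ξ (tm ξ' y)))⟫
   = ⟪assocT (tm (W (tm η η')) u), leg23 W (assocT (tm (W (tm ξ ξ')) y))⟫`
and for all `z z' : HT H H` (induction on `z` and `z'`)
`⟪assocT (tm z' u), leg23 W (assocT (tm z y))⟫ = ⟪z', ampR (rho W y u) z⟫`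
(for `z = tm a b`, `z' = tm c d` both sides are `⟪c, a⟫ * ⟪tm d u, W (tm b y)⟫`).

Proof of `inner_rho_rho`: the same with `leg12 (leg13 x) = leg23 (leg12 (leg23.symm x))`:
`⟪tm η (tm u u'), leg12 W (leg13 W (tm ξ (tm y y')))⟫ = ⟪η, rho W y u (rho W y' u' ξ)⟫` and
`⟪tm η z', leg12 W (tm ξ z)⟫ = ⟪z', ampL (lam W ξ η) z⟫` for all `z z' : HT H H`.
-/

set_option autoImplicit false
set_option linter.unusedSectionVars false

open scoped TensorProduct InnerProductSpace ComplexConjugate Topology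
open ContinuousLinearMap Filter

noncomputable section

namespace LCQG

variable {H : Type*} [NormedAddCommGroup H] [InnerProductSpace ℂ H] [CompleteSpace H]
variable {W : HT H H ≃ₗᵢ[ℂ] HT H H}

omit [CompleteSpace H] in
private theorem pent_contL (ξ : H) {V : Type*} [NormedAddCommGroup V] [InnerProductSpace ℂ V] :
    Continuous fun v : V => tm ξ v := (insL ξ : V →L[ℂ] HT H V).continuous

omit [CompleteSpace H] in
private theorem pent_contR {V : Type*} [NormedAddCommGroup V] [InnerProductSpace ℂ V] (y : H) :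
    Continuous fun x : V => tm x y := (insR y : V →L[ℂ] HT V H).continuous

omit [CompleteSpace H] in
private theorem pent_leg23 (x : H) (v : HT H H) : leg23 W (tm x v) = tm x (W v) := by
  simp [leg23]

omit [CompleteSpace H] in
private theorem pent_leg23_symm (x : H) (v : HT H H) :
    (leg23 W).symm (tm x v) = tm x (W.symm v) := by
  rw [LinearIsometryEquiv.symm_apply_eq, pent_leg23, LinearIsometryEquiv.apply_symm_apply]

omit [CompleteSpace H] in
private theorem pent_leg12 (x y z : H) :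
    leg12 W (tm x (tm y z)) = assocT H H H (tm (W (tm x y)) z) := by
  simp [leg12]

omit [CompleteSpace H] in
private theorem pent_flip (x y z : H) : flip23 H (tm x (tm y z)) = tm x (tm z y) := by
  simp [flip23]

omit [CompleteSpace H] in
private theorem pent_leg13 (x y z : H) :
    leg13 W (tm x (tm y z)) = flip23 H (assocT H H H (tm (W (tm x z)) y)) := by
  change flip23 H (leg12 W (flip23 H (tm x (tm y z)))) = _
  rw [pent_flip, pent_leg12]

/-- `⟪η ⊗ η' ⊗ u, (z ⊗ a)_{13,2}⟫` -/
private theorem pent_A0 (η η' u a : H) (z : HT H H) :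
    ⟪tm η (tm η' u), flip23 H (assocT H H H (tm z a))⟫_ℂ = ⟪η', a⟫_ℂ * ⟪tm η u, z⟫_ℂ := by
  refine HT.induction (p := fun z => ⟪tm η (tm η' u), flip23 H (assocT H H H (tm z a))⟫_ℂ =
    ⟪η', a⟫_ℂ * ⟪tm η u, z⟫_ℂ) z ?_ ?_ ?_
  · refine isClosed_eq ?_ ?_
    · exact continuous_const.inner ((flip23 H).continuous.comp
        ((assocT H H H).continuous.comp (pent_contR a)))
    · exact continuous_const.mul (continuous_const.inner continuous_id)
  · intro z w hz hw
    rw [tm_add_left, map_add, map_add, inner_add_right, hz, hw, inner_add_right, mul_add]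
  · intro c d
    rw [assocT_tm, pent_flip]
    simp only [inner_tm_tm]
    ring

private theorem pent_A1 (ξ η η' u : H) (v : HT H H) :
    ⟪tm η (tm η' u), leg13 W (tm ξ v)⟫_ℂ = ⟪tm η' u, ampR (lam W ξ η) v⟫_ℂ := by
  refine HT.induction (p := fun v => ⟪tm η (tm η' u), leg13 W (tm ξ v)⟫_ℂ =
    ⟪tm η' u, ampR (lam W ξ η) v⟫_ℂ) v ?_ ?_ ?_
  · refine isClosed_eq ?_ ?_
    · exact continuous_const.inner ((leg13 W).continuous.comp (pent_contL ξ))
    · exact continuous_const.inner (ContinuousLinearMap.continuous _)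
  · intro z w hz hw
    rw [tm_add_right, map_add, inner_add_right, hz, hw, map_add, inner_add_right]
  · intro a b
    rw [pent_leg13, pent_A0, ampR_tm, inner_tm_tm, inner_lam]

private theorem pent_ampR (a : H →L[ℂ] H) (x u : H) (v : HT H H) :
    ⟪tm x u, ampR a v⟫_ℂ = ⟪tm x (adjoint a u), v⟫_ℂ := by
  refine HT.induction (p := fun v => ⟪tm x u, ampR a v⟫_ℂ = ⟪tm x (adjoint a u), v⟫_ℂ) v ?_ ?_ ?_
  · refine isClosed_eq ?_ ?_
    · exact continuous_const.inner (ContinuousLinearMap.continuous _)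
    · exact continuous_const.inner continuous_id
  · intro z w hz hw
    rw [map_add, inner_add_right, hz, hw, inner_add_right]
  · intro b c
    rw [ampR_tm, inner_tm_tm, inner_tm_tm, adjoint_inner_left]

private theorem pent_A2 (u y : H) (z' z : HT H H) :
    ⟪assocT H H H (tm z' u), leg23 W (assocT H H H (tm z y))⟫_ℂ =
      ⟪z', ampR (rho W y u) z⟫_ℂ := by
  refine HT.induction (p := fun z => ⟪assocT H H H (tm z' u),
    leg23 W (assocT H H H (tm z y))⟫_ℂ = ⟪z', ampR (rho W y u) z⟫_ℂ) z ?_ ?_ ?_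
  · refine isClosed_eq ?_ ?_
    · exact continuous_const.inner ((leg23 W).continuous.comp
        ((assocT H H H).continuous.comp (pent_contR y)))
    · exact continuous_const.inner (ContinuousLinearMap.continuous _)
  · intro z w hz hw
    rw [tm_add_left, map_add, map_add, inner_add_right, hz, hw, map_add, inner_add_right]
  · intro a b
    refine HT.induction (p := fun z' => ⟪assocT H H H (tm z' u),
      leg23 W (assocT H H H (tm (tm a b) y))⟫_ℂ = ⟪z', ampR (rho W y u) (tm a b)⟫_ℂ) z' ?_ ?_ ?_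
    · refine isClosed_eq ?_ ?_
      · exact ((assocT H H H).continuous.comp (pent_contR u)).inner continuous_const
      · exact continuous_id.inner continuous_const
    · intro z w hz hw
      rw [tm_add_left, map_add, inner_add_left, hz, hw, inner_add_left]
    · intro c d
      rw [assocT_tm, assocT_tm, pent_leg23, ampR_tm, inner_tm_tm, inner_tm_tm, inner_rho]

theorem inner_lam_lam (hW : Pentagon W) (ξ η ξ' η' u y : H) :
    ⟪u, lam W ξ η (lam W ξ' η' y)⟫_ℂ =
      ⟪W (tm η η'), ampR (rho W y u) (W (tm ξ ξ'))⟫_ℂ := by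
  have h1 : ⟪tm η (tm η' u), leg13 W (leg23 W (tm ξ (tm ξ' y)))⟫_ℂ =
      ⟪u, lam W ξ η (lam W ξ' η' y)⟫_ℂ := by
    rw [pent_leg23, pent_A1, pent_ampR, ← inner_lam, adjoint_inner_left]
  rw [← h1, ← pent_A2, ← pent_leg12, ← pent_leg12, ← hW, LinearIsometryEquiv.inner_map_map]

private theorem pent_C (η u u' d : H) (w : HT H H) :
    ⟪tm η (tm u u'), assocT H H H (tm w d)⟫_ℂ = ⟪tm η u, w⟫_ℂ * ⟪u', d⟫_ℂ := by
  refine HT.induction (p := fun w => ⟪tm η (tm u u'), assocT H H H (tm w d)⟫_ℂ =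
    ⟪tm η u, w⟫_ℂ * ⟪u', d⟫_ℂ) w ?_ ?_ ?_
  · refine isClosed_eq ?_ ?_
    · exact continuous_const.inner ((assocT H H H).continuous.comp (pent_contR d))
    · exact (continuous_const.inner continuous_id).mul continuous_const
  · intro z w hz hw
    rw [tm_add_left, map_add, inner_add_right, hz, hw, inner_add_right, add_mul]
  · intro a b
    rw [assocT_tm]
    simp only [inner_tm_tm]
    ring

private theorem pent_B1 (η u u' y : H) (z : HT H H) :
    ⟪tm η (tm u u'), leg12 W (flip23 H (assocT H H H (tm z y)))⟫_ℂ =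
      ⟪tm (adjoint (rho W y u) η) u', z⟫_ℂ := by
  refine HT.induction (p := fun z => ⟪tm η (tm u u'),
    leg12 W (flip23 H (assocT H H H (tm z y)))⟫_ℂ =
      ⟪tm (adjoint (rho W y u) η) u', z⟫_ℂ) z ?_ ?_ ?_
  · refine isClosed_eq ?_ ?_
    · exact continuous_const.inner ((leg12 W).continuous.comp ((flip23 H).continuous.comp
        ((assocT H H H).continuous.comp (pent_contR y))))
    · exact continuous_const.inner continuous_id
  · intro z w hz hw
    rw [tm_add_left, map_add, map_add, map_add, inner_add_right, hz, hw, inner_add_right]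
  · intro c d
    rw [assocT_tm, pent_flip, pent_leg12, pent_C, inner_tm_tm, adjoint_inner_left, inner_rho]

private theorem pent_B2 (ξ η : H) (z' z : HT H H) :
    ⟪tm η z', leg12 W (tm ξ z)⟫_ℂ = ⟪z', ampL (lam W ξ η) z⟫_ℂ := by
  refine HT.induction (p := fun z => ⟪tm η z', leg12 W (tm ξ z)⟫_ℂ =
    ⟪z', ampL (lam W ξ η) z⟫_ℂ) z ?_ ?_ ?_
  · refine isClosed_eq ?_ ?_
    · exact continuous_const.inner ((leg12 W).continuous.comp (pent_contL ξ))
    · exact continuous_const.inner (ContinuousLinearMap.continuous _)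
  · intro z w hz hw
    rw [tm_add_right, map_add, inner_add_right, hz, hw, map_add, inner_add_right]
  · intro a b
    refine HT.induction (p := fun z' => ⟪tm η z', leg12 W (tm ξ (tm a b))⟫_ℂ =
      ⟪z', ampL (lam W ξ η) (tm a b)⟫_ℂ) z' ?_ ?_ ?_
    · refine isClosed_eq ?_ ?_
      · exact (pent_contL η).inner continuous_const
      · exact continuous_id.inner continuous_const
    · intro z w hz hw
      rw [tm_add_right, inner_add_left, hz, hw, inner_add_left]
    · intro c d
      rw [pent_leg12, pent_C, ampL_tm, inner_tm_tm, inner_lam]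

theorem inner_rho_rho (hW : Pentagon W) (ξ η y u y' u' : H) :
    ⟪η, rho W y u (rho W y' u' ξ)⟫_ℂ =
      ⟪W.symm (tm u u'), ampL (lam W ξ η) (W.symm (tm y y'))⟫_ℂ := by
  have h1 : ⟪tm η (tm u u'), leg12 W (leg13 W (tm ξ (tm y y')))⟫_ℂ =
      ⟪η, rho W y u (rho W y' u' ξ)⟫_ℂ := by
    rw [pent_leg13, pent_B1, ← inner_rho, adjoint_inner_left]
  have h2 : leg12 W (leg13 W (tm ξ (tm y y'))) =
      leg23 W (leg12 W ((leg23 W).symm (tm ξ (tm y y')))) := by
    rw [← hW, LinearIsometryEquiv.apply_symm_apply]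
  rw [← h1, h2, ← pent_B2, ← pent_leg23_symm, ← pent_leg23_symm]
  conv_lhs => rw [← LinearIsometryEquiv.apply_symm_apply (leg23 W) (tm η (tm u u'))]
  rw [LinearIsometryEquiv.inner_map_map]

end LCQG
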