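import Mathlib
import Pool.Agent.Lib.MP_ea3264_an.Api

/-!
# Slices with vectors of the tensor product

`exists_r2L`: for `z, z' : HT H H` there is `x` in the closed span of the values of `r` with
`φ x = ⟪z', (slice r φ ⊗ 1) z⟫` for all functionals `φ`.

Proof. Fix `z'`. Let `T` be the set of all `z` for which such an `x` exists. It is closed under
addition (add the `x`'s). It is closed: let `ι : SubT (Cs r) → (dual of DualT (Cs r))` be the
canonical isometric embedding `x ↦ (φ ↦ φ x)` (`DualT.eval`; isometric by Hahn-Banach,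
`NormedSpace.norm_le_dual_bound` or `exists_dual_vector`), whose range is closed because
`SubT (Cs r)` is complete (`Cs r` is a closed subspace of a complete space); `z ↦ (φ ↦
⟪z', ampL (slice r φ) z⟫)` is a bounded linear map into the dual of `DualT (Cs r)` (use
`norm_ampL_le`, `norm_slice_le`), and `T` is the preimage of the range of `ι`. (Alternatively argue
with Cauchy sequences.) So by `HT.induction` it suffices to take `z = tm a b`, and in the same way
`z' = tm c d`; then `x = ⟪d, b⟫ • toCs r c a` works.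

`exists_r2R`: the same with `1 ⊗ slice r φ`; for `z = tm a b`, `z' = tm c d` take
`x = ⟪c, a⟫ • toCs r d b`, or use `exists_r2L` for `swapT z`, `swapT z'`.
-/

set_option autoImplicit false
set_option linter.unusedSectionVars false

open scoped TensorProduct InnerProductSpace ComplexConjugate Topology
open ContinuousLinearMap Filter

noncomputable section

namespace LCQG

variable {H : Type*} [NormedAddCommGroup H] [InnerProductSpace ℂ H] [CompleteSpace H]

private theorem r2_complete (r : H →L⋆[ℂ] H →L[ℂ] (H →L[ℂ] H)) :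
    CompleteSpace (SubT (Cs r)) := by
  have h : IsClosed ((Cs r : Submodule ℂ (H →L[ℂ] H)) : Set (H →L[ℂ] H)) :=
    Submodule.isClosed_topologicalClosure _
  exact h.completeSpace_coe

private theorem r2_closed (r : H →L⋆[ℂ] H →L[ℂ] (H →L[ℂ] H)) {Y : Type*}
    [NormedAddCommGroup Y] (Φ : Y → DualT (Cs r) → ℂ) (C : ℝ) (hC : 0 ≤ C)
    (hΦ : ∀ z w φ, ‖Φ z φ - Φ w φ‖ ≤ C * ‖z - w‖ * ‖φ‖) :
    IsClosed {z | ∃ x : SubT (Cs r), ∀ φ : DualT (Cs r), φ x = Φ z φ} := by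
  haveI := r2_complete r
  refine IsSeqClosed.isClosed fun z z₀ hz hlim => ?_
  choose x hx using hz
  have hb : ∀ m n, ‖x m - x n‖ ≤ C * ‖z m - z n‖ := by
    intro m n
    refine NormedSpace.norm_le_dual_bound ℂ (x m - x n) (by positivity) fun f => ?_
    have h1 : f (x m - x n) = Φ (z m) (DualT.of (Cs r) f) - Φ (z n) (DualT.of (Cs r) f) := by
      rw [map_sub, ← hx m, ← hx n]
      rfl
    rw [h1]
    exact hΦ _ _ _
  have hcz : CauchySeq z := hlim.cauchySeq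
  have hcx : CauchySeq x := by
    rw [Metric.cauchySeq_iff] at hcz ⊢
    intro ε hε
    obtain ⟨N, hN⟩ := hcz (ε / (C + 1)) (by positivity)
    refine ⟨N, fun m hm n hn => ?_⟩
    have h1 := hN m hm n hn
    rw [dist_eq_norm] at h1 ⊢
    have h2 := hb m n
    have h3 : ‖z m - z n‖ * (C + 1) < ε := by
      rwa [lt_div_iff₀ (by positivity)] at h1
    nlinarith [norm_nonneg (z m - z n)]
  obtain ⟨x₀, hx₀⟩ := cauchySeq_tendsto_of_complete hcx
  refine ⟨x₀, fun φ => ?_⟩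
  have h1 : Tendsto (fun n => φ (x n)) atTop (𝓝 (φ x₀)) :=
    (φ.continuous.tendsto x₀).comp hx₀
  have h2 : Tendsto (fun n => Φ (z n) φ) atTop (𝓝 (Φ z₀ φ)) := by
    rw [tendsto_iff_norm_sub_tendsto_zero]
    have h3 : Tendsto (fun n => C * ‖z n - z₀‖ * ‖φ‖) atTop (𝓝 0) := by
      have h4 := (tendsto_iff_norm_sub_tendsto_zero.1 hlim).const_mul C |>.mul_const ‖φ‖
      simpa using h4
    exact squeeze_zero (fun _ => norm_nonneg _) (fun n => hΦ _ _ _) h3
  have h3 : (fun n => φ (x n)) = fun n => Φ (z n) φ := funext fun n => hx n φ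
  rw [h3] at h1
  exact tendsto_nhds_unique h1 h2

theorem exists_r2L (r : H →L⋆[ℂ] H →L[ℂ] (H →L[ℂ] H)) (hr : ∀ u y, ‖r u y‖ ≤ ‖u‖ * ‖y‖)
    (z z' : HT H H) :
    ∃ x : SubT (Cs r), ∀ φ : DualT (Cs r), φ x = ⟪z', ampL (slice r φ) z⟫_ℂ := by
  have hamp : ∀ (φ : DualT (Cs r)) (w : HT H H), ‖ampL (slice r φ) w‖ ≤ ‖φ‖ * ‖w‖ := by
    intro φ w
    calc ‖ampL (slice r φ) w‖ ≤ ‖(ampL (slice r φ) : HT H H →L[ℂ] HT H H)‖ * ‖w‖ :=
          ContinuousLinearMap.le_opNorm _ _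
      _ ≤ ‖φ‖ * ‖w‖ := by
          gcongr
          exact (norm_ampL_le _).trans (norm_slice_le r hr φ)
  refine HT.induction (p := fun z => ∃ x : SubT (Cs r), ∀ φ : DualT (Cs r),
    φ x = ⟪z', ampL (slice r φ) z⟫_ℂ) z ?_ ?_ ?_
  · refine r2_closed r (fun z φ => ⟪z', ampL (slice r φ) z⟫_ℂ) ‖z'‖ (norm_nonneg _) ?_
    intro z w φ
    change ‖⟪z', ampL (slice r φ) z⟫_ℂ - ⟪z', ampL (slice r φ) w⟫_ℂ‖ ≤ _
    rw [← inner_sub_right, ← map_sub]
    calc ‖⟪z', ampL (slice r φ) (z - w)⟫_ℂ‖ ≤ ‖z'‖ * ‖ampL (slice r φ) (z - w)‖ :=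
          norm_inner_le_norm _ _
      _ ≤ ‖z'‖ * (‖φ‖ * ‖z - w‖) := by gcongr; exact hamp _ _
      _ = ‖z'‖ * ‖z - w‖ * ‖φ‖ := by ring
  · rintro z w ⟨x, hx⟩ ⟨y, hy⟩
    refine ⟨x + y, fun φ => ?_⟩
    rw [map_add, map_add, inner_add_right, hx, hy]
  · intro a b
    refine HT.induction (p := fun z' => ∃ x : SubT (Cs r), ∀ φ : DualT (Cs r),
      φ x = ⟪z', ampL (slice r φ) (tm a b)⟫_ℂ) z' ?_ ?_ ?_
    · refine r2_closed r (fun z' φ => ⟪z', ampL (slice r φ) (tm a b)⟫_ℂ) ‖(tm a b : HT H H)‖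
        (norm_nonneg _) ?_
      intro z w φ
      change ‖⟪z, ampL (slice r φ) (tm a b)⟫_ℂ - ⟪w, ampL (slice r φ) (tm a b)⟫_ℂ‖ ≤ _
      rw [← inner_sub_left]
      calc ‖⟪z - w, ampL (slice r φ) (tm a b)⟫_ℂ‖ ≤ ‖z - w‖ * ‖ampL (slice r φ) (tm a b)‖ :=
            norm_inner_le_norm _ _
        _ ≤ ‖z - w‖ * (‖φ‖ * ‖(tm a b : HT H H)‖) := by gcongr; exact hamp _ _
        _ = ‖(tm a b : HT H H)‖ * ‖z - w‖ * ‖φ‖ := by ring
    · rintro z w ⟨x, hx⟩ ⟨y, hy⟩
      refine ⟨x + y, fun φ => ?_⟩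
      rw [map_add, inner_add_left, hx, hy]
    · intro c d
      refine ⟨⟪d, b⟫_ℂ • toCs r c a, fun φ => ?_⟩
      rw [map_smul, ampL_tm, inner_tm_tm, inner_slice, smul_eq_mul, mul_comm]

theorem exists_r2R (r : H →L⋆[ℂ] H →L[ℂ] (H →L[ℂ] H)) (hr : ∀ u y, ‖r u y‖ ≤ ‖u‖ * ‖y‖)
    (z z' : HT H H) :
    ∃ x : SubT (Cs r), ∀ φ : DualT (Cs r), φ x = ⟪z', ampR (slice r φ) z⟫_ℂ := by
  obtain ⟨x, hx⟩ := exists_r2L r hr (swapT H H z) (swapT H H z')
  refine ⟨x, fun φ => ?_⟩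
  rw [hx φ]
  have h1 : ampL (slice r φ) (swapT H H z) = swapT H H (ampR (slice r φ) z) := by
    refine HT.induction (p := fun z => ampL (slice r φ) (swapT H H z)
      = swapT H H (ampR (slice r φ) z)) z ?_ ?_ ?_
    · exact isClosed_eq ((ContinuousLinearMap.continuous _).comp (swapT H H).continuous)
        ((swapT H H).continuous.comp (ContinuousLinearMap.continuous _))
    · intro z w hz hw
      rw [map_add, map_add, map_add, map_add, hz, hw]
    · intro a b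
      rw [swapT_tm, ampL_tm, ampR_tm, swapT_tm]
  rw [h1, LinearIsometryEquiv.inner_map_map]

end LCQG
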