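import Mathlib
import Pool.Agent.Lib.MP_ea3264_an.Pent
import Pool.Agent.Lib.MP_ea3264_an.R2

/-!
# `C₀(𝔾)` and `C₀(𝔾̂)` are algebras and the counits are multiplicative

`rho_mul`: take the `x` of `exists_r2L (rhoS W)` for `z = W.symm (tm y y')`,
`z' = W.symm (tm u u')`. Its value at `φ = vecF (C0 W) ξ η` is, by `lamM_vecF`,
`⟪z', ampL (lam W ξ η) z⟫ = ⟪η, rho W y u (rho W y' u' ξ)⟫` (`inner_rho_rho`), so
`SubT.val x = rho W y u * rho W y' u'`. If `lamM W ε = 1` then `ampL 1 = 1` and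
`ε x = ⟪z', z⟫ = ⟪tm u u', tm y y'⟫ = ⟪u, y⟫ * ⟪u', y'⟫ = ε (toCs u y) * ε (toCs u' y')`
(`inner_lamM`).
`lam_mul`: the same with `exists_r2R (lamS W)`, `z = W (tm ξ ξ')`, `z' = W (tm η η')`, the
functionals `vecF (C0h W) y u`, `rhoM_vecF` and `inner_lam_lam`.
The four theorems then follow by two applications of `Cs_induction` (first in one factor, then in
the other one): `C0_mul` for the closed property `a * b ∈ C0 W`; `eps_mul` for the property
`∀ z, z = x * y → ε z = ε x * ε y`, where one may first use `C0_mul` to define the product in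
`SubT (C0 W)`.
-/

set_option autoImplicit false
set_option linter.unusedSectionVars false

open scoped TensorProduct InnerProductSpace ComplexConjugate Topology
open ContinuousLinearMap Filter

noncomputable section

namespace LCQG

variable {H : Type*} [NormedAddCommGroup H] [InnerProductSpace ℂ H] [CompleteSpace H]
variable {W : HT H H ≃ₗᵢ[ℂ] HT H H}

private theorem mul_ampL_one (z : HT H H) : ampL (F := H) (1 : H →L[ℂ] H) z = z := by
  have h : ampL (F := H) (1 : H →L[ℂ] H) = ContinuousLinearMap.id ℂ (HT H H) :=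
    HT.ext_clm fun x y => by simp
  rw [h]
  rfl

private theorem mul_ampR_one (z : HT H H) : ampR (E := H) (1 : H →L[ℂ] H) z = z := by
  have h : ampR (E := H) (1 : H →L[ℂ] H) = ContinuousLinearMap.id ℂ (HT H H) :=
    HT.ext_clm fun x y => by simp
  rw [h]
  rfl

/-- the property from which everything follows by continuity -/
private def MulP (r : H →L⋆[ℂ] H →L[ℂ] (H →L[ℂ] H)) : Prop :=
  ∀ u y u' y' : H, ∃ x : SubT (Cs r), SubT.val (Cs r) x = r u y * r u' y' ∧
    ∀ ε : DualT (Cs r), slice r ε = 1 → ε x = ⟪u, y⟫_ℂ * ⟪u', y'⟫_ℂ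

private theorem mul_closed (r : H →L⋆[ℂ] H →L[ℂ] (H →L[ℂ] H)) :
    IsClosed ((Cs r : Submodule ℂ (H →L[ℂ] H)) : Set (H →L[ℂ] H)) := by
  unfold Cs
  exact Submodule.isClosed_topologicalClosure _

private theorem mul_mem {r : H →L⋆[ℂ] H →L[ℂ] (H →L[ℂ] H)} (hr : MulP r) (x y : SubT (Cs r)) :
    SubT.val (Cs r) x * SubT.val (Cs r) y ∈ Cs r := by
  refine Cs_induction r (p := fun x => SubT.val (Cs r) x * SubT.val (Cs r) y ∈ Cs r) x
    ?_ ?_ ?_ ?_ ?_
  · exact (mul_closed r).preimage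
      ((SubT.val (Cs r)).continuous.mul continuous_const)
  · rw [map_zero, zero_mul]
    exact Submodule.zero_mem _
  · intro x x' hx hx'
    rw [map_add, add_mul]
    exact Submodule.add_mem _ hx hx'
  · intro c x hx
    rw [map_smul, smul_mul_assoc]
    exact Submodule.smul_mem _ c hx
  · intro u v
    refine Cs_induction r (p := fun y => SubT.val (Cs r) (toCs r u v) * SubT.val (Cs r) y ∈ Cs r)
      y ?_ ?_ ?_ ?_ ?_
    · exact (mul_closed r).preimage
        (continuous_const.mul (SubT.val (Cs r)).continuous)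
    · rw [map_zero, mul_zero]
      exact Submodule.zero_mem _
    · intro x x' hx hx'
      rw [map_add, mul_add]
      exact Submodule.add_mem _ hx hx'
    · intro c x hx
      rw [map_smul, mul_smul_comm]
      exact Submodule.smul_mem _ c hx
    · intro u' v'
      obtain ⟨z, hz, -⟩ := hr u v u' v'
      rw [val_toCs, val_toCs, ← hz]
      exact SubT.val_mem _ z

private theorem mul_eps {r : H →L⋆[ℂ] H →L[ℂ] (H →L[ℂ] H)} (hr : MulP r) {ε : DualT (Cs r)}
    (hε : slice r ε = 1) (x y z : SubT (Cs r))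
    (hz : SubT.val (Cs r) z = SubT.val (Cs r) x * SubT.val (Cs r) y) : ε z = ε x * ε y := by
  set m : SubT (Cs r) → SubT (Cs r) → SubT (Cs r) := fun x y =>
    SubT.mk (Cs r) (SubT.val (Cs r) x * SubT.val (Cs r) y) (mul_mem hr x y) with hm
  have hmv : ∀ x y, SubT.val (Cs r) (m x y) = SubT.val (Cs r) x * SubT.val (Cs r) y :=
    fun x y => rfl
  have hzm : z = m x y := SubT.ext _ (by rw [hz, hmv])
  have hmc1 : ∀ y, Continuous fun x => m x y := by
    intro y
    rw [(SubT.val (Cs r)).isometry.isEmbedding.continuous_iff]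
    exact (SubT.val (Cs r)).continuous.mul continuous_const
  have hmc2 : ∀ x, Continuous fun y => m x y := by
    intro x
    rw [(SubT.val (Cs r)).isometry.isEmbedding.continuous_iff]
    exact continuous_const.mul (SubT.val (Cs r)).continuous
  have hbase : ∀ u v, ε (toCs r u v) = ⟪u, v⟫_ℂ := by
    intro u v
    rw [← inner_slice, hε]
    rfl
  rw [hzm]
  refine Cs_induction r (p := fun x => ε (m x y) = ε x * ε y) x ?_ ?_ ?_ ?_ ?_
  · exact isClosed_eq (ε.continuous.comp (hmc1 y)) (ε.continuous.mul continuous_const)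
  · have h0 : m 0 y = 0 := SubT.ext _ (by rw [hmv, map_zero, zero_mul])
    rw [h0, map_zero, zero_mul]
  · intro x x' hx hx'
    have h0 : m (x + x') y = m x y + m x' y :=
      SubT.ext _ (by rw [hmv, map_add, map_add, add_mul, hmv, hmv])
    rw [h0, map_add, map_add, hx, hx', add_mul]
  · intro c x hx
    have h0 : m (c • x) y = c • m x y :=
      SubT.ext _ (by rw [hmv, map_smul, map_smul, smul_mul_assoc, hmv])
    rw [h0, map_smul, map_smul, hx, smul_eq_mul, smul_eq_mul, mul_assoc]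
  · intro u v
    refine Cs_induction r (p := fun y => ε (m (toCs r u v) y) = ε (toCs r u v) * ε y) y
      ?_ ?_ ?_ ?_ ?_
    · exact isClosed_eq (ε.continuous.comp (hmc2 _)) (continuous_const.mul ε.continuous)
    · have h0 : m (toCs r u v) 0 = 0 := SubT.ext _ (by rw [hmv, map_zero, mul_zero])
      rw [h0, map_zero, mul_zero]
    · intro x x' hx hx'
      have h0 : m (toCs r u v) (x + x') = m (toCs r u v) x + m (toCs r u v) x' :=
        SubT.ext _ (by rw [hmv, map_add, map_add, mul_add, hmv, hmv])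
      rw [h0, map_add, map_add, hx, hx', mul_add]
    · intro c x hx
      have h0 : m (toCs r u v) (c • x) = c • m (toCs r u v) x :=
        SubT.ext _ (by rw [hmv, map_smul, map_smul, mul_smul_comm, hmv])
      rw [h0, map_smul, map_smul, hx, smul_eq_mul, smul_eq_mul, mul_left_comm]
    · intro u' v'
      obtain ⟨w, hw, hw'⟩ := hr u v u' v'
      have h0 : m (toCs r u v) (toCs r u' v') = w :=
        SubT.ext _ (by rw [hmv, val_toCs, val_toCs, hw])
      rw [h0, hw' ε hε, hbase, hbase]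

theorem rho_mul (hW : Pentagon W) (y u y' u' : H) :
    ∃ x : SubT (C0 W), SubT.val (C0 W) x = rho W y u * rho W y' u' ∧
      ∀ ε : DualT (C0 W), lamM W ε = 1 → ε x = ⟪u, y⟫_ℂ * ⟪u', y'⟫_ℂ := by
  obtain ⟨x, hx⟩ := exists_r2L (rhoS W) (norm_rhoS_le W) (W.symm (tm y y')) (W.symm (tm u u'))
  refine ⟨x, ?_, fun ε hε => ?_⟩
  · refine op_ext_inner fun η ξ => ?_
    have h1 := hx (vecF (C0 W) ξ η)
    rw [vecF_apply] at h1
    refine h1.trans ?_
    have h2 : slice (rhoS W) (vecF (C0 W) ξ η) = lam W ξ η := lamM_vecF W ξ η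
    rw [h2, ← inner_rho_rho hW]
    rfl
  · have h1 := hx ε
    have h2 : slice (rhoS W) ε = 1 := hε
    rw [h2, mul_ampL_one, LinearIsometryEquiv.inner_map_map, inner_tm_tm] at h1
    exact h1

theorem lam_mul (hW : Pentagon W) (ξ η ξ' η' : H) :
    ∃ x : SubT (C0h W), SubT.val (C0h W) x = lam W ξ η * lam W ξ' η' ∧
      ∀ ε : DualT (C0h W), rhoM W ε = 1 → ε x = ⟪η, ξ⟫_ℂ * ⟪η', ξ'⟫_ℂ := by
  obtain ⟨x, hx⟩ := exists_r2R (lamS W) (norm_lamS_le W) (W (tm ξ ξ')) (W (tm η η'))
  refine ⟨x, ?_, fun ε hε => ?_⟩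
  · refine op_ext_inner fun u y => ?_
    have h1 := hx (vecF (C0h W) y u)
    rw [vecF_apply] at h1
    refine h1.trans ?_
    have h2 : slice (lamS W) (vecF (C0h W) y u) = rho W y u := rhoM_vecF W y u
    rw [h2, ← inner_lam_lam hW]
    rfl
  · have h1 := hx ε
    have h2 : slice (lamS W) ε = 1 := hε
    rw [h2, mul_ampR_one, LinearIsometryEquiv.inner_map_map, inner_tm_tm] at h1
    exact h1

private theorem rho_mulP (hW : Pentagon W) : MulP (rhoS W) := by
  intro u y u' y'
  obtain ⟨x, h1, h2⟩ := rho_mul hW y u y' u'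
  exact ⟨x, h1, h2⟩

private theorem lam_mulP (hW : Pentagon W) : MulP (lamS W) := by
  intro u y u' y'
  obtain ⟨x, h1, h2⟩ := lam_mul hW y u y' u'
  exact ⟨x, h1, h2⟩

theorem C0_mul (hW : Pentagon W) {a b : H →L[ℂ] H} (ha : a ∈ C0 W) (hb : b ∈ C0 W) :
    a * b ∈ C0 W := by
  exact mul_mem (rho_mulP hW) (SubT.mk (C0 W) a ha) (SubT.mk (C0 W) b hb)

theorem C0h_mul (hW : Pentagon W) {a b : H →L[ℂ] H} (ha : a ∈ C0h W) (hb : b ∈ C0h W) :
    a * b ∈ C0h W := by
  exact mul_mem (lam_mulP hW) (SubT.mk (C0h W) a ha) (SubT.mk (C0h W) b hb)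

theorem eps_mul (hW : Pentagon W) {ε : DualT (C0 W)} (hε : lamM W ε = 1)
    (x y z : SubT (C0 W))
    (hz : SubT.val (C0 W) z = SubT.val (C0 W) x * SubT.val (C0 W) y) : ε z = ε x * ε y := by
  exact mul_eps (rho_mulP hW) hε x y z hz

theorem epsh_mul (hW : Pentagon W) {ε : DualT (C0h W)} (hε : rhoM W ε = 1)
    (x y z : SubT (C0h W))
    (hz : SubT.val (C0h W) z = SubT.val (C0h W) x * SubT.val (C0h W) y) : ε z = ε x * ε y := by
  exact mul_eps (lam_mulP hW) hε x y z hz

end LCQG
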