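import Mathlib
import Pool.Agent.Lib.MP_ea3264_an.Mul
import Pool.Agent.Lib.MP_ea3264_an.Char
import Pool.Agent.Lib.MP_ea3264_an.HB

/-!
# Approximately invariant vectors

`app_left`. `ε` is a character (`C0_mul`, `eps_mul`), so `char_re_le` and `exists_vectors` apply to
`A = C0 W`, `χ = ε`. Choose a unit vector `e` and apply `exists_vectors` to the elements
`toCs (rhoS W) (y k) (y k)` and `toCs (rhoS W) e e` with a small `δ'`. We have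
`ε (toCs (rhoS W) y y) = ⟪y, y⟫ = ‖y‖²` (`inner_lamM`) and
`⟪v, rho W y y v⟫ = ⟪tm v y, W (tm v y)⟫` (`inner_rho`). So, with `s = ∑ j, ‖v j‖² ≤ 1`:
`‖ ‖y k‖² - ∑ j, ⟪tm (v j) (y k), W (tm (v j) (y k))⟫ ‖ ≤ δ'` and the same for `e`; the latter and
`‖⟪tm v e, W (tm v e)⟫‖ ≤ ‖v‖²` give `s ≥ 1 - δ'`. Hence
`∑ j, ‖W (tm (v j) (y k)) - tm (v j) (y k)‖² = 2 s ‖y k‖² - 2 Re ∑ j, ⟪tm (v j) (y k), W (...)⟫
≤ 2 ‖y k‖² - 2 (‖y k‖² - δ') = 2 δ'`. Finally replace `v j` by `v j / √s`: the sums are divided by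
`s ≥ 1 - δ' ≥ 1/2`, so they are `≤ 4 δ' ≤ δ`.

`app_right`: the same with `C0h W`, `C0h_mul`, `epsh_mul`, `toCs (lamS W) (y k) (y k)`,
`inner_rhoM`, `inner_lam`.
-/

set_option autoImplicit false
set_option linter.unusedSectionVars false

open scoped TensorProduct InnerProductSpace ComplexConjugate Topology
open ContinuousLinearMap Filter

noncomputable section

namespace LCQG

variable {H : Type*} [NormedAddCommGroup H] [InnerProductSpace ℂ H] [CompleteSpace H]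
variable {W : HT H H ≃ₗᵢ[ℂ] HT H H}

private theorem AppInv_core (W : HT H H ≃ₗᵢ[ℂ] HT H H) (T : H → H → HT H H)
    (hTs : ∀ (c : ℂ) v y, T (c • v) y = c • T v y) (hTn : ∀ v y, ‖T v y‖ = ‖v‖ * ‖y‖)
    (n : ℕ) (y : Fin n → H) {δ : ℝ} (hδ : 0 < δ) (e : H) (he : ‖e‖ = 1)
    (hv : ∀ δ' : ℝ, 0 < δ' → ∃ (m : ℕ) (v : Fin m → H), ∑ j, ‖v j‖ ^ 2 ≤ 1 ∧
      ‖(1 : ℂ) - ∑ j, ⟪T (v j) e, W (T (v j) e)⟫_ℂ‖ ≤ δ' ∧
      ∀ k, ‖((‖y k‖ ^ 2 : ℝ) : ℂ) - ∑ j, ⟪T (v j) (y k), W (T (v j) (y k))⟫_ℂ‖ ≤ δ') :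
    ∃ (m : ℕ) (v : Fin m → H), ∑ j, ‖v j‖ ^ 2 = 1 ∧
      ∀ k, ∑ j, ‖W (T (v j) (y k)) - T (v j) (y k)‖ ^ 2 ≤ δ := by
  obtain ⟨m, v, hs1, hve, hvk⟩ := hv (min (1 / 2) (δ / 4)) (lt_min (by norm_num) (by linarith))
  set δ' : ℝ := min (1 / 2) (δ / 4) with hδ'
  have hd1 : δ' ≤ 1 / 2 := min_le_left _ _
  have hd2 : δ' ≤ δ / 4 := min_le_right _ _
  set s : ℝ := ∑ j, ‖v j‖ ^ 2 with hs
  have hs2 : 1 / 2 ≤ s := by
    have h1 : ‖∑ j, ⟪T (v j) e, W (T (v j) e)⟫_ℂ‖ ≤ s := by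
      refine (norm_sum_le _ _).trans ?_
      rw [hs]
      apply Finset.sum_le_sum
      intro j _
      refine (norm_inner_le_norm _ _).trans ?_
      rw [LinearIsometryEquiv.norm_map, hTn, he]
      apply le_of_eq; ring
    have h2 : ‖(1 : ℂ)‖ ≤ ‖(1 : ℂ) - ∑ j, ⟪T (v j) e, W (T (v j) e)⟫_ℂ‖ +
        ‖∑ j, ⟪T (v j) e, W (T (v j) e)⟫_ℂ‖ := by
      have := norm_add_le ((1 : ℂ) - ∑ j, ⟪T (v j) e, W (T (v j) e)⟫_ℂ)
        (∑ j, ⟪T (v j) e, W (T (v j) e)⟫_ℂ)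
      simpa using this
    rw [norm_one] at h2
    linarith
  have hs0 : 0 < s := by linarith
  have hsq : 0 < Real.sqrt s := Real.sqrt_pos.mpr hs0
  set c : ℂ := (((Real.sqrt s)⁻¹ : ℝ) : ℂ) with hc
  have hcn : ‖c‖ ^ 2 = s⁻¹ := by
    rw [hc, Complex.norm_real, Real.norm_of_nonneg (by positivity), inv_pow, Real.sq_sqrt hs0.le]
  refine ⟨m, fun j => c • v j, ?_, ?_⟩
  · have : ∀ j, ‖c • v j‖ ^ 2 = s⁻¹ * ‖v j‖ ^ 2 := by
      intro j; rw [norm_smul, mul_pow, hcn]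
    rw [Finset.sum_congr rfl fun j _ => this j, ← Finset.mul_sum, ← hs]
    exact inv_mul_cancel₀ hs0.ne'
  · intro k
    have h1 : ∀ j, ‖W (T (c • v j) (y k)) - T (c • v j) (y k)‖ ^ 2 =
        s⁻¹ * (2 * (‖v j‖ ^ 2 * ‖y k‖ ^ 2) -
          2 * (⟪T (v j) (y k), W (T (v j) (y k))⟫_ℂ).re) := by
      intro j
      rw [hTs, map_smul, ← smul_sub, norm_smul, mul_pow, hcn]
      congr 1
      rw [@norm_sub_sq ℂ, LinearIsometryEquiv.norm_map, hTn]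
      have h2 : RCLike.re ⟪W (T (v j) (y k)), T (v j) (y k)⟫_ℂ =
          (⟪T (v j) (y k), W (T (v j) (y k))⟫_ℂ).re := by
        exact inner_re_symm (𝕜 := ℂ) _ _
      rw [h2]
      ring
    rw [Finset.sum_congr rfl fun j _ => h1 j, ← Finset.mul_sum, Finset.sum_sub_distrib,
      ← Finset.mul_sum, ← Finset.mul_sum, ← Finset.sum_mul, ← hs]
    have h3 : ‖y k‖ ^ 2 - δ' ≤ ∑ j, (⟪T (v j) (y k), W (T (v j) (y k))⟫_ℂ).re := by
      have h4 := (Complex.abs_re_le_norm _).trans (hvk k)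
      rw [Complex.sub_re, Complex.ofReal_re, Complex.re_sum] at h4
      have := (abs_le.mp h4).2
      linarith
    have h5 : s * ‖y k‖ ^ 2 ≤ ‖y k‖ ^ 2 := by
      have : 0 ≤ ‖y k‖ ^ 2 := by positivity
      nlinarith
    have h6 : s⁻¹ ≤ 2 := by
      rw [inv_le_comm₀ hs0 (by norm_num)]; linarith
    have h7 : 0 < s⁻¹ := by positivity
    have h8 : 2 * (s * ‖y k‖ ^ 2) - 2 * ∑ j, (⟪T (v j) (y k), W (T (v j) (y k))⟫_ℂ).re ≤ 2 * δ' := by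
      linarith
    have hd0 : 0 < δ' := lt_min (by norm_num) (by linarith)
    calc s⁻¹ * (2 * (s * ‖y k‖ ^ 2) - 2 * ∑ j, (⟪T (v j) (y k), W (T (v j) (y k))⟫_ℂ).re)
        ≤ s⁻¹ * (2 * δ') := mul_le_mul_of_nonneg_left h8 h7.le
      _ ≤ 2 * (2 * δ') := mul_le_mul_of_nonneg_right h6 (by linarith)
      _ ≤ δ := by linarith

theorem app_left [Nontrivial H] (hW : Pentagon W) {ε : DualT (C0 W)} (hε : lamM W ε = 1)
    (n : ℕ) (y : Fin n → H) {δ : ℝ} (hδ : 0 < δ) :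
    ∃ (m : ℕ) (v : Fin m → H), ∑ j, ‖v j‖ ^ 2 = 1 ∧
      ∀ k, ∑ j, ‖W (tm (v j) (y k)) - tm (v j) (y k)‖ ^ 2 ≤ δ := by
  obtain ⟨e, he⟩ := exists_norm_eq H (zero_le_one : (0 : ℝ) ≤ 1)
  refine AppInv_core W (fun v y => tm v y) (fun c v y => tm_smul_left c v y)
    (fun v y => norm_tm v y) n y hδ e he ?_
  intro δ' hδ'
  obtain ⟨m, v, h1, h2⟩ := exists_vectors (C0 W) ε
    (fun x m hm hx => char_re_le (C0 W) (fun a ha b hb => C0_mul hW ha hb) ε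
      (eps_mul hW hε) x hm hx) (n + 1)
    (Fin.cons (toCs (rhoS W) e e) (fun k => toCs (rhoS W) (y k) (y k))) hδ'
  have key : ∀ u : H, ε (toCs (rhoS W) u u) = ((‖u‖ ^ 2 : ℝ) : ℂ) := by
    intro u
    rw [← inner_lamM, hε]
    change ⟪u, u⟫_ℂ = _
    rw [inner_self_eq_norm_sq_to_K]
    push_cast
    rfl
  have key2 : ∀ u w : H, ⟪w, (SubT.val (C0 W) (toCs (rhoS W) u u)) w⟫_ℂ =
      ⟪tm w u, W (tm w u)⟫_ℂ := by
    intro u w
    rw [val_toCs, rhoS_apply, inner_rho]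
  refine ⟨m, v, h1, ?_, fun k => ?_⟩
  · have := h2 0
    rw [Fin.cons_zero, key, he] at this
    simp only [key2] at this
    simpa using this
  · have := h2 k.succ
    rw [Fin.cons_succ, key] at this
    simp only [key2] at this
    exact this

theorem app_right [Nontrivial H] (hW : Pentagon W) {ε : DualT (C0h W)} (hε : rhoM W ε = 1)
    (n : ℕ) (y : Fin n → H) {δ : ℝ} (hδ : 0 < δ) :
    ∃ (m : ℕ) (v : Fin m → H), ∑ j, ‖v j‖ ^ 2 = 1 ∧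
      ∀ k, ∑ j, ‖W (tm (y k) (v j)) - tm (y k) (v j)‖ ^ 2 ≤ δ := by
  obtain ⟨e, he⟩ := exists_norm_eq H (zero_le_one : (0 : ℝ) ≤ 1)
  refine AppInv_core W (fun v y => tm y v) (fun c v y => tm_smul_right c y v)
    (fun v y => by rw [norm_tm, mul_comm]) n y hδ e he ?_
  intro δ' hδ'
  obtain ⟨m, v, h1, h2⟩ := exists_vectors (C0h W) ε
    (fun x m hm hx => char_re_le (C0h W) (fun a ha b hb => C0h_mul hW ha hb) ε
      (epsh_mul hW hε) x hm hx) (n + 1)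
    (Fin.cons (toCs (lamS W) e e) (fun k => toCs (lamS W) (y k) (y k))) hδ'
  have key : ∀ u : H, ε (toCs (lamS W) u u) = ((‖u‖ ^ 2 : ℝ) : ℂ) := by
    intro u
    rw [← inner_rhoM, hε]
    change ⟪u, u⟫_ℂ = _
    rw [inner_self_eq_norm_sq_to_K]
    push_cast
    rfl
  have key2 : ∀ u w : H, ⟪w, (SubT.val (C0h W) (toCs (lamS W) u u)) w⟫_ℂ =
      ⟪tm u w, W (tm u w)⟫_ℂ := by
    intro u w
    rw [val_toCs, lamS_apply, inner_lam]
  refine ⟨m, v, h1, ?_, fun k => ?_⟩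
  · have := h2 0
    rw [Fin.cons_zero, key, he] at this
    simp only [key2] at this
    simpa using this
  · have := h2 k.succ
    rw [Fin.cons_succ, key] at this
    simp only [key2] at this
    exact this

end LCQG
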