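import Mathlib
import Pool.Agent.Lib.MP_ea3264_an.Api

/-!
# Functionals on closed spans; the units of `C₀(𝔾)^*` and `C₀(𝔾̂)^*`

`exists_functional`. On the algebraic span `S ⊆ SubT (Cs r)` of the elements `toCs r u y` there is
a linear functional `f` with `f (∑ toCs r (u k) (y k)) = ∑ ⟪u k, T (y k)⟫`, well defined and
bounded by `C` by the hypothesis; extend it to the closure (`LinearMap.extendOfNorm` /
`ContinuousLinearMap.extend`, or Hahn-Banach `exists_extension_norm_eq`; one may also start from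
`(H × H) →₀ ℂ` and use `LinearMap.extendOfNorm` with the dense map
`e : ((H × H) →₀ ℂ) →ₗ[ℂ] SubT (Cs r)`, `e (δ_{(u,y)}) = toCs r u y`). Then `slice r φ = T` by
`inner_slice`.

`dense_lam`: a vector `u` orthogonal to all `lam W ξ η y` satisfies `⟪tm η u, W (tm ξ y)⟫ = 0` for
all `ξ η y`; as `W` is onto and the elementary tensors are total, `tm η u = 0` for all `η`, so
`u = 0` (take `η = u`). `dense_rho`: the same.

`coAm_iff`: (→) `lamM ε * lam W ξ η = lam W ξ η` (`lamM_vecF`), so `lamM ε = 1` on the dense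
subspace of `dense_lam`. (←) is trivial. `coAmDual_iff`: the same with `rhoM_vecF`, `dense_rho`.
-/

set_option autoImplicit false
set_option linter.unusedSectionVars false

open scoped TensorProduct InnerProductSpace ComplexConjugate Topology
open ContinuousLinearMap Filter

noncomputable section

namespace LCQG

variable {H : Type*} [NormedAddCommGroup H] [InnerProductSpace ℂ H] [CompleteSpace H]

private def eMap (r : H →L⋆[ℂ] H →L[ℂ] (H →L[ℂ] H)) : ((H × H) →₀ ℂ) →ₗ[ℂ] SubT (Cs r) :=
  Finsupp.linearCombination ℂ fun p : H × H => toCs r p.1 p.2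

private def fMap (T : H →L[ℂ] H) : ((H × H) →₀ ℂ) →ₗ[ℂ] ℂ :=
  Finsupp.linearCombination ℂ fun p : H × H => ⟪p.1, T p.2⟫_ℂ

private theorem fMap_bound (r : H →L⋆[ℂ] H →L[ℂ] (H →L[ℂ] H)) {C : ℝ}
    (T : H →L[ℂ] H)
    (h : ∀ (n : ℕ) (u y : Fin n → H), ‖∑ k, ⟪u k, T (y k)⟫_ℂ‖ ≤ C * ‖∑ k, r (u k) (y k)‖)
    (x : (H × H) →₀ ℂ) : ‖fMap T x‖ ≤ C * ‖eMap r x‖ := by
  have key := h x.support.card (fun k => (x.support.equivFin.symm k : H × H).1)
    (fun k => x (x.support.equivFin.symm k : H × H) • (x.support.equivFin.symm k : H × H).2)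
  have h1 : fMap T x = ∑ k : Fin x.support.card, ⟪(x.support.equivFin.symm k : H × H).1,
      T (x (x.support.equivFin.symm k : H × H) • (x.support.equivFin.symm k : H × H).2)⟫_ℂ := by
    rw [Equiv.sum_comp x.support.equivFin.symm
      (fun p : x.support => ⟪(p : H × H).1, T (x (p : H × H) • (p : H × H).2)⟫_ℂ)]
    rw [Finset.sum_coe_sort x.support
      (fun p : H × H => ⟪p.1, T (x p • p.2)⟫_ℂ)]
    rw [fMap, Finsupp.linearCombination_apply, Finsupp.sum]
    refine Finset.sum_congr rfl fun p _ => ?_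
    rw [map_smul, inner_smul_right, smul_eq_mul]
  have h2 : SubT.val (Cs r) (eMap r x) = ∑ k : Fin x.support.card,
      r (x.support.equivFin.symm k : H × H).1
        (x (x.support.equivFin.symm k : H × H) • (x.support.equivFin.symm k : H × H).2) := by
    rw [Equiv.sum_comp x.support.equivFin.symm
      (fun p : x.support => r (p : H × H).1 (x (p : H × H) • (p : H × H).2))]
    rw [Finset.sum_coe_sort x.support
      (fun p : H × H => r p.1 (x p • p.2))]
    rw [eMap, Finsupp.linearCombination_apply, Finsupp.sum, map_sum]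
    refine Finset.sum_congr rfl fun p _ => ?_
    rw [map_smul, val_toCs, map_smul]
  rw [h1, ← SubT.norm_val, h2]
  exact key

private theorem eMap_dense (r : H →L⋆[ℂ] H →L[ℂ] (H →L[ℂ] H)) : DenseRange (eMap r) := by
  intro x
  have hmem : x ∈ (LinearMap.range (eMap r)).topologicalClosure := by
    refine Cs_induction r (p := fun x => x ∈ (LinearMap.range (eMap r)).topologicalClosure) x
      ?_ ?_ ?_ ?_ ?_
    · exact Submodule.isClosed_topologicalClosure _
    · exact Submodule.zero_mem _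
    · intro x y hx hy
      exact Submodule.add_mem _ hx hy
    · intro c x hx
      exact Submodule.smul_mem _ c hx
    · intro u y
      refine Submodule.le_topologicalClosure _ ⟨Finsupp.single (u, y) 1, ?_⟩
      rw [eMap, Finsupp.linearCombination_single, one_smul]
  rw [← SetLike.mem_coe, Submodule.topologicalClosure_coe, LinearMap.coe_range] at hmem
  exact hmem

theorem exists_functional (r : H →L⋆[ℂ] H →L[ℂ] (H →L[ℂ] H)) {C : ℝ} (hC : 0 ≤ C)
    (T : H →L[ℂ] H)
    (h : ∀ (n : ℕ) (u y : Fin n → H), ‖∑ k, ⟪u k, T (y k)⟫_ℂ‖ ≤ C * ‖∑ k, r (u k) (y k)‖) :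
    ∃ φ : DualT (Cs r), ‖φ‖ ≤ C ∧ slice r φ = T := by
  have hb := fMap_bound r T h
  have hd := eMap_dense r
  refine ⟨DualT.of _ ((fMap T).extendOfNorm (eMap r)), ?_, ?_⟩
  · refine DualT.opNorm_le_bound _ hC fun x => ?_
    exact LinearMap.norm_extendOfNorm_apply_le hd C hb x
  · refine op_ext_inner fun u y => ?_
    rw [inner_slice, DualT.of_apply]
    have h1 := LinearMap.extendOfNorm_eq (f := fMap T) (e := eMap r) hd ⟨C, hb⟩
      (Finsupp.single (u, y) 1)
    have h2 : eMap r (Finsupp.single (u, y) 1) = toCs r u y := by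
      rw [eMap, Finsupp.linearCombination_single, one_smul]
    have h3 : fMap T (Finsupp.single (u, y) 1) = ⟪u, T y⟫_ℂ := by
      rw [fMap, Finsupp.linearCombination_single, one_smul]
    rw [h2, h3] at h1
    exact h1

variable (W : HT H H ≃ₗᵢ[ℂ] HT H H)

/-- A vector orthogonal to `W (tm ξ y)` for all `ξ, y` is zero. -/
private theorem eq_zero_of_W (z : HT H H) (hz : ∀ ξ y : H, ⟪z, W (tm ξ y)⟫_ℂ = 0) : z = 0 := by
  have hall : ∀ w : HT H H, ⟪z, W w⟫_ℂ = 0 := by
    intro w
    refine HT.induction (p := fun w => ⟪z, W w⟫_ℂ = 0) w ?_ ?_ hz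
    · refine isClosed_eq ?_ continuous_const
      exact Continuous.inner continuous_const W.continuous
    · intro a b ha hb
      rw [map_add, inner_add_right, ha, hb, add_zero]
  have h1 := hall (W.symm z)
  rw [LinearIsometryEquiv.apply_symm_apply] at h1
  exact inner_self_eq_zero.1 h1

private theorem dense_of_orth (S : Submodule ℂ H)
    (h : ∀ u : H, (∀ v ∈ S, ⟪v, u⟫_ℂ = 0) → u = 0) : S.topologicalClosure = ⊤ := by
  rw [Submodule.topologicalClosure_eq_top_iff, Submodule.eq_bot_iff]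
  intro u hu
  exact h u fun v hv => (Submodule.mem_orthogonal S u).1 hu v hv

theorem dense_lam :
    (Submodule.span ℂ (Set.range fun p : H × H × H => lam W p.1 p.2.1 p.2.2)).topologicalClosure
      = ⊤ := by
  refine dense_of_orth _ fun u hu => ?_
  have hz : (tm u u : HT H H) = 0 := by
    refine eq_zero_of_W W _ fun ξ y => ?_
    rw [← inner_lam, ← inner_conj_symm, hu (lam W ξ u y)
      (Submodule.subset_span ⟨(ξ, u, y), rfl⟩), map_zero]
  have h2 := norm_tm u u
  rw [hz, norm_zero] at h2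
  have h3 : ‖u‖ = 0 := by
    rcases mul_eq_zero.1 h2.symm with h | h <;> exact h
  exact norm_eq_zero.1 h3

theorem dense_rho :
    (Submodule.span ℂ (Set.range fun p : H × H × H => rho W p.1 p.2.1 p.2.2)).topologicalClosure
      = ⊤ := by
  refine dense_of_orth _ fun u hu => ?_
  have hz : (tm u u : HT H H) = 0 := by
    refine eq_zero_of_W W _ fun ξ y => ?_
    rw [← inner_rho, ← inner_conj_symm, hu (rho W y u ξ)
      (Submodule.subset_span ⟨(y, u, ξ), rfl⟩), map_zero]
  have h2 := norm_tm u u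
  rw [hz, norm_zero] at h2
  have h3 : ‖u‖ = 0 := by
    rcases mul_eq_zero.1 h2.symm with h | h <;> exact h
  exact norm_eq_zero.1 h3

/-- An operator that fixes a total set is the identity. -/
private theorem eq_one_of_fix (a : H →L[ℂ] H) (F : H × H × H → H)
    (hd : (Submodule.span ℂ (Set.range F)).topologicalClosure = ⊤)
    (hF : ∀ p, a (F p) = F p) : a = 1 := by
  ext x
  have hx : x ∈ (Submodule.span ℂ (Set.range F)).topologicalClosure := by
    rw [hd]; exact Submodule.mem_top
  have hle : (Submodule.span ℂ (Set.range F)).topologicalClosure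
      ≤ LinearMap.eqLocus (a : H →ₗ[ℂ] H) ((1 : H →L[ℂ] H) : H →ₗ[ℂ] H) := by
    refine Submodule.topologicalClosure_minimal _ ?_ ?_
    · rw [Submodule.span_le]
      rintro _ ⟨p, rfl⟩
      exact hF p
    · exact isClosed_eq a.continuous (1 : H →L[ℂ] H).continuous
  exact hle hx

theorem coAm_iff : CoAm W ↔ ∃ ε : DualT (C0 W), lamM W ε = 1 := by
  constructor
  · rintro ⟨ε, hε⟩
    refine ⟨ε, eq_one_of_fix _ _ (dense_lam W) ?_⟩
    rintro ⟨ξ, η, y⟩
    have h1 := (hε (vecF (C0 W) ξ η)).1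
    rw [lamM_vecF] at h1
    have h2 := congrArg (fun b : H →L[ℂ] H => b y) h1
    exact h2
  · rintro ⟨ε, hε⟩
    refine ⟨ε, fun φ => ?_⟩
    rw [hε, one_mul, mul_one]
    exact ⟨rfl, rfl⟩

theorem coAmDual_iff : CoAmDual W ↔ ∃ ε : DualT (C0h W), rhoM W ε = 1 := by
  constructor
  · rintro ⟨ε, hε⟩
    refine ⟨ε, eq_one_of_fix _ _ (dense_rho W) ?_⟩
    rintro ⟨y, u, ξ⟩
    have h1 := (hε (vecF (C0h W) y u)).1
    rw [rhoM_vecF] at h1
    have h2 := congrArg (fun b : H →L[ℂ] H => b ξ) h1
    exact h2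
  · rintro ⟨ε, hε⟩
    refine ⟨ε, fun φ => ?_⟩
    rw [hε, one_mul, mul_one]
    exact ⟨rfl, rfl⟩

end LCQG
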