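import Mathlib
import Pool.Agent.Lib.MP_ea3264_an.Api

/-!
# Basic properties of the set of normal states

`St_convex`: the set inside the closure is convex (concatenate `√t • v` and `√(1-t) • v'` with
`Fin.append`; `vecF` is quadratic), and the closure of a convex set is convex.
`St_norm_le`: `‖∑ j, vecF (v j) (v j)‖ ≤ ∑ j, ‖v j‖ ^ 2 = 1` (`norm_vecF_le`).
`St_separable`: `St W` is contained in the closure of the linear span of the range of the
continuous map `(ξ, η) ↦ vecF (C0 W) ξ η` (`continuous_vecF`) on the separable space `H × H`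
(`TopologicalSpace.IsSeparable.span`, `.closure`, `.mono`, `isSeparable_range`).
-/

set_option autoImplicit false
set_option linter.unusedSectionVars false

open scoped TensorProduct InnerProductSpace ComplexConjugate Topology
open ContinuousLinearMap Filter

noncomputable section

namespace LCQG

variable {H : Type*} [NormedAddCommGroup H] [InnerProductSpace ℂ H] [CompleteSpace H]
variable (W : HT H H ≃ₗᵢ[ℂ] HT H H)

theorem mix_mem_St {n : ℕ} (v : Fin n → H) (hv : ∑ j, ‖v j‖ ^ 2 = 1) :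
    ∑ j, vecF (C0 W) (v j) (v j) ∈ St W :=
  subset_closure ⟨n, v, hv, rfl⟩

theorem vecF_mem_St {y : H} (hy : ‖y‖ = 1) : vecF (C0 W) y y ∈ St W := by
  have := mix_mem_St W (n := 1) (fun _ => y) (by simp [hy])
  simpa using this

theorem St_closed : IsClosed (St W) := isClosed_closure

private theorem StBasic_scale (A : Submodule ℂ (H →L[ℂ] H)) {a : ℝ} (ha : 0 ≤ a) (x : H) :
    vecF A (((√a : ℝ) : ℂ) • x) (((√a : ℝ) : ℂ) • x) = a • vecF A x x := by
  rw [vecF_smul_left, vecF_smul_right, smul_smul, Complex.conj_ofReal, ← Complex.ofReal_mul,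
    Real.mul_self_sqrt ha, Complex.coe_smul]

private theorem StBasic_norm {a : ℝ} (ha : 0 ≤ a) (x : H) :
    ‖((√a : ℝ) : ℂ) • x‖ ^ 2 = a * ‖x‖ ^ 2 := by
  rw [norm_smul, Complex.norm_real, Real.norm_eq_abs, abs_of_nonneg (Real.sqrt_nonneg a), mul_pow,
    Real.sq_sqrt ha]

theorem St_convex : Convex ℝ (St W) := by
  unfold St
  apply Convex.closure
  rintro φ ⟨n, v, hv, rfl⟩ ψ ⟨m, v', hv', rfl⟩ a b ha hb hab
  refine ⟨n + m, Fin.append (fun j => ((√a : ℝ) : ℂ) • v j) (fun j => ((√b : ℝ) : ℂ) • v' j), ?_, ?_⟩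
  · rw [Fin.sum_univ_add]
    simp only [Fin.append_left, Fin.append_right, StBasic_norm ha, StBasic_norm hb]
    rw [← Finset.mul_sum, ← Finset.mul_sum, hv, hv', mul_one, mul_one, hab]
  · rw [Fin.sum_univ_add]
    simp only [Fin.append_left, Fin.append_right, StBasic_scale _ ha, StBasic_scale _ hb]
    rw [Finset.smul_sum, Finset.smul_sum]

theorem St_norm_le {φ : DualT (C0 W)} (hφ : φ ∈ St W) : ‖φ‖ ≤ 1 := by
  have h1 : St W ⊆ {φ : DualT (C0 W) | ‖φ‖ ≤ 1} := by
    refine closure_minimal ?_ (isClosed_le continuous_norm continuous_const)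
    rintro φ ⟨n, v, hv, rfl⟩
    show ‖∑ j, vecF (C0 W) (v j) (v j)‖ ≤ 1
    refine (norm_sum_le _ _).trans ?_
    rw [← hv]
    refine Finset.sum_le_sum fun j _ => ?_
    rw [sq]
    exact norm_vecF_le _ _ _
  exact h1 hφ

theorem St_nonempty [Nontrivial H] : (St W).Nonempty := by
  obtain ⟨y, hy⟩ := exists_ne (0 : H)
  exact ⟨_, vecF_mem_St W (y := ((‖y‖⁻¹ : ℝ) : ℂ) • y) (by
    rw [norm_smul, Complex.norm_real, norm_inv, norm_norm, inv_mul_cancel₀ (norm_ne_zero_iff.mpr hy)])⟩

private theorem StBasic_sub : St W ⊆ closure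
    ((Submodule.span ℂ (Set.range fun p : H × H => vecF (C0 W) p.1 p.2) :
      Submodule ℂ (DualT (C0 W))) : Set (DualT (C0 W))) := by
  refine closure_mono ?_
  rintro φ ⟨n, v, hv, rfl⟩
  exact Submodule.sum_mem _ fun j _ => Submodule.subset_span ⟨(v j, v j), rfl⟩

theorem St_separable [TopologicalSpace.SeparableSpace H] :
    TopologicalSpace.IsSeparable (St W) := by
  refine TopologicalSpace.IsSeparable.mono ?_ (StBasic_sub W)
  refine TopologicalSpace.IsSeparable.closure ?_
  refine TopologicalSpace.IsSeparable.span ?_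
  exact TopologicalSpace.isSeparable_range (continuous_vecF (C0 W))

theorem St_subset_L1 {φ : DualT (C0 W)} (hφ : φ ∈ St W) : φ ∈ L1 W := by
  unfold L1
  rw [← SetLike.mem_coe, Submodule.topologicalClosure_coe]
  exact StBasic_sub W hφ

/-- Approximation of states by finite sums of vector functionals. -/
theorem St_approx {φ : DualT (C0 W)} (hφ : φ ∈ St W) {δ : ℝ} (hδ : 0 < δ) :
    ∃ (n : ℕ) (v : Fin n → H), ∑ j, ‖v j‖ ^ 2 = 1 ∧
      ‖φ - ∑ j, vecF (C0 W) (v j) (v j)‖ ≤ δ := by
  unfold St at hφ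
  rw [Metric.mem_closure_iff] at hφ
  obtain ⟨ψ, ⟨n, v, hv, rfl⟩, h⟩ := hφ δ hδ
  refine ⟨n, v, hv, ?_⟩
  rw [dist_eq_norm] at h
  exact h.le

end LCQG
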