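import Mathlib
import Pool.Agent.Lib.MP_ea3264_an.Pent

/-!
# The slices `(id ⊗ ω_{ξ',η'}) Δ`

`exists_convR`: the map `a ↦ (insR η')† ∘ W† ∘ ampR a ∘ W ∘ insR ξ'` is a bounded linear map
`B(H) → B(H)` (`ampR` is linear in `a` and `norm_ampR_le`); it satisfies
`⟪η, (R a) ξ⟫ = ⟪W (tm η η'), ampR a (W (tm ξ ξ'))⟫`. By `inner_lam_lam` it maps `rho W y u` to
`rho W (lam W ξ' η' y) u` (`⟪u, lam W ξ η (lam W ξ' η' y)⟫ = ⟪η, rho W (lam W ξ' η' y) u ξ⟫` by
`inner_lam`, `inner_rho`). By `Cs_induction` it maps `C0 W` to itself (`Cs` is closed).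
The norm bound follows from the coefficient formula.
-/

set_option autoImplicit false
set_option linter.unusedSectionVars false

open scoped TensorProduct InnerProductSpace ComplexConjugate Topology
open ContinuousLinearMap Filter

noncomputable section

namespace LCQG

variable {H : Type*} [NormedAddCommGroup H] [InnerProductSpace ℂ H] [CompleteSpace H]
variable {W : HT H H ≃ₗᵢ[ℂ] HT H H}

omit [CompleteSpace H] in
private theorem convR_ampR_add (a b : H →L[ℂ] H) :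
    (ampR (a + b) : HT H H →L[ℂ] HT H H) = ampR a + ampR b := by
  refine HT.ext_clm fun x y => ?_
  rw [ContinuousLinearMap.add_apply, ampR_tm, ampR_tm, ampR_tm, ContinuousLinearMap.add_apply,
    tm_add_right]

omit [CompleteSpace H] in
private theorem convR_ampR_smul (c : ℂ) (a : H →L[ℂ] H) :
    (ampR (c • a) : HT H H →L[ℂ] HT H H) = c • ampR a := by
  refine HT.ext_clm fun x y => ?_
  rw [ContinuousLinearMap.smul_apply, ampR_tm, ampR_tm, ContinuousLinearMap.smul_apply,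
    tm_smul_right]

/-- the operator `(id ⊗ ω_{ξ',η'})(W† (1 ⊗ a) W)` -/
private def convRop (W : HT H H ≃ₗᵢ[ℂ] HT H H) (ξ' η' : H) (a : H →L[ℂ] H) : H →L[ℂ] H :=
  (adjoint (insR η' : H →L[ℂ] HT H H)) ∘L (adjoint (opW W)) ∘L (ampR a) ∘L (opW W) ∘L
    (insR ξ' : H →L[ℂ] HT H H)

private theorem convRop_inner (W : HT H H ≃ₗᵢ[ℂ] HT H H) (ξ' η' : H) (a : H →L[ℂ] H) (ξ η : H) :
    ⟪η, convRop W ξ' η' a ξ⟫_ℂ = ⟪W (tm η η'), ampR a (W (tm ξ ξ'))⟫_ℂ := by
  simp only [convRop, ContinuousLinearMap.comp_apply]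
  rw [adjoint_inner_right, adjoint_inner_right]
  rfl

private theorem convRop_norm (W : HT H H ≃ₗᵢ[ℂ] HT H H) (ξ' η' : H) (a : H →L[ℂ] H) :
    ‖convRop W ξ' η' a‖ ≤ ‖ξ'‖ * ‖η'‖ * ‖a‖ := by
  refine opNorm_le_bound _ (by positivity) fun ξ => ?_
  by_cases h : ‖convRop W ξ' η' a ξ‖ = 0
  · rw [h]; positivity
  have h1 : ‖convRop W ξ' η' a ξ‖ * ‖convRop W ξ' η' a ξ‖ ≤
      ‖ξ'‖ * ‖η'‖ * ‖a‖ * ‖ξ‖ * ‖convRop W ξ' η' a ξ‖ := by
    calc ‖convRop W ξ' η' a ξ‖ * ‖convRop W ξ' η' a ξ‖ =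
          ‖⟪convRop W ξ' η' a ξ, convRop W ξ' η' a ξ⟫_ℂ‖ := by
          rw [inner_self_eq_norm_sq_to_K]; simp [sq]
      _ = ‖⟪W (tm (convRop W ξ' η' a ξ) η'), ampR a (W (tm ξ ξ'))⟫_ℂ‖ := by rw [convRop_inner]
      _ ≤ ‖W (tm (convRop W ξ' η' a ξ) η')‖ * ‖ampR a (W (tm ξ ξ'))‖ := norm_inner_le_norm _ _
      _ ≤ ‖W (tm (convRop W ξ' η' a ξ) η')‖ * (‖a‖ * ‖W (tm ξ ξ')‖) := by
          refine mul_le_mul_of_nonneg_left ?_ (norm_nonneg _)
          exact ((ampR a : HT H H →L[ℂ] HT H H).le_opNorm _).trans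
            (mul_le_mul_of_nonneg_right (norm_ampR_le a) (norm_nonneg _))
      _ = ‖ξ'‖ * ‖η'‖ * ‖a‖ * ‖ξ‖ * ‖convRop W ξ' η' a ξ‖ := by
          rw [LinearIsometryEquiv.norm_map, LinearIsometryEquiv.norm_map, norm_tm, norm_tm]; ring
  have hpos : 0 < ‖convRop W ξ' η' a ξ‖ := lt_of_le_of_ne (norm_nonneg _) (Ne.symm h)
  exact le_of_mul_le_mul_right h1 hpos

/-- `convRop` as a bounded linear map -/
private def convRL (W : HT H H ≃ₗᵢ[ℂ] HT H H) (ξ' η' : H) :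
    (H →L[ℂ] H) →L[ℂ] (H →L[ℂ] H) :=
  LinearMap.mkContinuous
    { toFun := convRop W ξ' η'
      map_add' := fun a b => by
        refine op_ext_inner fun η ξ => ?_
        rw [ContinuousLinearMap.add_apply, inner_add_right, convRop_inner, convRop_inner,
          convRop_inner, convR_ampR_add, ContinuousLinearMap.add_apply, inner_add_right]
      map_smul' := fun c a => by
        refine op_ext_inner fun η ξ => ?_
        rw [RingHom.id_apply, ContinuousLinearMap.smul_apply, inner_smul_right, convRop_inner,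
          convRop_inner, convR_ampR_smul, ContinuousLinearMap.smul_apply, inner_smul_right] }
    (‖ξ'‖ * ‖η'‖) (fun a => convRop_norm W ξ' η' a)

private theorem convRL_apply (W : HT H H ≃ₗᵢ[ℂ] HT H H) (ξ' η' : H) (a : H →L[ℂ] H) :
    convRL W ξ' η' a = convRop W ξ' η' a := rfl

private theorem convRL_rho (hW : Pentagon W) (ξ' η' u y : H) :
    convRL W ξ' η' (rho W y u) = rho W (lam W ξ' η' y) u := by
  rw [convRL_apply]
  refine op_ext_inner fun η ξ => ?_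
  rw [convRop_inner, ← inner_lam_lam hW, inner_lam, inner_rho]

private theorem convRL_mem (hW : Pentagon W) (ξ' η' : H) (x : SubT (C0 W)) :
    convRL W ξ' η' (SubT.val (C0 W) x) ∈ C0 W := by
  refine Cs_induction (rhoS W) (p := fun x => convRL W ξ' η' (SubT.val (C0 W) x) ∈ C0 W) x
    ?_ ?_ ?_ ?_ ?_
  · have hcl : IsClosed ((C0 W : Submodule ℂ (H →L[ℂ] H)) : Set (H →L[ℂ] H)) :=
      Submodule.isClosed_topologicalClosure _
    exact hcl.preimage ((convRL W ξ' η').continuous.comp (SubT.val (C0 W)).continuous)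
  · rw [map_zero, map_zero]
    exact Submodule.zero_mem _
  · intro x y hx hy
    rw [map_add, map_add]
    exact Submodule.add_mem _ hx hy
  · intro c x hx
    rw [map_smul, map_smul]
    exact Submodule.smul_mem _ _ hx
  · intro u y
    rw [val_toCs, rhoS_apply, convRL_rho hW]
    exact mem_Cs (rhoS W) u (lam W ξ' η' y)

theorem exists_convR (hW : Pentagon W) (ξ' η' : H) :
    ∃ R : SubT (C0 W) →L[ℂ] SubT (C0 W),
      (∀ x, ‖R x‖ ≤ ‖ξ'‖ * ‖η'‖ * ‖x‖) ∧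
      (∀ (x : SubT (C0 W)) (ξ η : H), ⟪η, (SubT.val (C0 W) (R x)) ξ⟫_ℂ =
        ⟪W (tm η η'), ampR (SubT.val (C0 W) x) (W (tm ξ ξ'))⟫_ℂ) ∧
      (∀ u y, R (toCs (rhoS W) u y) = toCs (rhoS W) u (lam W ξ' η' y)) := by
  have hb : ∀ x : SubT (C0 W), ‖SubT.mk (C0 W) (convRL W ξ' η' (SubT.val (C0 W) x))
      (convRL_mem hW ξ' η' x)‖ ≤ ‖ξ'‖ * ‖η'‖ * ‖x‖ := by
    intro x
    rw [← SubT.norm_val, SubT.val_mk, convRL_apply]
    refine (convRop_norm W ξ' η' _).trans_eq ?_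
    rw [SubT.norm_val]
  refine ⟨LinearMap.mkContinuous
    { toFun := fun x => SubT.mk (C0 W) (convRL W ξ' η' (SubT.val (C0 W) x))
        (convRL_mem hW ξ' η' x)
      map_add' := fun x y => SubT.ext _ (by simp)
      map_smul' := fun c x => SubT.ext _ (by simp) } (‖ξ'‖ * ‖η'‖) hb, hb, ?_, ?_⟩
  · intro x ξ η
    exact convRop_inner W ξ' η' _ ξ η
  · intro u y
    refine SubT.ext _ ?_
    change convRL W ξ' η' (SubT.val (C0 W) (toCs (rhoS W) u y)) = _
    rw [val_toCs, val_toCs, rhoS_apply, rhoS_apply, convRL_rho hW]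

end LCQG
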