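import Mathlib
import Pool.Agent.Lib.MP_ea3264_an.ConvR

/-!
# The slices `(φ ⊗ id) Δ`

`exists_convL`. For `ξ η : H` let `R_{ξ,η}` be the map of `exists_convR hW ξ η` (choose it). For
`x : SubT (C0 W)` the map `(η, ξ) ↦ φ (R_{ξ,η} x)` is sesquilinear (from the coefficient formula
and `DualT`/`SubT` extensionality, `R_{ξ,η} x` is linear in `ξ` and antilinear in `η`) and bounded
by `‖φ‖ * ‖x‖ * ‖ξ‖ * ‖η‖`; so there is an operator `L x ∈ B(H)` with
`⟪η, (L x) ξ⟫ = φ (R_{ξ,η} x)`, `‖L x‖ ≤ ‖φ‖ * ‖x‖` (`InnerProductSpace.continuousLinearMapOfBilin`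
as in the definition of `slice`), linear in `x`. For `x = toCs (rhoS W) u y`:
`φ (R_{ξ,η} x) = φ (toCs (rhoS W) u (lam W ξ η y)) = ⟪u, lamM W φ (lam W ξ η y)⟫
= ⟪adjoint (lamM W φ) u, lam W ξ η y⟫ = ⟪η, rho W y (adjoint (lamM W φ) u) ξ⟫`, so
`L x = rho W y (adjoint (lamM W φ) u) ∈ C0 W`. By `Cs_induction`, `L x ∈ C0 W` for all `x`.
-/

set_option autoImplicit false
set_option linter.unusedSectionVars false

open scoped TensorProduct InnerProductSpace ComplexConjugate Topology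
open ContinuousLinearMap Filter

noncomputable section

namespace LCQG

variable {H : Type*} [NormedAddCommGroup H] [InnerProductSpace ℂ H] [CompleteSpace H]
variable {W : HT H H ≃ₗᵢ[ℂ] HT H H}

/-- the map of `exists_convR` -/
private def cvR (hW : Pentagon W) (ξ η : H) : SubT (C0 W) →L[ℂ] SubT (C0 W) :=
  (exists_convR hW ξ η).choose

private theorem cvR_norm (hW : Pentagon W) (ξ η : H) (x : SubT (C0 W)) :
    ‖cvR hW ξ η x‖ ≤ ‖ξ‖ * ‖η‖ * ‖x‖ := (exists_convR hW ξ η).choose_spec.1 x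

private theorem cvR_inner (hW : Pentagon W) (ξ' η' : H) (x : SubT (C0 W)) (ξ η : H) :
    ⟪η, (SubT.val (C0 W) (cvR hW ξ' η' x)) ξ⟫_ℂ =
        ⟪W (tm η η'), ampR (SubT.val (C0 W) x) (W (tm ξ ξ'))⟫_ℂ :=
  (exists_convR hW ξ' η').choose_spec.2.1 x ξ η

private theorem cvR_toCs (hW : Pentagon W) (ξ' η' u y : H) :
    cvR hW ξ' η' (toCs (rhoS W) u y) = toCs (rhoS W) u (lam W ξ' η' y) :=
  (exists_convR hW ξ' η').choose_spec.2.2 u y

private theorem cvR_add_left (hW : Pentagon W) (ξ ξ' η : H) (x : SubT (C0 W)) :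
    cvR hW (ξ + ξ') η x = cvR hW ξ η x + cvR hW ξ' η x := by
  refine SubT.ext _ (op_ext_inner fun u y => ?_)
  rw [map_add, add_apply, inner_add_right, cvR_inner, cvR_inner, cvR_inner, tm_add_right, map_add,
    map_add, inner_add_right]

private theorem cvR_smul_left (hW : Pentagon W) (c : ℂ) (ξ η : H) (x : SubT (C0 W)) :
    cvR hW (c • ξ) η x = c • cvR hW ξ η x := by
  refine SubT.ext _ (op_ext_inner fun u y => ?_)
  rw [map_smul, smul_apply, inner_smul_right, cvR_inner, cvR_inner, tm_smul_right, map_smul,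
    map_smul, inner_smul_right]

private theorem cvR_add_right (hW : Pentagon W) (ξ η η' : H) (x : SubT (C0 W)) :
    cvR hW ξ (η + η') x = cvR hW ξ η x + cvR hW ξ η' x := by
  refine SubT.ext _ (op_ext_inner fun u y => ?_)
  rw [map_add, add_apply, inner_add_right, cvR_inner, cvR_inner, cvR_inner, tm_add_right, map_add,
    inner_add_left]

private theorem cvR_smul_right (hW : Pentagon W) (c : ℂ) (ξ η : H) (x : SubT (C0 W)) :
    cvR hW ξ (c • η) x = conj c • cvR hW ξ η x := by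
  refine SubT.ext _ (op_ext_inner fun u y => ?_)
  rw [map_smul, smul_apply, inner_smul_right, cvR_inner, cvR_inner, tm_smul_right, map_smul,
    inner_smul_left]

/-- the sesquilinear form `(η, ξ) ↦ φ (R_{ξ,η} x)` -/
private def cvForm (hW : Pentagon W) (φ : DualT (C0 W)) (x : SubT (C0 W)) :
    H →L⋆[ℂ] H →L[ℂ] ℂ :=
  LinearMap.mkContinuous₂
    (LinearMap.mk₂'ₛₗ (starRingEnd ℂ) (RingHom.id ℂ) (fun η ξ => φ (cvR hW ξ η x))
      (fun η η' ξ => by rw [cvR_add_right, map_add]) (fun c η ξ => by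
        rw [cvR_smul_right, map_smul])
      (fun η ξ ξ' => by rw [cvR_add_left, map_add]) (fun c η ξ => by
        rw [cvR_smul_left, map_smul]; rfl)) (‖φ‖ * ‖x‖)
    (fun η ξ => by
      change ‖φ (cvR hW ξ η x)‖ ≤ ‖φ‖ * ‖x‖ * ‖η‖ * ‖ξ‖
      calc ‖φ (cvR hW ξ η x)‖ ≤ ‖φ‖ * ‖cvR hW ξ η x‖ := φ.le_opNorm _
        _ ≤ ‖φ‖ * (‖ξ‖ * ‖η‖ * ‖x‖) := by
            gcongr
            exact cvR_norm hW ξ η x
        _ = ‖φ‖ * ‖x‖ * ‖η‖ * ‖ξ‖ := by ring)

private def cvOp (hW : Pentagon W) (φ : DualT (C0 W)) (x : SubT (C0 W)) : H →L[ℂ] H :=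
  adjoint (InnerProductSpace.continuousLinearMapOfBilin (cvForm hW φ x))

private theorem inner_cvOp (hW : Pentagon W) (φ : DualT (C0 W)) (x : SubT (C0 W)) (η ξ : H) :
    ⟪η, cvOp hW φ x ξ⟫_ℂ = φ (cvR hW ξ η x) := by
  rw [cvOp, adjoint_inner_right, InnerProductSpace.continuousLinearMapOfBilin_apply]
  rfl

private theorem norm_cvOp_le (hW : Pentagon W) (φ : DualT (C0 W)) (x : SubT (C0 W)) :
    ‖cvOp hW φ x‖ ≤ ‖φ‖ * ‖x‖ := by
  refine ContinuousLinearMap.opNorm_le_bound _ (by positivity) fun ξ => ?_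
  by_cases h : ‖cvOp hW φ x ξ‖ = 0
  · rw [h]; positivity
  have h1 : ‖cvOp hW φ x ξ‖ * ‖cvOp hW φ x ξ‖ ≤ ‖φ‖ * ‖x‖ * ‖ξ‖ * ‖cvOp hW φ x ξ‖ := by
    calc ‖cvOp hW φ x ξ‖ * ‖cvOp hW φ x ξ‖ = ‖⟪cvOp hW φ x ξ, cvOp hW φ x ξ⟫_ℂ‖ := by
          rw [inner_self_eq_norm_sq_to_K]; simp [sq]
      _ = ‖φ (cvR hW ξ (cvOp hW φ x ξ) x)‖ := by rw [inner_cvOp]
      _ ≤ ‖φ‖ * ‖cvR hW ξ (cvOp hW φ x ξ) x‖ := φ.le_opNorm _
      _ ≤ ‖φ‖ * (‖ξ‖ * ‖cvOp hW φ x ξ‖ * ‖x‖) := by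
          gcongr
          exact cvR_norm hW _ _ x
      _ = ‖φ‖ * ‖x‖ * ‖ξ‖ * ‖cvOp hW φ x ξ‖ := by ring
  have hpos : 0 < ‖cvOp hW φ x ξ‖ := lt_of_le_of_ne (norm_nonneg _) (Ne.symm h)
  exact le_of_mul_le_mul_right h1 hpos

private def cvLL (hW : Pentagon W) (φ : DualT (C0 W)) : SubT (C0 W) →L[ℂ] (H →L[ℂ] H) :=
  LinearMap.mkContinuous
    { toFun := cvOp hW φ
      map_add' := fun x y => op_ext_inner fun u v => by
        rw [add_apply, inner_add_right, inner_cvOp, inner_cvOp, inner_cvOp, map_add, map_add]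
      map_smul' := fun c x => op_ext_inner fun u v => by
        rw [RingHom.id_apply, smul_apply, inner_smul_right, inner_cvOp, inner_cvOp, map_smul,
          map_smul]
        rfl } ‖φ‖ (norm_cvOp_le hW φ)

private theorem cvLL_toCs (hW : Pentagon W) (φ : DualT (C0 W)) (u y : H) :
    cvLL hW φ (toCs (rhoS W) u y) = rhoS W (adjoint (lamM W φ) u) y := by
  refine op_ext_inner fun η ξ => ?_
  show ⟪η, cvOp hW φ (toCs (rhoS W) u y) ξ⟫_ℂ = _
  rw [inner_cvOp, cvR_toCs, ← inner_lamM, rhoS_apply, inner_rho, ← inner_lam,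
    adjoint_inner_left]

private theorem cvLL_mem (hW : Pentagon W) (φ : DualT (C0 W)) (x : SubT (C0 W)) :
    cvLL hW φ x ∈ C0 W := by
  refine Cs_induction (rhoS W) (p := fun x => cvLL hW φ x ∈ C0 W) x ?_ ?_ ?_ ?_ ?_
  · exact (Submodule.isClosed_topologicalClosure _).preimage (cvLL hW φ).continuous
  · rw [map_zero]
    exact Submodule.zero_mem _
  · intro x y hx hy
    rw [map_add]
    exact Submodule.add_mem _ hx hy
  · intro c x hx
    rw [map_smul]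
    exact Submodule.smul_mem _ c hx
  · intro u y
    rw [cvLL_toCs]
    exact mem_Cs _ _ _

theorem exists_convL (hW : Pentagon W) (φ : DualT (C0 W)) :
    ∃ L : SubT (C0 W) →L[ℂ] SubT (C0 W), (∀ x, ‖L x‖ ≤ ‖φ‖ * ‖x‖) ∧
      ∀ u y, L (toCs (rhoS W) u y) = toCs (rhoS W) (adjoint (lamM W φ) u) y := by
  have hb : ∀ x, ‖SubT.mk (C0 W) (cvLL hW φ x) (cvLL_mem hW φ x)‖ ≤ ‖φ‖ * ‖x‖ := fun x => by
    rw [← SubT.norm_val]
    exact norm_cvOp_le hW φ x
  refine ⟨LinearMap.mkContinuous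
    { toFun := fun x => SubT.mk (C0 W) (cvLL hW φ x) (cvLL_mem hW φ x)
      map_add' := fun x y => SubT.ext _ (by simp)
      map_smul' := fun c x => SubT.ext _ (by simp) } ‖φ‖ hb, fun x => hb x, fun u y => ?_⟩
  refine SubT.ext _ ?_
  exact cvLL_toCs hW φ u y

end LCQG
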