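import Mathlib
import Pool.Agent.Lib.MP_ea3264_an.ConvL

/-!
# Convolution of functionals

`exists_conv`: `φ ⋆ ψ = ψ ∘ L_φ` with `L_φ` from `exists_convL`:
`(φ ⋆ ψ)(toCs (rhoS W) u y) = ψ (toCs (rhoS W) (adjoint (lamM W φ) u) y)
= ⟪adjoint (lamM W φ) u, lamM W ψ y⟫ = ⟪u, lamM W φ (lamM W ψ y)⟫`, so
`lamM W (φ ⋆ ψ) = lamM W φ * lamM W ψ`, and `‖φ ⋆ ψ‖ ≤ ‖φ‖ * ‖ψ‖`. Bilinearity follows from
`slice_injective`.
-/

set_option autoImplicit false
set_option linter.unusedSectionVars false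

open scoped TensorProduct InnerProductSpace ComplexConjugate Topology
open ContinuousLinearMap Filter

noncomputable section

namespace LCQG

variable {H : Type*} [NormedAddCommGroup H] [InnerProductSpace ℂ H] [CompleteSpace H]
variable {W : HT H H ≃ₗᵢ[ℂ] HT H H}

/-- `φ ⋆ ψ = ψ ∘ L_φ` -/
private def cvF (hW : Pentagon W) (φ ψ : DualT (C0 W)) : DualT (C0 W) :=
  DualT.of (C0 W) ((show SubT (C0 W) →L[ℂ] ℂ from ψ) ∘L (exists_convL hW φ).choose)

private theorem lamM_cvF (hW : Pentagon W) (φ ψ : DualT (C0 W)) :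
    lamM W (cvF hW φ ψ) = lamM W φ * lamM W ψ := by
  refine op_ext_inner fun u y => ?_
  rw [inner_lamM]
  show ψ ((exists_convL hW φ).choose (toCs (rhoS W) u y)) = ⟪u, lamM W φ (lamM W ψ y)⟫_ℂ
  rw [(exists_convL hW φ).choose_spec.2, ← inner_lamM, adjoint_inner_left]

private theorem norm_cvF_le (hW : Pentagon W) (φ ψ : DualT (C0 W)) :
    ‖cvF hW φ ψ‖ ≤ ‖φ‖ * ‖ψ‖ := by
  refine DualT.opNorm_le_bound _ (by positivity) fun x => ?_
  show ‖ψ ((exists_convL hW φ).choose x)‖ ≤ _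
  calc ‖ψ ((exists_convL hW φ).choose x)‖ ≤ ‖ψ‖ * ‖(exists_convL hW φ).choose x‖ := ψ.le_opNorm _
    _ ≤ ‖ψ‖ * (‖φ‖ * ‖x‖) := by
        gcongr
        exact (exists_convL hW φ).choose_spec.1 x
    _ = ‖φ‖ * ‖ψ‖ * ‖x‖ := by ring

private theorem lamM_add' (φ ψ : DualT (C0 W)) : lamM W (φ + ψ) = lamM W φ + lamM W ψ :=
  slice_add _ _ _

private theorem lamM_smul' (c : ℂ) (φ : DualT (C0 W)) : lamM W (c • φ) = c • lamM W φ :=
  slice_smul _ _ _

private theorem lamM_inj {φ ψ : DualT (C0 W)} (h : lamM W φ = lamM W ψ) : φ = ψ :=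
  slice_injective _ h

theorem exists_conv (hW : Pentagon W) :
    ∃ c : DualT (C0 W) →L[ℂ] DualT (C0 W) →L[ℂ] DualT (C0 W),
      (∀ φ ψ, lamM W (c φ ψ) = lamM W φ * lamM W ψ) ∧ ∀ φ ψ, ‖c φ ψ‖ ≤ ‖φ‖ * ‖ψ‖ := by
  refine ⟨LinearMap.mkContinuous₂
    (LinearMap.mk₂ ℂ (fun φ ψ => cvF hW φ ψ)
      (fun φ φ' ψ => lamM_inj (by
        rw [lamM_add', lamM_cvF, lamM_cvF, lamM_cvF, lamM_add', add_mul]))
      (fun c φ ψ => lamM_inj (by
        rw [lamM_smul', lamM_cvF, lamM_cvF, lamM_smul', smul_mul_assoc]))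
      (fun φ ψ ψ' => lamM_inj (by
        rw [lamM_add', lamM_cvF, lamM_cvF, lamM_cvF, lamM_add', mul_add]))
      (fun c φ ψ => lamM_inj (by
        rw [lamM_smul', lamM_cvF, lamM_cvF, lamM_smul', mul_smul_comm]))) 1
    (fun φ ψ => by
      rw [one_mul]
      exact norm_cvF_le hW φ ψ), fun φ ψ => lamM_cvF hW φ ψ, fun φ ψ => norm_cvF_le hW φ ψ⟩

/-- The convolution product of `C₀(𝔾)^*`, as a bounded bilinear map. -/
def conv (hW : Pentagon W) : DualT (C0 W) →L[ℂ] DualT (C0 W) →L[ℂ] DualT (C0 W) :=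
  (exists_conv hW).choose

theorem lamM_conv (hW : Pentagon W) (φ ψ : DualT (C0 W)) :
    lamM W (conv hW φ ψ) = lamM W φ * lamM W ψ :=
  (exists_conv hW).choose_spec.1 φ ψ

theorem norm_conv_le (hW : Pentagon W) (φ ψ : DualT (C0 W)) :
    ‖conv hW φ ψ‖ ≤ ‖φ‖ * ‖ψ‖ :=
  (exists_conv hW).choose_spec.2 φ ψ

theorem conv_assoc (hW : Pentagon W) (φ ψ χ : DualT (C0 W)) :
    conv hW (conv hW φ ψ) χ = conv hW φ (conv hW ψ χ) := by
  refine slice_injective _ ?_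
  change lamM W _ = lamM W _
  rw [lamM_conv, lamM_conv, lamM_conv, lamM_conv, mul_assoc]

theorem conv_unit_left (hW : Pentagon W) {ε : DualT (C0 W)} (hε : lamM W ε = 1)
    (φ : DualT (C0 W)) : conv hW ε φ = φ := by
  refine slice_injective _ ?_
  change lamM W _ = lamM W _
  rw [lamM_conv, hε, one_mul]

theorem conv_unit_right (hW : Pentagon W) {ε : DualT (C0 W)} (hε : lamM W ε = 1)
    (φ : DualT (C0 W)) : conv hW φ ε = φ := by
  refine slice_injective _ ?_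
  change lamM W _ = lamM W _
  rw [lamM_conv, hε, mul_one]

end LCQG
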