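import Mathlib
import Pool.Agent.Lib.MP_ea3264_an.Conv

/-!
# Convolution of vector functionals

`conv_vecF_apply`: both sides are bounded linear functions of `x`; for `x = toCs (rhoS W) u y` the
left side is `⟪u, lamM W (conv ..) y⟫ = ⟪u, lam W ξ η (lam W ξ' η' y)⟫` (`inner_lamM`,
`lamM_conv`, `lamM_vecF`) and the right side is the same by `inner_lam_lam`. Use `Cs_induction`.

`norm_conv_mix_left`: for `x : SubT (C0 W)` and a unit vector `y`,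
`(conv (∑ j, ω_{v j}) ω_y - ω_y) x = ∑ j (⟪W z_j, (1 ⊗ x) W z_j⟫ - ⟪z_j, (1 ⊗ x) z_j⟫)` with
`z_j = tm (v j) y`, since `∑ j, ⟪z_j, (1 ⊗ x) z_j⟫ = ∑ j, ‖v j‖² ⟪y, x y⟫ = ⟪y, x y⟫`. Each
summand is bounded by `‖x‖ * (‖W z_j‖ + ‖z_j‖) * ‖W z_j - z_j‖ = 2 ‖x‖ ‖v j‖ ‖W z_j - z_j‖`
(`norm_ampR_le`); by the Cauchy-Schwarz inequality the sum is at most
`2 ‖x‖ √(∑ j, ‖W z_j - z_j‖²)`.

`norm_conv_mix_right`: the same with `z_j = tm y (v j)` and
`∑ j, ⟪z_j, (1 ⊗ x) z_j⟫ = ‖y‖² ∑ j, ⟪v j, x (v j)⟫`.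
-/

set_option autoImplicit false
set_option linter.unusedSectionVars false

open scoped TensorProduct InnerProductSpace ComplexConjugate Topology
open ContinuousLinearMap Filter

noncomputable section

namespace LCQG

variable {H : Type*} [NormedAddCommGroup H] [InnerProductSpace ℂ H] [CompleteSpace H]
variable {W : HT H H ≃ₗᵢ[ℂ] HT H H}

private theorem vcv_amp_add (a b : H →L[ℂ] H) :
    (ampR (a + b) : HT H H →L[ℂ] HT H H) = ampR a + ampR b :=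
  HT.ext_clm fun x y => by
    rw [ampR_tm, add_apply, add_apply, tm_add_right, ampR_tm, ampR_tm]

private theorem vcv_amp_smul (c : ℂ) (a : H →L[ℂ] H) :
    (ampR (c • a) : HT H H →L[ℂ] HT H H) = c • ampR a :=
  HT.ext_clm fun x y => by
    rw [ampR_tm, smul_apply, smul_apply, tm_smul_right, ampR_tm]

/-- `a ↦ 1 ⊗ a` as a bounded linear map -/
private def vcvAmp (H : Type*) [NormedAddCommGroup H] [InnerProductSpace ℂ H] [CompleteSpace H] :
    (H →L[ℂ] H) →L[ℂ] (HT H H →L[ℂ] HT H H) :=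
  LinearMap.mkContinuous
    { toFun := fun a => ampR a
      map_add' := vcv_amp_add
      map_smul' := vcv_amp_smul } 1 (fun a => by
        rw [one_mul]
        exact norm_ampR_le a)

private theorem vcvAmp_apply (a : H →L[ℂ] H) : vcvAmp H a = ampR a := rfl

theorem conv_vecF_apply (hW : Pentagon W) (ξ η ξ' η' : H) (x : SubT (C0 W)) :
    conv hW (vecF (C0 W) ξ η) (vecF (C0 W) ξ' η') x =
      ⟪W (tm η η'), ampR (SubT.val (C0 W) x) (W (tm ξ ξ'))⟫_ℂ := by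
  refine Cs_induction (rhoS W) (p := fun x => conv hW (vecF (C0 W) ξ η) (vecF (C0 W) ξ' η') x =
      ⟪W (tm η η'), vcvAmp H (SubT.val (C0 W) x) (W (tm ξ ξ'))⟫_ℂ) x ?_ ?_ ?_ ?_ ?_
  · refine isClosed_eq (DualT.continuous _) ?_
    have h1 : Continuous fun x : SubT (C0 W) => vcvAmp H (SubT.val (C0 W) x) :=
      (vcvAmp H).continuous.comp (SubT.val (C0 W)).continuous
    exact continuous_const.inner (h1.clm_apply continuous_const)
  · simp
  · intro x y hx hy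
    rw [map_add, hx, hy, map_add, map_add, add_apply, inner_add_right]
  · intro c x hx
    rw [map_smul, hx, map_smul, map_smul, smul_apply, inner_smul_right]
    rfl
  · intro u y
    rw [← inner_lamM, lamM_conv, lamM_vecF, lamM_vecF, vcvAmp_apply]
    exact inner_lam_lam hW ξ η ξ' η' u y

/-- the main estimate -/
private theorem vcv_est {m : ℕ} (z : Fin m → HT H H) (hz : ∑ j, ‖z j‖ ^ 2 = 1)
    (X : HT H H →L[ℂ] HT H H) {C : ℝ} (hX : ‖X‖ ≤ C) :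
    ‖∑ j, (⟪W (z j), X (W (z j))⟫_ℂ - ⟪z j, X (z j)⟫_ℂ)‖ ≤
      2 * √(∑ j, ‖W (z j) - z j‖ ^ 2) * C := by
  have hC : 0 ≤ C := (norm_nonneg _).trans hX
  have h1 : ∀ j, ‖⟪W (z j), X (W (z j))⟫_ℂ - ⟪z j, X (z j)⟫_ℂ‖ ≤
      2 * C * (‖z j‖ * ‖W (z j) - z j‖) := fun j => by
    have e : ⟪W (z j), X (W (z j))⟫_ℂ - ⟪z j, X (z j)⟫_ℂ =
        ⟪W (z j) - z j, X (W (z j))⟫_ℂ + ⟪z j, X (W (z j) - z j)⟫_ℂ := by
      rw [inner_sub_left, map_sub, inner_sub_right]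
      ring
    have a1 : ‖⟪W (z j) - z j, X (W (z j))⟫_ℂ‖ ≤ ‖W (z j) - z j‖ * (C * ‖z j‖) := by
      refine (norm_inner_le_norm _ _).trans ?_
      gcongr
      refine (X.le_opNorm _).trans ?_
      rw [LinearIsometryEquiv.norm_map]
      gcongr
    have a2 : ‖⟪z j, X (W (z j) - z j)⟫_ℂ‖ ≤ ‖z j‖ * (C * ‖W (z j) - z j‖) := by
      refine (norm_inner_le_norm _ _).trans ?_
      gcongr
      refine (X.le_opNorm _).trans ?_
      gcongr
    rw [e]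
    refine (norm_add_le _ _).trans ?_
    linarith
  have h2 : ∑ j, ‖z j‖ * ‖W (z j) - z j‖ ≤ √(∑ j, ‖W (z j) - z j‖ ^ 2) := by
    have h3 := Finset.sum_mul_sq_le_sq_mul_sq Finset.univ (fun j => ‖z j‖)
      (fun j => ‖W (z j) - z j‖)
    rw [hz, one_mul] at h3
    exact Real.le_sqrt_of_sq_le h3
  calc ‖∑ j, (⟪W (z j), X (W (z j))⟫_ℂ - ⟪z j, X (z j)⟫_ℂ)‖
      ≤ ∑ j, 2 * C * (‖z j‖ * ‖W (z j) - z j‖) :=
        (norm_sum_le _ _).trans (Finset.sum_le_sum fun j _ => h1 j)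
    _ = 2 * C * ∑ j, ‖z j‖ * ‖W (z j) - z j‖ := by rw [Finset.mul_sum]
    _ ≤ 2 * C * √(∑ j, ‖W (z j) - z j‖ ^ 2) := by gcongr
    _ = 2 * √(∑ j, ‖W (z j) - z j‖ ^ 2) * C := by ring

private theorem vcv_sq (x : H) : ⟪x, x⟫_ℂ = ((‖x‖ ^ 2 : ℝ) : ℂ) := by
  rw [inner_self_eq_norm_sq_to_K]
  push_cast
  rfl

private theorem vcv_normX (x : SubT (C0 W)) :
    ‖(ampR (SubT.val (C0 W) x) : HT H H →L[ℂ] HT H H)‖ ≤ ‖x‖ := by
  refine (norm_ampR_le _).trans ?_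
  rw [SubT.norm_val]

theorem norm_conv_mix_left (hW : Pentagon W) {m : ℕ} (v : Fin m → H)
    (hv : ∑ j, ‖v j‖ ^ 2 = 1) {y : H} (hy : ‖y‖ = 1) :
    ‖conv hW (∑ j, vecF (C0 W) (v j) (v j)) (vecF (C0 W) y y) - vecF (C0 W) y y‖ ≤
      2 * √(∑ j, ‖W (tm (v j) y) - tm (v j) y‖ ^ 2) := by
  refine DualT.opNorm_le_bound _ (by positivity) fun x => ?_
  have hz : ∑ j, ‖(tm (v j) y : HT H H)‖ ^ 2 = 1 := by
    simp_rw [norm_tm, hy, mul_one]
    exact hv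
  have e1 : (conv hW (∑ j, vecF (C0 W) (v j) (v j)) (vecF (C0 W) y y) - vecF (C0 W) y y) x =
      ∑ j, (⟪W (tm (v j) y), ampR (SubT.val (C0 W) x) (W (tm (v j) y))⟫_ℂ -
        ⟪tm (v j) y, ampR (SubT.val (C0 W) x) (tm (v j) y)⟫_ℂ) := by
    rw [DualT.sub_apply, map_sum, sum_apply, DualT.sum_apply, Finset.sum_sub_distrib]
    congr 1
    · exact Finset.sum_congr rfl fun j _ => conv_vecF_apply hW _ _ _ _ x
    · rw [vecF_apply]
      simp_rw [ampR_tm, inner_tm_tm, vcv_sq]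
      rw [← Finset.sum_mul, ← Complex.ofReal_sum, hv, Complex.ofReal_one, one_mul]
  rw [e1]
  exact vcv_est (fun j => tm (v j) y) hz _ (vcv_normX x)

theorem norm_conv_mix_right (hW : Pentagon W) {m : ℕ} (v : Fin m → H)
    (hv : ∑ j, ‖v j‖ ^ 2 = 1) {y : H} (hy : ‖y‖ = 1) :
    ‖conv hW (vecF (C0 W) y y) (∑ j, vecF (C0 W) (v j) (v j)) -
      ∑ j, vecF (C0 W) (v j) (v j)‖ ≤
      2 * √(∑ j, ‖W (tm y (v j)) - tm y (v j)‖ ^ 2) := by
  refine DualT.opNorm_le_bound _ (by positivity) fun x => ?_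
  have hz : ∑ j, ‖(tm y (v j) : HT H H)‖ ^ 2 = 1 := by
    simp_rw [norm_tm, hy, one_mul]
    exact hv
  have e1 : (conv hW (vecF (C0 W) y y) (∑ j, vecF (C0 W) (v j) (v j)) -
      ∑ j, vecF (C0 W) (v j) (v j)) x =
      ∑ j, (⟪W (tm y (v j)), ampR (SubT.val (C0 W) x) (W (tm y (v j)))⟫_ℂ -
        ⟪tm y (v j), ampR (SubT.val (C0 W) x) (tm y (v j))⟫_ℂ) := by
    rw [DualT.sub_apply, map_sum, DualT.sum_apply, DualT.sum_apply, Finset.sum_sub_distrib]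
    congr 1
    · exact Finset.sum_congr rfl fun j _ => conv_vecF_apply hW _ _ _ _ x
    · refine Finset.sum_congr rfl fun j _ => ?_
      rw [vecF_apply, ampR_tm, inner_tm_tm, vcv_sq, hy]
      simp
  rw [e1]
  exact vcv_est (fun j => tm y (v j)) hz _ (vcv_normX x)

end LCQG
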