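import Mathlib
import Pool.Agent.Lib.MP_ea3264_an.VecConv
import Pool.Agent.Lib.MP_ea3264_an.StBasic

/-!
# The set of normal states is closed under convolution

`mem_St_of_tensor`. For `z : HT H H` let `F_z x = ⟪z, ampR x z⟫`; then
`‖F_z - F_w‖ ≤ (‖z‖ + ‖w‖) * ‖z - w‖` (`norm_ampR_le`). Every `w` in the image of the algebraic
tensor product has the form `w = ∑ i : Fin n, tm (e i) (y i)` with `e` orthonormal (write `w` as a
finite sum of elementary tensors `a_k ⊗ b_k`, take an orthonormal basis of the span of the `a_k`);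
then `F_w x = ∑ i, ⟪y i, x (y i)⟫` and `‖w‖² = ∑ i, ‖y i‖²`. Such `w` are dense (`toHT_dense`);
given a unit vector `z` choose `w → z` and normalize (`w / ‖w‖`), so `F_z` is a limit of elements
of the set inside the closure in the definition of `St W`.

`conv_mem_St`: for `φ = ∑ j, vecF (v j) (v j)`, `ψ = ∑ k, vecF (v' k) (v' k)` one has by
`conv_vecF_apply` `φ ⋆ ψ = ∑ j k, F_{z j k}`, `z j k = W (tm (v j) (v' k))`,
`∑ j k, ‖z j k‖² = 1`; and `F_z = ‖z‖² • F_{z / ‖z‖}` for `z ≠ 0`, `F_0 = 0`, so `φ ⋆ ψ` is a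
convex combination of elements of `St W` (`St_convex`). In general use that `conv hW` is
continuous and `St W` is closed (`closure_minimal` or `map_mem_closure₂`).
-/

set_option autoImplicit false
set_option linter.unusedSectionVars false

open scoped TensorProduct InnerProductSpace ComplexConjugate Topology
open ContinuousLinearMap Filter

noncomputable section

namespace LCQG

variable {H : Type*} [NormedAddCommGroup H] [InnerProductSpace ℂ H] [CompleteSpace H]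
variable {W : HT H H ≃ₗᵢ[ℂ] HT H H}

private theorem ampR_add' (a b : H →L[ℂ] H) :
    (ampR (a + b) : HT H H →L[ℂ] HT H H) = ampR a + ampR b :=
  HT.ext_clm fun x y => by simp [tm_add_right]

private theorem ampR_smul' (c : ℂ) (a : H →L[ℂ] H) :
    (ampR (c • a) : HT H H →L[ℂ] HT H H) = c • ampR a :=
  HT.ext_clm fun x y => by simp [tm_smul_right]

private theorem norm_ampR_inner_le (a : H →L[ℂ] H) (z w : HT H H) :
    ‖⟪z, ampR a w⟫_ℂ‖ ≤ ‖z‖ * ‖w‖ * ‖a‖ := by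
  calc ‖⟪z, ampR a w⟫_ℂ‖ ≤ ‖z‖ * ‖(ampR a : HT H H →L[ℂ] HT H H) w‖ := norm_inner_le_norm _ _
    _ ≤ ‖z‖ * (‖a‖ * ‖w‖) := by
        gcongr
        exact ((ampR a : HT H H →L[ℂ] HT H H).le_opNorm w).trans
          (mul_le_mul_of_nonneg_right (norm_ampR_le a) (norm_nonneg _))
    _ = ‖z‖ * ‖w‖ * ‖a‖ := by ring

private def tF2 (W : HT H H ≃ₗᵢ[ℂ] HT H H) (z w : HT H H) : DualT (C0 W) :=
  DualT.of _ (LinearMap.mkContinuous
    { toFun := fun x => ⟪z, ampR (SubT.val (C0 W) x) w⟫_ℂ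
      map_add' := fun x y => by
        rw [map_add, ampR_add', add_apply, inner_add_right]
      map_smul' := fun c x => by
        rw [map_smul, ampR_smul', smul_apply, inner_smul_right]; rfl } (‖z‖ * ‖w‖)
    (fun x => by
      change ‖⟪z, ampR (SubT.val (C0 W) x) w⟫_ℂ‖ ≤ _
      rw [← SubT.norm_val]
      exact norm_ampR_inner_le _ _ _))

private theorem tF2_apply (z w : HT H H) (x : SubT (C0 W)) :
    tF2 W z w x = ⟪z, ampR (SubT.val (C0 W) x) w⟫_ℂ := rfl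

private theorem norm_tF2_sub_le (z w : HT H H) :
    ‖tF2 W z z - tF2 W w w‖ ≤ (‖z‖ + ‖w‖) * ‖z - w‖ := by
  refine DualT.opNorm_le_bound _ (by positivity) fun x => ?_
  rw [DualT.sub_apply, tF2_apply, tF2_apply]
  have e : ⟪z, ampR (SubT.val (C0 W) x) z⟫_ℂ - ⟪w, ampR (SubT.val (C0 W) x) w⟫_ℂ =
      ⟪z, ampR (SubT.val (C0 W) x) (z - w)⟫_ℂ + ⟪z - w, ampR (SubT.val (C0 W) x) w⟫_ℂ := by
    rw [map_sub, inner_sub_right, inner_sub_left]; ring
  rw [e]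
  refine (norm_add_le _ _).trans ?_
  calc ‖⟪z, ampR (SubT.val (C0 W) x) (z - w)⟫_ℂ‖ + ‖⟪z - w, ampR (SubT.val (C0 W) x) w⟫_ℂ‖
      ≤ ‖z‖ * ‖z - w‖ * ‖SubT.val (C0 W) x‖ + ‖z - w‖ * ‖w‖ * ‖SubT.val (C0 W) x‖ :=
        add_le_add (norm_ampR_inner_le _ _ _) (norm_ampR_inner_le _ _ _)
    _ = (‖z‖ + ‖w‖) * ‖z - w‖ * ‖x‖ := by rw [SubT.norm_val]; ring

private theorem exists_on_sum (a : H ⊗[ℂ] H) :
    ∃ (n : ℕ) (e y : Fin n → H), Orthonormal ℂ e ∧ toHT H H a = ∑ i, tm (e i) (y i) := by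
  obtain ⟨M', hM, hs⟩ := TensorProduct.exists_finite_submodule_left_of_setFinite {a}
    (Set.finite_singleton a)
  obtain ⟨b, hb⟩ := Set.singleton_subset_iff.mp hs
  let e := stdOrthonormalBasis ℂ M'
  refine ⟨_, fun i => (e i : H), ?_⟩
  have ho : Orthonormal ℂ (fun i => (e i : H)) := by
    have := e.orthonormal
    exact this.comp_linearIsometry M'.subtypeₗᵢ
  have key : ∀ b : M' ⊗[ℂ] H, ∃ y : Fin _ → H,
      LinearMap.rTensor H M'.subtype b = ∑ i, (e i : H) ⊗ₜ[ℂ] y i := by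
    intro b
    refine TensorProduct.induction_on b ?_ ?_ ?_
    · exact ⟨fun _ => 0, by simp⟩
    · intro m x
      refine ⟨fun i => ⟪e i, m⟫_ℂ • x, ?_⟩
      rw [LinearMap.rTensor_tmul]
      simp_rw [TensorProduct.tmul_smul, TensorProduct.smul_tmul']
      rw [← TensorProduct.sum_tmul]
      congr 1
      conv_lhs => rw [← e.sum_repr' m]
      simp
    · rintro b b' ⟨y, hy⟩ ⟨y', hy'⟩
      refine ⟨fun i => y i + y' i, ?_⟩
      rw [map_add, hy, hy']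
      simp [TensorProduct.tmul_add, Finset.sum_add_distrib]
  obtain ⟨y, hy⟩ := key b
  refine ⟨y, ho, ?_⟩
  rw [← hb, hy, map_sum]
  rfl

private theorem norm_sum_on {n : ℕ} {e : Fin n → H} (he : Orthonormal ℂ e) (y : Fin n → H) :
    ‖∑ i, tm (e i) (y i)‖ ^ 2 = ∑ i, ‖y i‖ ^ 2 := by
  have h : ((‖∑ i, tm (e i) (y i)‖ ^ 2 : ℝ) : ℂ) = ((∑ i, ‖y i‖ ^ 2 : ℝ) : ℂ) := by
    have h1 : ⟪∑ i, tm (e i) (y i), ∑ i, tm (e i) (y i)⟫_ℂ =
        ((‖∑ i, tm (e i) (y i)‖ ^ 2 : ℝ) : ℂ) := by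
      rw [inner_self_eq_norm_sq_to_K]; push_cast; rfl
    rw [← h1, sum_inner]
    simp_rw [inner_sum, inner_tm_tm, orthonormal_iff_ite.mp he]
    simp [inner_self_eq_norm_sq_to_K]
  exact_mod_cast h

private theorem tF2_sum_on {n : ℕ} {e : Fin n → H} (he : Orthonormal ℂ e) (y : Fin n → H) :
    tF2 W (∑ i, tm (e i) (y i)) (∑ i, tm (e i) (y i)) = ∑ i, vecF (C0 W) (y i) (y i) := by
  refine DualT.ext fun x => ?_
  rw [tF2_apply, map_sum, sum_inner, DualT.sum_apply]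
  simp_rw [inner_sum, ampR_tm, inner_tm_tm, orthonormal_iff_ite.mp he, vecF_apply]
  simp

private theorem tF2_smul (c : ℝ) (z : HT H H) :
    tF2 W ((c : ℂ) • z) ((c : ℂ) • z) = ((c ^ 2 : ℝ) : ℂ) • tF2 W z z := by
  refine DualT.ext fun x => ?_
  rw [DualT.smul_apply, tF2_apply, tF2_apply, map_smul, inner_smul_left, inner_smul_right]
  simp
  ring

private theorem tF2_mem_of_range {a : H ⊗[ℂ] H} (ha : ‖toHT H H a‖ = 1) :
    tF2 W (toHT H H a) (toHT H H a) ∈ St W := by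
  obtain ⟨n, e, y, he, hy⟩ := exists_on_sum a
  rw [hy, tF2_sum_on he]
  refine mix_mem_St W y ?_
  rw [← norm_sum_on he, ← hy, ha]
  norm_num

private theorem tF2_mem {z : HT H H} (hz : ‖z‖ = 1) : tF2 W z z ∈ St W := by
  rw [← (St_closed W).closure_eq, Metric.mem_closure_iff]
  intro δ hδ
  set r : ℝ := min (δ / 5) (1 / 2) with hr
  have hr0 : 0 < r := lt_min (by positivity) (by norm_num)
  obtain ⟨a, ha⟩ := toHT_dense.exists_dist_lt z hr0
  set w : HT H H := toHT H H a with hw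
  have h1 : ‖z - w‖ < r := by rwa [dist_eq_norm] at ha
  have h2 : |‖z‖ - ‖w‖| ≤ ‖z - w‖ := abs_norm_sub_norm_le z w
  rw [hz] at h2
  have h3 := abs_le.mp h2
  have hr5 : r ≤ δ / 5 := min_le_left _ _
  have hr2 : r ≤ 1 / 2 := min_le_right _ _
  have hwpos : 0 < ‖w‖ := by linarith
  have hu : ‖(((‖w‖⁻¹ : ℝ) : ℂ)) • w‖ = 1 := by
    rw [norm_smul, Complex.norm_real, Real.norm_eq_abs, abs_of_pos (inv_pos.mpr hwpos)]
    exact inv_mul_cancel₀ hwpos.ne'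
  have hu2 : (((‖w‖⁻¹ : ℝ) : ℂ)) • w = toHT H H ((((‖w‖⁻¹ : ℝ) : ℂ)) • a) := by
    rw [map_smul]
  refine ⟨tF2 W ((((‖w‖⁻¹ : ℝ) : ℂ)) • w) ((((‖w‖⁻¹ : ℝ) : ℂ)) • w), ?_, ?_⟩
  · rw [hu2]
    refine tF2_mem_of_range ?_
    rw [← hu2, hu]
  · rw [dist_eq_norm]
    refine (norm_tF2_sub_le _ _).trans_lt ?_
    rw [hz, hu]
    have h4 : ‖w - (((‖w‖⁻¹ : ℝ) : ℂ)) • w‖ = |‖w‖ - 1| := by
      have : w - (((‖w‖⁻¹ : ℝ) : ℂ)) • w = ((1 - ‖w‖⁻¹ : ℝ) : ℂ) • w := by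
        push_cast
        rw [sub_smul, one_smul]
      rw [this, norm_smul, Complex.norm_real, Real.norm_eq_abs]
      have e1 : ‖w‖ - 1 = (1 - ‖w‖⁻¹) * ‖w‖ := by
        field_simp
      rw [e1, abs_mul, abs_norm]
    have h5 : ‖z - (((‖w‖⁻¹ : ℝ) : ℂ)) • w‖ ≤ ‖z - w‖ + |‖w‖ - 1| := by
      rw [← h4]
      calc ‖z - (((‖w‖⁻¹ : ℝ) : ℂ)) • w‖ = ‖(z - w) + (w - (((‖w‖⁻¹ : ℝ) : ℂ)) • w)‖ := by
            congr 1; abel
        _ ≤ _ := norm_add_le _ _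
    have h6 : |‖w‖ - 1| ≤ ‖z - w‖ := by
      rw [abs_sub_comm]; exact h2
    linarith

theorem mem_St_of_tensor {z : HT H H} (hz : ‖z‖ = 1) {φ : DualT (C0 W)}
    (hφ : ∀ x, φ x = ⟪z, ampR (SubT.val (C0 W) x) z⟫_ℂ) : φ ∈ St W := by
  have : φ = tF2 W z z := DualT.ext fun x => by rw [hφ, tF2_apply]
  rw [this]
  exact tF2_mem hz

private theorem conv_sum_mem (hW : Pentagon W) {m n : ℕ} (v : Fin m → H) (v' : Fin n → H)
    (hv : ∑ j, ‖v j‖ ^ 2 = 1) (hv' : ∑ j, ‖v' j‖ ^ 2 = 1) :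
    conv hW (∑ j, vecF (C0 W) (v j) (v j)) (∑ k, vecF (C0 W) (v' k) (v' k)) ∈ St W := by
  classical
  let z : Fin m × Fin n → HT H H := fun p => W (tm (v p.1) (v' p.2))
  have hzn : ∀ p, ‖z p‖ = ‖v p.1‖ * ‖v' p.2‖ := fun p => by
    simp only [z]
    rw [LinearIsometryEquiv.norm_map, norm_tm]
  have hsum : ∑ p, ‖z p‖ ^ 2 = 1 := by
    simp_rw [hzn, mul_pow]
    rw [Fintype.sum_prod_type]
    simp_rw [← Finset.mul_sum, hv', mul_one]
    exact hv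
  have hconv : conv hW (∑ j, vecF (C0 W) (v j) (v j)) (∑ k, vecF (C0 W) (v' k) (v' k)) =
      ∑ p, tF2 W (z p) (z p) := by
    rw [Fintype.sum_prod_type, map_sum (conv hW), _root_.sum_apply]
    refine Finset.sum_congr rfl fun j _ => ?_
    rw [map_sum]
    refine Finset.sum_congr rfl fun k _ => ?_
    refine DualT.ext fun x => ?_
    rw [conv_vecF_apply, tF2_apply]
  -- some unit vector
  obtain ⟨p0, hp0⟩ : ∃ p, z p ≠ 0 := by
    by_contra hcon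
    push Not at hcon
    simp [hcon] at hsum
  let g : Fin m × Fin n → DualT (C0 W) := fun p =>
    if z p = 0 then tF2 W ((((‖z p0‖⁻¹ : ℝ) : ℂ)) • z p0) ((((‖z p0‖⁻¹ : ℝ) : ℂ)) • z p0)
    else tF2 W ((((‖z p‖⁻¹ : ℝ) : ℂ)) • z p) ((((‖z p‖⁻¹ : ℝ) : ℂ)) • z p)
  have hunit : ∀ p, z p ≠ 0 → ‖(((‖z p‖⁻¹ : ℝ) : ℂ)) • z p‖ = 1 := fun p hp => by
    have : 0 < ‖z p‖ := norm_pos_iff.mpr hp
    rw [norm_smul, Complex.norm_real, Real.norm_eq_abs, abs_of_pos (inv_pos.mpr this)]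
    exact inv_mul_cancel₀ this.ne'
  have hg : ∀ p, g p ∈ St W := fun p => by
    simp only [g]
    split_ifs with h
    · exact tF2_mem (hunit p0 hp0)
    · exact tF2_mem (hunit p h)
  have hfin : ∑ p, tF2 W (z p) (z p) = ∑ p, (‖z p‖ ^ 2) • g p := by
    refine Finset.sum_congr rfl fun p _ => ?_
    by_cases h : z p = 0
    · rw [h]
      have h0 : tF2 W (0 : HT H H) 0 = 0 := DualT.ext fun x => by
        rw [tF2_apply]; simp
      rw [h0]; simp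
    · simp only [g, if_neg h]
      have hpos : 0 < ‖z p‖ := norm_pos_iff.mpr h
      rw [tF2_smul]
      have h1 : ‖z p‖ ^ 2 • (((‖z p‖⁻¹ ^ 2 : ℝ) : ℂ) • tF2 W (z p) (z p)) =
          ((‖z p‖ ^ 2 * ‖z p‖⁻¹ ^ 2 : ℝ) : ℂ) • tF2 W (z p) (z p) := by
        rw [← Complex.coe_smul, smul_smul]
        push_cast
        rfl
      rw [h1]
      have h2 : ‖z p‖ ^ 2 * ‖z p‖⁻¹ ^ 2 = 1 := by
        rw [← mul_pow, mul_inv_cancel₀ hpos.ne', one_pow]
      rw [h2]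
      simp
  rw [hconv, hfin]
  exact (St_convex W).sum_mem (fun p _ => by positivity) hsum (fun p _ => hg p)

theorem conv_mem_St (hW : Pentagon W) {φ ψ : DualT (C0 W)} (hφ : φ ∈ St W) (hψ : ψ ∈ St W) :
    conv hW φ ψ ∈ St W := by
  rw [← (St_closed W).closure_eq]
  refine map_mem_closure₂ (f := fun φ ψ => conv hW φ ψ) ?_ hφ hψ ?_
  · exact (conv hW).continuous₂
  · rintro _ ⟨m, v, hv, rfl⟩ _ ⟨n, v', hv', rfl⟩
    exact conv_sum_mem hW v v' hv hv'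

end LCQG
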