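import Mathlib
import Pool.Agent.Lib.MP_ea3264_an.Func
import Pool.Agent.Lib.MP_ea3264_an.StConv
import Pool.Agent.Lib.MP_ea3264_an.V.ExtL1

/-!
# The semigroup gives strong amenability of `𝔾` and `𝔾̂`

`backward_left`: `‖∑ ⟪u k, y k⟫‖ = lim_{t → 0} ‖∑ ⟪u k, lamM (μ t) (y k)⟫‖
= lim ‖μ t (∑ toCs (rhoS W) (u k) (y k))‖ ≤ ‖∑ rhoS W (u k) (y k)‖` (`inner_lamM`,
`St_norm_le`), so `exists_functional` with `T = 1`, `C = 1`, and `coAm_iff`.

`backward_right`. Put `x t = tilde U (lamM (μ t))`, `‖x t‖ = 1`, `IsExt U (1/4) (lamM (μ t)) (x t)`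
(`ext_L1`, `St_subset_L1`).
(a) For all `ξ η`: `‖tilde U (lam W ξ η * lamM (μ t)) - ⟪η, ξ⟫ • x t‖ → 0` as `t → ∞`: for
`ξ = η` a unit vector this is (i) for `ω = vecF ξ ξ` (`tilde` is additive on `L1`:
`lamM ω * lamM (μ t) = lamM (conv ω (μ t))`, `ext_L1`, `IsExt.add`, `tilde_eq`); by scaling it
holds for `ξ = η` arbitrary and by polarization for all `ξ η`.
(b) Let `ξ`, `η` be nice with `e`, `e'`. Then (`Nice.shift`, `isExt_lam_nice`)
`IsExt U (1/4) (lam W (e (-i/4)) (e' (i/4))) (lam W ξ η)`, so by `IsExt.mul`, `tilde_eq`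
`tilde U (lam W (e (-i/4)) (e' (i/4)) * lamM (μ t)) = lam W ξ η * x t`. With (a) for the vectors
`e (-i/4)`, `e' (i/4)` and `⟪e' (i/4), e (-i/4)⟫ = ⟪η, ξ⟫` (`Nice.inner_const`):
`‖lam W ξ η * x t - ⟪η, ξ⟫ • x t‖ → 0`.
(c) For nice `ξ k`, `η k`, `a = ∑ lam W (ξ k) (η k)`, `χ = ∑ ⟪η k, ξ k⟫`: `‖a * x t - χ • x t‖ → 0`
and `‖x t‖ = 1` give `‖χ‖ ≤ ‖a‖`. By `nice_dense` and continuity (`continuous_lam`) this holds for
all vectors; `exists_functional` (`r = lamS W`, `T = 1`, `C = 1`) and `coAmDual_iff`.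
-/

set_option autoImplicit false
set_option linter.unusedSectionVars false

open scoped TensorProduct InnerProductSpace ComplexConjugate Topology
open ContinuousLinearMap Filter

noncomputable section

namespace LCQG

variable {H : Type*} [NormedAddCommGroup H] [InnerProductSpace ℂ H] [CompleteSpace H]

theorem backward_left (D : QData H) (h : HasSemigroup D.W D.U) : CoAm D.W := by
  obtain ⟨μ, m1, -, m3, -, -⟩ := h
  rw [coAm_iff]
  obtain ⟨ε, -, hε⟩ := exists_functional (rhoS D.W) (C := 1) zero_le_one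
    (1 : H →L[ℂ] H) (by
      intro n u y
      rw [one_mul]
      have k1 : Tendsto (fun t => ‖∑ k, ⟪u k, lamM D.W (μ t) (y k)⟫_ℂ‖) (𝓝[>] (0 : ℝ))
          (𝓝 ‖∑ k, ⟪u k, (1 : H →L[ℂ] H) (y k)⟫_ℂ‖) :=
        (tendsto_finsetSum _ fun k _ => m3 (u k) (y k)).norm
      refine le_of_tendsto k1 ?_
      filter_upwards [self_mem_nhdsWithin] with t ht
      have k2 : ∑ k, ⟪u k, lamM D.W (μ t) (y k)⟫_ℂ =
          μ t (∑ k, toCs (rhoS D.W) (u k) (y k)) := by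
        rw [map_sum]
        exact Finset.sum_congr rfl fun k _ => inner_lamM D.W (μ t) (u k) (y k)
      have k3 : ‖∑ k, toCs (rhoS D.W) (u k) (y k)‖ = ‖∑ k, rhoS D.W (u k) (y k)‖ := by
        rw [← SubT.norm_val, map_sum]
        congr 1
      rw [k2, ← k3]
      calc ‖μ t (∑ k, toCs (rhoS D.W) (u k) (y k))‖
          ≤ ‖μ t‖ * ‖∑ k, toCs (rhoS D.W) (u k) (y k)‖ := (μ t).le_opNorm _
        _ ≤ 1 * ‖∑ k, toCs (rhoS D.W) (u k) (y k)‖ := by
            gcongr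
            exact St_norm_le D.W (m1 t ht)
        _ = ‖∑ k, toCs (rhoS D.W) (u k) (y k)‖ := one_mul _)
  exact ⟨ε, hε⟩

/-- Polarization: a subspace which contains `B ξ ξ` for all unit vectors contains all `B ξ η`. -/
private theorem polar_mem {E : Type*} [AddCommGroup E] [Module ℂ E] (B : H → H → E)
    (hal : ∀ ξ ξ' η, B (ξ + ξ') η = B ξ η + B ξ' η)
    (har : ∀ ξ η η', B ξ (η + η') = B ξ η + B ξ η')
    (hsl : ∀ (c : ℂ) ξ η, B (c • ξ) η = c • B ξ η)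
    (hsr : ∀ (c : ℂ) ξ η, B ξ (c • η) = conj c • B ξ η)
    (V : Submodule ℂ E) (h : ∀ ξ : H, ‖ξ‖ = 1 → B ξ ξ ∈ V) (ξ η : H) : B ξ η ∈ V := by
  have h1 : ∀ ξ : H, B ξ ξ ∈ V := by
    intro ξ
    by_cases h0 : ξ = 0
    · have : B ξ ξ = 0 := by
        have := hsl 0 ξ ξ
        rw [zero_smul, zero_smul] at this
        rw [h0] at this ⊢
        exact this
      rw [this]
      exact V.zero_mem
    · have hn : (‖ξ‖ : ℂ) ≠ 0 := by
        simpa using h0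
      have h2 : ξ = (‖ξ‖ : ℂ) • ((‖ξ‖ : ℂ)⁻¹ • ξ) := by
        rw [smul_smul, mul_inv_cancel₀ hn, one_smul]
      have h3 : ‖(‖ξ‖ : ℂ)⁻¹ • ξ‖ = 1 := by
        rw [norm_smul, norm_inv, Complex.norm_real, norm_norm]
        exact inv_mul_cancel₀ (by simpa using h0)
      rw [h2, hsl, hsr]
      exact V.smul_mem _ (V.smul_mem _ (h _ h3))
  have h2 : ∀ ξ η : H, B ξ η + B η ξ ∈ V := by
    intro ξ η
    have h3 := V.sub_mem (V.sub_mem (h1 (ξ + η)) (h1 ξ)) (h1 η)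
    have h4 : B (ξ + η) (ξ + η) - B ξ ξ - B η η = B ξ η + B η ξ := by
      rw [hal, har, har]
      abel
    rwa [h4] at h3
  have h3 := V.smul_mem Complex.I (h2 ξ (Complex.I • η))
  have h4 : Complex.I • (B ξ (Complex.I • η) + B (Complex.I • η) ξ) = B ξ η - B η ξ := by
    rw [hsl, hsr, Complex.conj_I, smul_add, smul_smul, smul_smul, mul_neg, Complex.I_mul_I,
      neg_neg, one_smul, neg_smul, one_smul]
    abel
  rw [h4] at h3
  have h5 := V.smul_mem ((2 : ℂ)⁻¹) (V.add_mem h3 (h2 ξ η))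
  have h6 : (2 : ℂ)⁻¹ • (B ξ η - B η ξ + (B ξ η + B η ξ)) = B ξ η := by
    have : B ξ η - B η ξ + (B ξ η + B η ξ) = (2 : ℂ) • B ξ η := by
      rw [two_smul]
      abel
    rw [this, smul_smul, inv_mul_cancel₀ two_ne_zero, one_smul]
  rwa [h6] at h5

private theorem tilde_add (D : QData H) {φ ψ : DualT (C0 D.W)} (hφ : φ ∈ L1 D.W)
    (hψ : ψ ∈ L1 D.W) :
    tilde D.U (lamM D.W (φ + ψ)) = tilde D.U (lamM D.W φ) + tilde D.U (lamM D.W ψ) := by
  apply tilde_eq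
  have h := (ext_L1 D hφ).1.add (ext_L1 D hψ).1
  rwa [← slice_add] at h

private theorem tilde_smul (D : QData H) (c : ℂ) {φ : DualT (C0 D.W)} (hφ : φ ∈ L1 D.W) :
    tilde D.U (lamM D.W (c • φ)) = c • tilde D.U (lamM D.W φ) := by
  apply tilde_eq
  have h := (ext_L1 D hφ).1.smul c
  rwa [← slice_smul] at h

/-- Pairs `(φ, c)` such that `φ ⋆ μ t - c μ t` is small for large `t`. -/
private def asym (D : QData H) (μ : ℝ → DualT (C0 D.W)) :
    Submodule ℂ (DualT (C0 D.W) × ℂ) where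
  carrier := {p | (∀ t, 0 < t → conv D.pentagon p.1 (μ t) ∈ L1 D.W) ∧
    Tendsto (fun t => tilde D.U (lamM D.W (conv D.pentagon p.1 (μ t))) -
      p.2 • tilde D.U (lamM D.W (μ t))) atTop (𝓝 0)}
  zero_mem' := by
    have h0 : ∀ t, conv D.pentagon ((0 : DualT (C0 D.W) × ℂ).1) (μ t) = 0 := by
      intro t
      simp
    refine ⟨fun t _ => ?_, ?_⟩
    · rw [h0]
      exact (L1 D.W).zero_mem
    · have h1 : ∀ t, tilde D.U (lamM D.W (conv D.pentagon ((0 : DualT (C0 D.W) × ℂ).1) (μ t))) -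
          (0 : DualT (C0 D.W) × ℂ).2 • tilde D.U (lamM D.W (μ t)) = 0 := by
        intro t
        rw [h0]
        have h2 := tilde_smul D 0 (L1 D.W).zero_mem
        rw [zero_smul, zero_smul] at h2
        rw [h2]
        simp
      simp only [h1]
      exact tendsto_const_nhds
  add_mem' := by
    rintro p q ⟨h1, h2⟩ ⟨h3, h4⟩
    have h0 : ∀ t, conv D.pentagon (p + q).1 (μ t) =
        conv D.pentagon p.1 (μ t) + conv D.pentagon q.1 (μ t) := by
      intro t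
      rw [Prod.fst_add, map_add]
      rfl
    refine ⟨fun t ht => ?_, ?_⟩
    · rw [h0]
      exact (L1 D.W).add_mem (h1 t ht) (h3 t ht)
    · have h5 := h2.add h4
      rw [add_zero] at h5
      refine h5.congr' ?_
      filter_upwards [eventually_gt_atTop (0 : ℝ)] with t ht
      rw [h0, tilde_add D (h1 t ht) (h3 t ht), Prod.snd_add, add_smul]
      abel
  smul_mem' := by
    rintro c p ⟨h1, h2⟩
    have h0 : ∀ t, conv D.pentagon (c • p).1 (μ t) = c • conv D.pentagon p.1 (μ t) := by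
      intro t
      rw [Prod.smul_fst, map_smul]
      rfl
    refine ⟨fun t ht => ?_, ?_⟩
    · rw [h0]
      exact (L1 D.W).smul_mem c (h1 t ht)
    · have h5 := h2.const_smul c
      rw [smul_zero] at h5
      refine h5.congr' ?_
      filter_upwards [eventually_gt_atTop (0 : ℝ)] with t ht
      rw [h0, tilde_smul D c (h1 t ht), Prod.smul_snd, smul_sub, smul_eq_mul, mul_smul]

/-- Part (a). -/
theorem tilde_lam_mul (D : QData H) (μ : ℝ → DualT (C0 D.W)) (h1 : ∀ t, 0 < t → μ t ∈ St D.W)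
    (h : ∀ ω ∈ St D.W, Tendsto
      (fun t => ‖tilde D.U (lamM D.W ω * lamM D.W (μ t) - lamM D.W (μ t))‖) atTop (𝓝 0))
    (ξ η : H) :
    Tendsto (fun t => tilde D.U (lam D.W ξ η * lamM D.W (μ t)) -
      ⟪η, ξ⟫_ℂ • tilde D.U (lamM D.W (μ t))) atTop (𝓝 0) := by
  have key : ((vecF (C0 D.W) ξ η, ⟪η, ξ⟫_ℂ) : DualT (C0 D.W) × ℂ) ∈ asym D μ := by
    refine polar_mem (fun ξ η => ((vecF (C0 D.W) ξ η, ⟪η, ξ⟫_ℂ) : DualT (C0 D.W) × ℂ))
      ?_ ?_ ?_ ?_ (asym D μ) ?_ ξ η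
    · intro ξ ξ' η
      refine Prod.ext ?_ ?_
      · exact vecF_add_left (C0 D.W) ξ ξ' η
      · exact inner_add_right η ξ ξ'
    · intro ξ η η'
      refine Prod.ext ?_ ?_
      · exact vecF_add_right (C0 D.W) ξ η η'
      · exact inner_add_left η η' ξ
    · intro c ξ η
      refine Prod.ext ?_ ?_
      · exact vecF_smul_left (C0 D.W) c ξ η
      · exact inner_smul_right η ξ c
    · intro c ξ η
      refine Prod.ext ?_ ?_
      · exact vecF_smul_right (C0 D.W) c ξ η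
      · exact inner_smul_left η ξ c
    · intro ξ hξ
      have hSt : vecF (C0 D.W) ξ ξ ∈ St D.W := vecF_mem_St D.W hξ
      refine ⟨fun t ht => St_subset_L1 D.W (conv_mem_St D.pentagon hSt (h1 t ht)), ?_⟩
      have h2 := tendsto_zero_iff_norm_tendsto_zero.2 (h _ hSt)
      refine h2.congr' ?_
      filter_upwards [eventually_gt_atTop (0 : ℝ)] with t ht
      have h3 : conv D.pentagon (vecF (C0 D.W) ξ ξ) (μ t) ∈ L1 D.W :=
        St_subset_L1 D.W (conv_mem_St D.pentagon hSt (h1 t ht))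
      have h4 : μ t ∈ L1 D.W := St_subset_L1 D.W (h1 t ht)
      have h5 : lamM D.W (vecF (C0 D.W) ξ ξ) * lamM D.W (μ t) - lamM D.W (μ t) =
          lamM D.W (conv D.pentagon (vecF (C0 D.W) ξ ξ) (μ t) + (-1 : ℂ) • μ t) := by
        have h6 := slice_add (rhoS D.W) (conv D.pentagon (vecF (C0 D.W) ξ ξ) (μ t))
          ((-1 : ℂ) • μ t)
        have h7 := slice_smul (rhoS D.W) (-1 : ℂ) (μ t)
        change lamM D.W _ = lamM D.W _ + lamM D.W _ at h6
        change lamM D.W _ = _ • lamM D.W _ at h7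
        rw [h6, h7, lamM_conv, neg_smul, one_smul, sub_eq_add_neg]
      rw [h5, tilde_add D h3 ((L1 D.W).smul_mem _ h4), tilde_smul D _ h4]
      change _ = tilde D.U (lamM D.W (conv D.pentagon (vecF (C0 D.W) ξ ξ) (μ t))) -
        ⟪ξ, ξ⟫_ℂ • tilde D.U (lamM D.W (μ t))
      rw [inner_self_eq_norm_sq_to_K, hξ, neg_smul, one_smul, sub_eq_add_neg]
      simp
  have h2 := key.2
  refine h2.congr fun t => ?_
  change tilde D.U (lamM D.W (conv D.pentagon (vecF (C0 D.W) ξ η) (μ t))) - _ = _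
  rw [lamM_conv, lamM_vecF]

/-- Part (b). -/
theorem lam_mul_tilde (D : QData H) (μ : ℝ → DualT (C0 D.W)) (h1 : ∀ t, 0 < t → μ t ∈ St D.W)
    (h : ∀ ω ∈ St D.W, Tendsto
      (fun t => ‖tilde D.U (lamM D.W ω * lamM D.W (μ t) - lamM D.W (μ t))‖) atTop (𝓝 0))
    {ξ η : H} {e e' : ℂ → H} (he : Nice D.U ξ e) (he' : Nice D.U η e') :
    Tendsto (fun t => lam D.W ξ η * tilde D.U (lamM D.W (μ t)) -
      ⟪η, ξ⟫_ℂ • tilde D.U (lamM D.W (μ t))) atTop (𝓝 0) := by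
  have k1 := tilde_lam_mul D μ h1 h (e (-(Complex.I / 4))) (e' (Complex.I / 4))
  have k2 : IsExt D.U (1 / 4) (lam D.W (e (-(Complex.I / 4))) (e' (Complex.I / 4)))
      (lam D.W ξ η) := by
    have k3 := isExt_lam_nice D (he.shift D.U_add (-(Complex.I / 4)))
      (he'.shift D.U_add (Complex.I / 4)) (1 / 4)
    have k4 : (((1 / 4 : ℝ) : ℂ) * Complex.I) + (-(Complex.I / 4)) = 0 := by
      push_cast
      ring
    have k5 : -(((1 / 4 : ℝ) : ℂ) * Complex.I) + (Complex.I / 4) = 0 := by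
      push_cast
      ring
    rw [k4, k5, he.zero D.U_add, he'.zero D.U_add] at k3
    exact k3
  have k6 : ⟪e' (Complex.I / 4), e (-(Complex.I / 4))⟫_ℂ = ⟪η, ξ⟫_ℂ := by
    have k7 := he.inner_const D.U_add he' (-(Complex.I / 4))
    have k8 : conj (-(Complex.I / 4)) = Complex.I / 4 := by
      have h4 : conj (4 : ℂ) = 4 := Complex.conj_ofNat 4
      rw [map_neg, map_div₀, Complex.conj_I, h4]
      ring
    rw [k8] at k7
    exact k7
  rw [k6] at k1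
  refine k1.congr' ?_
  filter_upwards [eventually_gt_atTop (0 : ℝ)] with t ht
  have k9 := k2.mul D.U_add (ext_L1 D (St_subset_L1 D.W (h1 t ht))).1
  rw [tilde_eq k9]

private theorem bound_nice (D : QData H) (μ : ℝ → DualT (C0 D.W))
    (h1 : ∀ t, 0 < t → μ t ∈ St D.W)
    (h : ∀ ω ∈ St D.W, Tendsto
      (fun t => ‖tilde D.U (lamM D.W ω * lamM D.W (μ t) - lamM D.W (μ t))‖) atTop (𝓝 0))
    (h5 : ∀ t, 0 < t → ‖tilde D.U (lamM D.W (μ t))‖ = 1)
    {n : ℕ} (u y : Fin n → H) (hu : ∀ k, ∃ e, Nice D.U (u k) e)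
    (hy : ∀ k, ∃ e, Nice D.U (y k) e) :
    ‖∑ k, ⟪u k, y k⟫_ℂ‖ ≤ ‖∑ k, lam D.W (y k) (u k)‖ := by
  choose eu heu using hu
  choose ey hey using hy
  have k1 : Tendsto (fun t => ∑ k, (lam D.W (y k) (u k) * tilde D.U (lamM D.W (μ t)) -
      ⟪u k, y k⟫_ℂ • tilde D.U (lamM D.W (μ t)))) atTop (𝓝 0) := by
    have := tendsto_finsetSum (Finset.univ : Finset (Fin n)) fun k _ =>
      lam_mul_tilde D μ h1 h (hey k) (heu k)
    simpa using this
  have k2 : Tendsto (fun t => ‖∑ k, lam D.W (y k) (u k)‖ +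
      ‖∑ k, (lam D.W (y k) (u k) * tilde D.U (lamM D.W (μ t)) -
      ⟪u k, y k⟫_ℂ • tilde D.U (lamM D.W (μ t)))‖) atTop
      (𝓝 (‖∑ k, lam D.W (y k) (u k)‖ + ‖(0 : H →L[ℂ] H)‖)) :=
    tendsto_const_nhds.add k1.norm
  rw [norm_zero, add_zero] at k2
  refine ge_of_tendsto k2 ?_
  filter_upwards [eventually_gt_atTop (0 : ℝ)] with t ht
  set x := tilde D.U (lamM D.W (μ t)) with hx
  have hx1 : ‖x‖ = 1 := h5 t ht
  have k3 : (∑ k, ⟪u k, y k⟫_ℂ) • x = (∑ k, lam D.W (y k) (u k)) * x -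
      ∑ k, (lam D.W (y k) (u k) * x - ⟪u k, y k⟫_ℂ • x) := by
    rw [Finset.sum_sub_distrib, Finset.sum_mul, Finset.sum_smul]
    abel
  calc ‖∑ k, ⟪u k, y k⟫_ℂ‖ = ‖(∑ k, ⟪u k, y k⟫_ℂ) • x‖ := by rw [norm_smul, hx1, mul_one]
    _ ≤ ‖(∑ k, lam D.W (y k) (u k)) * x‖ +
        ‖∑ k, (lam D.W (y k) (u k) * x - ⟪u k, y k⟫_ℂ • x)‖ := by
        rw [k3]
        exact norm_sub_le _ _
    _ ≤ ‖∑ k, lam D.W (y k) (u k)‖ +
        ‖∑ k, (lam D.W (y k) (u k) * x - ⟪u k, y k⟫_ℂ • x)‖ := by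
        gcongr
        calc ‖(∑ k, lam D.W (y k) (u k)) * x‖ ≤ ‖∑ k, lam D.W (y k) (u k)‖ * ‖x‖ :=
              norm_mul_le _ _
          _ = ‖∑ k, lam D.W (y k) (u k)‖ := by rw [hx1, mul_one]

private theorem backward_bound (D : QData H) (μ : ℝ → DualT (C0 D.W))
    (m1 : ∀ t, 0 < t → μ t ∈ St D.W)
    (m4 : ∀ ω ∈ St D.W, Tendsto
      (fun t => ‖tilde D.U (lamM D.W ω * lamM D.W (μ t) - lamM D.W (μ t))‖) atTop (𝓝 0))
    (m5 : ∀ t, 0 < t → ‖tilde D.U (lamM D.W (μ t))‖ = 1)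
    (n : ℕ) (u y : Fin n → H) :
    ‖∑ k, ⟪u k, y k⟫_ℂ‖ ≤ ‖∑ k, lam D.W (y k) (u k)‖ := by
  have hap : ∀ (x : H) (m : ℕ), ∃ x' : H, (∃ e, Nice D.U x' e) ∧
      ‖x' - x‖ ≤ 1 / ((m : ℝ) + 1) := by
    intro x m
    obtain ⟨x', e, k1, k2⟩ := nice_dense D.U_add D.U_cont x
      (δ := 1 / ((m : ℝ) + 1)) (by positivity)
    exact ⟨x', ⟨e, k1⟩, k2⟩
  choose ap hap1 hap2 using hap
  have hlim : ∀ x, Tendsto (fun m => ap x m) atTop (𝓝 x) := by
    intro x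
    rw [tendsto_iff_norm_sub_tendsto_zero]
    exact squeeze_zero (fun m => norm_nonneg _) (hap2 x)
      tendsto_one_div_add_atTop_nhds_zero_nat
  have k1 : Tendsto (fun m => ‖∑ k, ⟪ap (u k) m, ap (y k) m⟫_ℂ‖) atTop
      (𝓝 ‖∑ k, ⟪u k, y k⟫_ℂ‖) :=
    (tendsto_finsetSum _ fun k _ => (hlim (u k)).inner (hlim (y k))).norm
  have k6 : ∀ k, Tendsto (fun m => lam D.W (ap (y k) m) (ap (u k) m)) atTop
      (𝓝 (lam D.W (y k) (u k))) := by
    intro k
    have k3 : Tendsto (fun m => (ap (y k) m, ap (u k) m)) atTop (𝓝 (y k, u k)) :=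
      (hlim (y k)).prodMk_nhds (hlim (u k))
    have k7 := ((continuous_lam D.W).tendsto (y k, u k)).comp k3
    simpa only [Function.comp_def] using k7
  have k2 : Tendsto (fun m => ‖∑ k, lam D.W (ap (y k) m) (ap (u k) m)‖) atTop
      (𝓝 ‖∑ k, lam D.W (y k) (u k)‖) := by
    have k8 : Tendsto (fun m => ∑ k, lam D.W (ap (y k) m) (ap (u k) m)) atTop
        (𝓝 (∑ k, lam D.W (y k) (u k))) := tendsto_finsetSum _ fun k _ => k6 k
    exact k8.norm
  refine le_of_tendsto_of_tendsto' k1 k2 fun m => ?_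
  have k4 : ∀ k, ∃ e, Nice D.U (ap (u k) m) e := fun k => hap1 (u k) m
  have k5 : ∀ k, ∃ e, Nice D.U (ap (y k) m) e := fun k => hap1 (y k) m
  exact bound_nice D μ m1 m4 m5 (fun k => ap (u k) m) (fun k => ap (y k) m) k4 k5

theorem backward_right (D : QData H) (h : HasSemigroup D.W D.U) : CoAmDual D.W := by
  obtain ⟨μ, m1, -, -, m4, m5⟩ := h
  rw [coAmDual_iff]
  have key : ∀ (n : ℕ) (u y : Fin n → H), ‖∑ k, ⟪u k, (1 : H →L[ℂ] H) (y k)⟫_ℂ‖ ≤
      1 * ‖∑ k, lamS D.W (u k) (y k)‖ := by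
    intro n u y
    have h1 := backward_bound D μ m1 m4 m5 n u y
    rw [one_mul]
    have h2 : ∑ k, lamS D.W (u k) (y k) = ∑ k, lam D.W (y k) (u k) :=
      Finset.sum_congr rfl fun k _ => lamS_apply _ _ _
    rw [h2]
    exact h1
  obtain ⟨ε, -, hε⟩ := exists_functional (lamS D.W) (C := 1) zero_le_one (1 : H →L[ℂ] H) key
  exact ⟨ε, hε⟩

end LCQG
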