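import Mathlib
import Pool.Agent.Lib.MP_ea3264_an.AppInv
import Pool.Agent.Lib.MP_ea3264_an.VecConv
import Pool.Agent.Lib.MP_ea3264_an.StBasic

/-!
# Approximately invariant normal states

For vector states `a = ω_{y k}`, `k : Fin n`: apply `app_right` to the `y k` with
`δ' = (δ/2)²`, `g = ∑ j, vecF (v j) (v j)`, and `norm_conv_mix_right`. For general finite
`F ⊆ St W` choose (`St_approx`) for each `a ∈ F` vectors `w_{a,i}` with `∑ i, ‖w_{a,i}‖² = 1` and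
`‖a - ∑ i, ω_{w_{a,i}}‖ ≤ δ / 2`, apply the vector case with `δ / 2` to all normalized nonzero
`w_{a,i}`, and use `‖g‖ ≤ 1`, `norm_conv_le`, `∑ i, ‖w_{a,i}‖² • g = g`.
-/

set_option autoImplicit false
set_option linter.unusedSectionVars false

open scoped TensorProduct InnerProductSpace ComplexConjugate Topology
open ContinuousLinearMap Filter

noncomputable section

namespace LCQG

variable {H : Type*} [NormedAddCommGroup H] [InnerProductSpace ℂ H] [CompleteSpace H]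
variable {W : HT H H ≃ₗᵢ[ℂ] HT H H}

theorem exists_inv_vec [Nontrivial H] (hW : Pentagon W) {ε : DualT (C0h W)}
    (hε : rhoM W ε = 1) (n : ℕ) (y : Fin n → H) (hy : ∀ k, ‖y k‖ = 1) {δ : ℝ} (hδ : 0 < δ) :
    ∃ g ∈ St W, ∀ k, ‖conv hW (vecF (C0 W) (y k) (y k)) g - g‖ ≤ δ := by
  obtain ⟨m, v, hv, h⟩ := app_right hW hε n y (δ := (δ / 2) ^ 2) (by positivity)
  refine ⟨∑ j, vecF (C0 W) (v j) (v j), mix_mem_St W v hv, fun k => ?_⟩
  refine (norm_conv_mix_right hW v hv (hy k)).trans ?_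
  have h1 : √(∑ j, ‖W (tm (y k) (v j)) - tm (y k) (v j)‖ ^ 2) ≤ δ / 2 := by
    rw [← Real.sqrt_sq (show (0 : ℝ) ≤ δ / 2 by positivity)]
    exact Real.sqrt_le_sqrt (h k)
  linarith

/-- the same with an arbitrary finite index type and unnormalized vectors -/
private theorem inv_fam [Nontrivial H] (hW : Pentagon W) {ε : DualT (C0h W)}
    (hε : rhoM W ε = 1) {ι : Type*} [Fintype ι] (w : ι → H) {δ : ℝ} (hδ : 0 < δ) :
    ∃ g ∈ St W, ∀ i, ‖conv hW (vecF (C0 W) (w i) (w i)) g - ((‖w i‖ ^ 2 : ℝ) : ℂ) • g‖ ≤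
      ‖w i‖ ^ 2 * δ := by
  classical
  obtain ⟨e0, he0⟩ := exists_ne (0 : H)
  have hne : (‖e0‖ : ℂ) ≠ 0 := by
    rw [Ne, Complex.ofReal_eq_zero, norm_eq_zero]
    exact he0
  -- the normalized vectors
  let nv : H → H := fun x => if x = 0 then (‖e0‖ : ℂ)⁻¹ • e0 else (‖x‖ : ℂ)⁻¹ • x
  have hnorm : ∀ x : H, x ≠ 0 → ‖(‖x‖ : ℂ)⁻¹ • x‖ = 1 := fun x hx => by
    rw [norm_smul, norm_inv, Complex.norm_real, norm_norm,
      inv_mul_cancel₀ (norm_ne_zero_iff.2 hx)]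
  have hnv : ∀ x, ‖nv x‖ = 1 := fun x => by
    by_cases hx : x = 0
    · show ‖if x = 0 then (‖e0‖ : ℂ)⁻¹ • e0 else (‖x‖ : ℂ)⁻¹ • x‖ = 1
      rw [if_pos hx]
      exact hnorm e0 he0
    · show ‖if x = 0 then (‖e0‖ : ℂ)⁻¹ • e0 else (‖x‖ : ℂ)⁻¹ • x‖ = 1
      rw [if_neg hx]
      exact hnorm x hx
  have hmul : ∀ x, (‖x‖ : ℂ) • nv x = x := fun x => by
    by_cases hx : x = 0
    · rw [hx, norm_zero, Complex.ofReal_zero, zero_smul]
    · show (‖x‖ : ℂ) • (if x = 0 then (‖e0‖ : ℂ)⁻¹ • e0 else (‖x‖ : ℂ)⁻¹ • x) = x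
      rw [if_neg hx, smul_smul, mul_inv_cancel₀, one_smul]
      rw [Ne, Complex.ofReal_eq_zero, norm_eq_zero]
      exact hx
  obtain ⟨g, hg, h⟩ := exists_inv_vec hW hε (Fintype.card ι)
    (fun k => nv (w ((Fintype.equivFin ι).symm k))) (fun k => hnv _) hδ
  refine ⟨g, hg, fun i => ?_⟩
  have h1 := h (Fintype.equivFin ι i)
  rw [Equiv.symm_apply_apply] at h1
  have h2 : vecF (C0 W) (w i) (w i) = ((‖w i‖ ^ 2 : ℝ) : ℂ) • vecF (C0 W) (nv (w i)) (nv (w i)) := by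
    conv_lhs => rw [← hmul (w i)]
    rw [vecF_smul_left, vecF_smul_right, smul_smul, Complex.conj_ofReal]
    congr 1
    push_cast
    ring
  rw [h2, map_smul, smul_apply, ← smul_sub, norm_smul, Complex.norm_real, Real.norm_eq_abs,
    abs_of_nonneg (sq_nonneg _)]
  exact mul_le_mul_of_nonneg_left h1 (sq_nonneg _)

theorem exists_inv [Nontrivial H] (hW : Pentagon W) {ε : DualT (C0h W)}
    (hε : rhoM W ε = 1) (F : Set (DualT (C0 W))) (hF : F.Finite) (hFS : F ⊆ St W)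
    {δ : ℝ} (hδ : 0 < δ) :
    ∃ g ∈ St W, ∀ a ∈ F, ‖conv hW a g - g‖ ≤ δ := by
  classical
  have hδ2 : 0 < δ / 2 := by linarith
  have hap : ∀ a : F, ∃ (n : ℕ) (v : Fin n → H), ∑ j, ‖v j‖ ^ 2 = 1 ∧
      ‖(a : DualT (C0 W)) - ∑ j, vecF (C0 W) (v j) (v j)‖ ≤ δ / 2 := fun a =>
    St_approx W (hFS a.2) hδ2
  choose n v hv hva using hap
  have : Fintype F := hF.fintype
  obtain ⟨g, hg, h⟩ := inv_fam hW hε (ι := Σ a : F, Fin (n a)) (fun p => v p.1 p.2) hδ2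
  refine ⟨g, hg, fun a ha => ?_⟩
  have hg1 : ‖g‖ ≤ 1 := St_norm_le W hg
  set b : DualT (C0 W) := ∑ j, vecF (C0 W) (v ⟨a, ha⟩ j) (v ⟨a, ha⟩ j) with hb
  have e1 : conv hW a g - g = conv hW (a - b) g + (conv hW b g - g) := by
    rw [map_sub, sub_apply]
    abel
  have h1 : ‖conv hW (a - b) g‖ ≤ δ / 2 := by
    calc ‖conv hW (a - b) g‖ ≤ ‖a - b‖ * ‖g‖ := norm_conv_le hW _ _
      _ ≤ (δ / 2) * 1 := mul_le_mul (hva ⟨a, ha⟩) hg1 (norm_nonneg _) hδ2.le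
      _ = δ / 2 := mul_one _
  have h2 : ‖conv hW b g - g‖ ≤ δ / 2 := by
    have e2 : conv hW b g - g = ∑ j, (conv hW (vecF (C0 W) (v ⟨a, ha⟩ j) (v ⟨a, ha⟩ j)) g -
        ((‖v ⟨a, ha⟩ j‖ ^ 2 : ℝ) : ℂ) • g) := by
      rw [hb, map_sum, sum_apply, Finset.sum_sub_distrib, ← Finset.sum_smul,
        ← Complex.ofReal_sum, hv, Complex.ofReal_one, one_smul]
    rw [e2]
    refine (norm_sum_le _ _).trans ?_
    calc ∑ j, ‖conv hW (vecF (C0 W) (v ⟨a, ha⟩ j) (v ⟨a, ha⟩ j)) g -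
        ((‖v ⟨a, ha⟩ j‖ ^ 2 : ℝ) : ℂ) • g‖
        ≤ ∑ j, ‖v ⟨a, ha⟩ j‖ ^ 2 * (δ / 2) :=
          Finset.sum_le_sum fun j _ => h ⟨⟨a, ha⟩, j⟩
      _ = δ / 2 := by rw [← Finset.sum_mul, hv, one_mul]
  rw [e1]
  refine (norm_add_le _ _).trans ?_
  linarith

end LCQG
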