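import Mathlib
import Pool.Agent.Lib.MP_ea3264_an.Conv
import Pool.Agent.Lib.MP_ea3264_an.StBasic

/-!
# The unitary antipode

Let `R₀ a = conjBy D.Jh (adjoint a) = Ĵ a* Ĵ`, a complex linear isometric map of `B(H)`. From
`D.W_adj`, `inner_rho`, `inner_conjBy` one gets `R₀ (rho W y u) = rho W (J u) (J y)`:
`⟪η, R₀ (rho W y u) ξ⟫ = ⟪(rho W y u)* (Jh ξ), Jh η⟫ = ⟪Jh ξ, rho W y u (Jh η)⟫
 = ⟪tm (Jh ξ) u, W (tm (Jh η) y)⟫ = conj ⟪W (tm (Jh η) y), tm (Jh ξ) u⟫
 = conj ⟪W (tm ξ (J u)), tm η (J y)⟫` (by `W_adj` and `Jh_Jh`) `= ⟪tm η (J y), W (tm ξ (J u))⟫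
 = ⟪η, rho W (J u) (J y) ξ⟫`. Hence (`Cs_induction`, `C0 W` closed) `R₀` maps `C0 W` to itself.
Let `R φ = φ ∘ R₀`. Then
* `(R (vecF ξ η)) x = ⟪η, Jh x* Jh ξ⟫ = ⟪x* (Jh ξ), Jh η⟫ = ⟪Jh ξ, x (Jh η)⟫
   = vecF (Jh η) (Jh ξ) x`;
* `lamM W (R φ) = conjBy J (adjoint (lamM W φ))`: `⟪u, lamM W (R φ) y⟫ = φ (rho W (J u) (J y))
   = ⟪J y, lamM W φ (J u)⟫ = ⟪adjoint (lamM W φ) (J y), J u⟫` and `inner_conjBy`; so
  `R (φ ⋆ ψ) = (R ψ) ⋆ (R φ)` by `slice_injective`, `lamM_conv`;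
* `R` maps the set inside the closure in `St W` to itself (`‖Jh v‖ = ‖v‖`), and is continuous.
-/

set_option autoImplicit false
set_option linter.unusedSectionVars false

open scoped TensorProduct InnerProductSpace ComplexConjugate Topology
open ContinuousLinearMap Filter

noncomputable section

namespace LCQG

variable {H : Type*} [NormedAddCommGroup H] [InnerProductSpace ℂ H] [CompleteSpace H]

private theorem Ranti_mul (a b : H →L[ℂ] H) (x : H) : (a * b) x = a (b x) := rfl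

/-- `Ĵ a* Ĵ` -/
private def Ranti_R0 (D : QData H) (a : H →L[ℂ] H) : H →L[ℂ] H := conjBy D.Jh (adjoint a)

private theorem Ranti_inner (D : QData H) (a : H →L[ℂ] H) (u y : H) :
    ⟪u, Ranti_R0 D a y⟫_ℂ = ⟪D.Jh y, a (D.Jh u)⟫_ℂ := by
  unfold Ranti_R0
  rw [inner_conjBy D.Jh D.Jh_Jh, adjoint_inner_left]

private theorem Ranti_add (D : QData H) (a b : H →L[ℂ] H) :
    Ranti_R0 D (a + b) = Ranti_R0 D a + Ranti_R0 D b := by
  refine op_ext_inner fun u y => ?_
  rw [Ranti_inner, add_apply, add_apply, inner_add_right, inner_add_right, Ranti_inner,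
    Ranti_inner]

private theorem Ranti_smul (D : QData H) (c : ℂ) (a : H →L[ℂ] H) :
    Ranti_R0 D (c • a) = c • Ranti_R0 D a := by
  refine op_ext_inner fun u y => ?_
  rw [Ranti_inner, smul_apply, smul_apply, inner_smul_right, inner_smul_right, Ranti_inner]

private theorem Ranti_invol (D : QData H) (a : H →L[ℂ] H) :
    Ranti_R0 D (Ranti_R0 D a) = a := by
  refine op_ext_inner fun u y => ?_
  rw [Ranti_inner, Ranti_inner, D.Jh_Jh, D.Jh_Jh]

private theorem Ranti_norm (D : QData H) (a : H →L[ℂ] H) : ‖Ranti_R0 D a‖ = ‖a‖ := by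
  unfold Ranti_R0
  rw [norm_conjBy D.Jh D.Jh_Jh]
  exact LinearIsometryEquiv.norm_map adjoint a

private def Ranti_R0L (D : QData H) : (H →L[ℂ] H) →L[ℂ] (H →L[ℂ] H) :=
  LinearMap.mkContinuous
    { toFun := Ranti_R0 D
      map_add' := Ranti_add D
      map_smul' := Ranti_smul D } 1
    (fun a => by
      change ‖Ranti_R0 D a‖ ≤ 1 * ‖a‖
      rw [Ranti_norm, one_mul])

private theorem Ranti_rho (D : QData H) (y u : H) :
    Ranti_R0 D (rho D.W y u) = rho D.W (D.J u) (D.J y) := by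
  refine op_ext_inner fun η ξ => ?_
  rw [Ranti_inner, inner_rho, inner_rho]
  have h := D.W_adj (D.Jh ξ) (D.Jh η) u y
  rw [D.Jh_Jh, D.Jh_Jh] at h
  rw [← inner_conj_symm, h, inner_conj_symm]

private theorem Ranti_mem (D : QData H) (x : SubT (C0 D.W)) :
    Ranti_R0 D (SubT.val (C0 D.W) x) ∈ C0 D.W := by
  refine Cs_induction (rhoS D.W) (p := fun x => Ranti_R0 D (SubT.val (C0 D.W) x) ∈ C0 D.W) x
    ?_ ?_ ?_ ?_ ?_
  · have hcl : IsClosed ((C0 D.W : Submodule ℂ (H →L[ℂ] H)) : Set (H →L[ℂ] H)) :=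
      Submodule.isClosed_topologicalClosure _
    have hc : Continuous fun x : SubT (C0 D.W) => Ranti_R0 D (SubT.val (C0 D.W) x) :=
      (Ranti_R0L D).continuous.comp (SubT.val (C0 D.W)).continuous
    exact hcl.preimage hc
  · have h0 : Ranti_R0 D (SubT.val (C0 D.W) 0) = 0 := by
      rw [map_zero]
      exact (Ranti_R0L D).map_zero
    change Ranti_R0 D (SubT.val (C0 D.W) 0) ∈ C0 D.W
    rw [h0]
    exact Submodule.zero_mem _
  · intro x y hx hy
    rw [map_add, Ranti_add]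
    exact Submodule.add_mem _ hx hy
  · intro c x hx
    rw [map_smul, Ranti_smul]
    exact Submodule.smul_mem _ c hx
  · intro u y
    rw [val_toCs, rhoS_apply, Ranti_rho, ← rhoS_apply]
    exact mem_Cs _ _ _

private def Ranti_S (D : QData H) : SubT (C0 D.W) →L[ℂ] SubT (C0 D.W) :=
  LinearMap.mkContinuous
    { toFun := fun x => SubT.mk (C0 D.W) (Ranti_R0 D (SubT.val (C0 D.W) x)) (Ranti_mem D x)
      map_add' := fun x y => SubT.ext _ (by
        have h1 : Ranti_R0 D (SubT.val (C0 D.W) (x + y)) =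
            Ranti_R0 D (SubT.val (C0 D.W) x) + Ranti_R0 D (SubT.val (C0 D.W) y) := by
          rw [map_add, Ranti_add]
        exact h1)
      map_smul' := fun c x => SubT.ext _ (by
        have h1 : Ranti_R0 D (SubT.val (C0 D.W) (c • x)) =
            c • Ranti_R0 D (SubT.val (C0 D.W) x) := by
          rw [map_smul, Ranti_smul]
        exact h1) } 1
    (fun x => by
      change ‖SubT.mk (C0 D.W) (Ranti_R0 D (SubT.val (C0 D.W) x)) (Ranti_mem D x)‖ ≤ 1 * ‖x‖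
      rw [← SubT.norm_val, SubT.val_mk, Ranti_norm, one_mul, SubT.norm_val])

private theorem Ranti_S_val (D : QData H) (x : SubT (C0 D.W)) :
    SubT.val (C0 D.W) (Ranti_S D x) = Ranti_R0 D (SubT.val (C0 D.W) x) := rfl

private theorem Ranti_S_invol (D : QData H) (x : SubT (C0 D.W)) :
    Ranti_S D (Ranti_S D x) = x := by
  refine SubT.ext _ ?_
  rw [Ranti_S_val, Ranti_S_val, Ranti_invol]

private theorem Ranti_S_norm (D : QData H) (x : SubT (C0 D.W)) : ‖Ranti_S D x‖ = ‖x‖ := by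
  rw [← SubT.norm_val, Ranti_S_val, Ranti_norm, SubT.norm_val]

private theorem Ranti_S_toCs (D : QData H) (u y : H) :
    Ranti_S D (toCs (rhoS D.W) u y) = toCs (rhoS D.W) (D.J y) (D.J u) := by
  refine SubT.ext _ ?_
  rw [Ranti_S_val, val_toCs, val_toCs, rhoS_apply, rhoS_apply, Ranti_rho]

private def Ranti_Rf (D : QData H) (φ : DualT (C0 D.W)) : DualT (C0 D.W) :=
  DualT.of (C0 D.W) ((show SubT (C0 D.W) →L[ℂ] ℂ from φ).comp (Ranti_S D))

private theorem Ranti_Rf_apply (D : QData H) (φ : DualT (C0 D.W)) (x : SubT (C0 D.W)) :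
    Ranti_Rf D φ x = φ (Ranti_S D x) := rfl

private theorem Ranti_Rf_le (D : QData H) (φ : DualT (C0 D.W)) : ‖Ranti_Rf D φ‖ ≤ ‖φ‖ := by
  refine DualT.opNorm_le_bound _ (norm_nonneg _) fun x => ?_
  rw [Ranti_Rf_apply]
  refine (φ.le_opNorm _).trans ?_
  rw [Ranti_S_norm]

private def Ranti_R (D : QData H) : DualT (C0 D.W) →L[ℂ] DualT (C0 D.W) :=
  LinearMap.mkContinuous
    { toFun := Ranti_Rf D
      map_add' := fun φ ψ => DualT.ext fun x => by
        rw [DualT.add_apply, Ranti_Rf_apply, Ranti_Rf_apply, Ranti_Rf_apply, DualT.add_apply]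
      map_smul' := fun c φ => DualT.ext fun x => by
        rw [RingHom.id_apply, DualT.smul_apply, Ranti_Rf_apply, Ranti_Rf_apply,
          DualT.smul_apply] } 1
    (fun φ => by
      change ‖Ranti_Rf D φ‖ ≤ 1 * ‖φ‖
      rw [one_mul]
      exact Ranti_Rf_le D φ)

private theorem Ranti_R_apply (D : QData H) (φ : DualT (C0 D.W)) (x : SubT (C0 D.W)) :
    Ranti_R D φ x = φ (Ranti_S D x) := rfl

private theorem Ranti_R_invol (D : QData H) (φ : DualT (C0 D.W)) :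
    Ranti_R D (Ranti_R D φ) = φ := by
  refine DualT.ext fun x => ?_
  rw [Ranti_R_apply, Ranti_R_apply, Ranti_S_invol]

private theorem Ranti_lamM (D : QData H) (φ : DualT (C0 D.W)) (u y : H) :
    ⟪u, lamM D.W (Ranti_R D φ) y⟫_ℂ = ⟪D.J y, lamM D.W φ (D.J u)⟫_ℂ := by
  rw [inner_lamM, Ranti_R_apply, Ranti_S_toCs, inner_lamM]

private theorem Ranti_J_lamM (D : QData H) (φ : DualT (C0 D.W)) (y : H) :
    D.J (lamM D.W (Ranti_R D φ) y) = adjoint (lamM D.W φ) (D.J y) := by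
  have h : lamM D.W (Ranti_R D φ) y = D.J (adjoint (lamM D.W φ) (D.J y)) := by
    refine ext_inner_left ℂ fun u => ?_
    rw [Ranti_lamM, ← adjoint_inner_left]
    have h1 := inner_anti D.J (D.J u) (adjoint (lamM D.W φ) (D.J y))
    rw [D.J_J] at h1
    exact h1.symm
  rw [h, D.J_J]

private theorem Ranti_vecF (D : QData H) (ξ η : H) :
    Ranti_R D (vecF (C0 D.W) ξ η) = vecF (C0 D.W) (D.Jh η) (D.Jh ξ) := by
  refine DualT.ext fun x => ?_
  rw [Ranti_R_apply, vecF_apply, vecF_apply, Ranti_S_val, Ranti_inner]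

theorem exists_antipode (D : QData H) :
    ∃ R : DualT (C0 D.W) →L[ℂ] DualT (C0 D.W),
      (∀ φ, R (R φ) = φ) ∧ (∀ φ, ‖R φ‖ = ‖φ‖) ∧
      (∀ φ ψ, R (conv D.pentagon φ ψ) = conv D.pentagon (R ψ) (R φ)) ∧
      (∀ ξ η, R (vecF (C0 D.W) ξ η) = vecF (C0 D.W) (D.Jh η) (D.Jh ξ)) ∧
      (∀ φ ∈ St D.W, R φ ∈ St D.W) := by
  refine ⟨Ranti_R D, Ranti_R_invol D, fun φ => le_antisymm (Ranti_Rf_le D φ) ?_, fun φ ψ => ?_,
    Ranti_vecF D, fun φ hφ => ?_⟩
  · have h := Ranti_Rf_le D (Ranti_R D φ)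
    have h2 : Ranti_Rf D (Ranti_R D φ) = φ := Ranti_R_invol D φ
    rwa [h2] at h
  · refine slice_injective _ ?_
    change lamM D.W _ = lamM D.W _
    rw [lamM_conv]
    refine op_ext_inner fun u y => ?_
    rw [Ranti_lamM, lamM_conv, Ranti_mul, Ranti_mul, Ranti_lamM, Ranti_J_lamM,
      adjoint_inner_left]
  · refine map_mem_closure (Ranti_R D).continuous hφ ?_
    rintro _ ⟨n, v, hv, rfl⟩
    refine ⟨n, fun j => D.Jh (v j), ?_, ?_⟩
    · rw [← hv]
      exact Finset.sum_congr rfl fun j _ => by rw [LinearIsometryEquiv.norm_map]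
    · rw [map_sum]
      exact Finset.sum_congr rfl fun j _ => Ranti_vecF D _ _

end LCQG
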