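import Mathlib
import Pool.Agent.Lib.MP_ea3264_an.AppInv
import Pool.Agent.Lib.MP_ea3264_an.StConv
import Pool.Agent.Lib.MP_ea3264_an.Ranti

/-!
# Two-sided approximate units consisting of normal states

Step 1 (vector states, `exists_unit_vec`). Let `y k` be unit vectors. Apply `app_left` to the
family consisting of the `y k` and of the `J (Jh (y k))`, with `δ' = (δ/2)²`; let
`f = ∑ j, vecF (v j) (v j)`. By `norm_conv_mix_left`, `‖f ⋆ ω_{y k} - ω_{y k}‖ ≤ 2 √δ' ≤ δ`.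
With `R` from `exists_antipode`: `‖ω_{y k} ⋆ f - ω_{y k}‖ = ‖R (ω_{y k} ⋆ f - ω_{y k})‖ =
‖(R f) ⋆ ω_{Jh (y k)} - ω_{Jh (y k)}‖`, where `R f = ∑ j, vecF (Jh (v j)) (Jh (v j))`; by
`norm_conv_mix_left` again this is at most
`2 √(∑ j, ‖W (tm (Jh (v j)) (Jh (y k))) - tm (Jh (v j)) (Jh (y k))‖²)`, and for all `v`, `y`
`‖W (tm (Jh v) y) - tm (Jh v) y‖ = ‖W (tm v (J y)) - tm v (J y)‖` because
`⟪W (tm v (J y)), tm v (J y)⟫ = ⟪W (tm (Jh v) y), tm (Jh v) y⟫` (`W_adj`, `J_J`).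

Step 2. For a general finite `F ⊆ St W` choose (`St_approx`) for each `a ∈ F` vectors
`w_{a,i}` with `∑ i, ‖w_{a,i}‖² = 1` and `‖a - ∑ i, ω_{w_{a,i}}‖ ≤ δ / 4`, apply Step 1 with
`δ / 2` to all normalized nonzero `w_{a,i}`, and use `‖f‖ ≤ 1`, `norm_conv_le`.
-/

set_option autoImplicit false
set_option linter.unusedSectionVars false

open scoped TensorProduct InnerProductSpace ComplexConjugate Topology
open ContinuousLinearMap Filter

noncomputable section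

namespace LCQG

variable {H : Type*} [NormedAddCommGroup H] [InnerProductSpace ℂ H] [CompleteSpace H]

theorem norm_W_Jh (D : QData H) (v y : H) :
    ‖D.W (tm (D.Jh v) y) - tm (D.Jh v) y‖ = ‖D.W (tm v (D.J y)) - tm v (D.J y)‖ := by
  have h1 := D.W_adj (D.Jh v) (D.Jh v) y y
  rw [D.Jh_Jh] at h1
  have h2 : ‖D.W (tm (D.Jh v) y) - tm (D.Jh v) y‖ ^ 2 =
      ‖D.W (tm v (D.J y)) - tm v (D.J y)‖ ^ 2 := by
    rw [@norm_sub_sq ℂ, @norm_sub_sq ℂ, h1, LinearIsometryEquiv.norm_map,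
      LinearIsometryEquiv.norm_map, norm_tm, norm_tm, LinearIsometryEquiv.norm_map,
      LinearIsometryEquiv.norm_map]
  have h3 := congrArg Real.sqrt h2
  rwa [Real.sqrt_sq (norm_nonneg _), Real.sqrt_sq (norm_nonneg _)] at h3

theorem exists_unit_vec [Nontrivial H] (D : QData H) {ε : DualT (C0 D.W)}
    (hε : lamM D.W ε = 1) (n : ℕ) (y : Fin n → H) (hy : ∀ k, ‖y k‖ = 1) {δ : ℝ} (hδ : 0 < δ) :
    ∃ f ∈ St D.W, ∀ k,
      ‖conv D.pentagon f (vecF (C0 D.W) (y k) (y k)) - vecF (C0 D.W) (y k) (y k)‖ ≤ δ ∧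
      ‖conv D.pentagon (vecF (C0 D.W) (y k) (y k)) f - vecF (C0 D.W) (y k) (y k)‖ ≤ δ := by
  have hδ2 : 0 < (δ / 2) ^ 2 := by positivity
  obtain ⟨m, v, hv, h⟩ := app_left D.pentagon hε (n + n)
    (Fin.append y fun k => D.J (D.Jh (y k))) hδ2
  obtain ⟨R, hRR, hRn, hRc, hRv, _⟩ := exists_antipode D
  have hsq : √((δ / 2) ^ 2) = δ / 2 := Real.sqrt_sq (by positivity)
  refine ⟨∑ j, vecF (C0 D.W) (v j) (v j), mix_mem_St D.W v hv, fun k => ⟨?_, ?_⟩⟩
  · refine (norm_conv_mix_left D.pentagon v hv (hy k)).trans ?_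
    have h1 := h (Fin.castAdd n k)
    rw [Fin.append_left] at h1
    have h2 := Real.sqrt_le_sqrt h1
    rw [hsq] at h2
    linarith
  · have e1 : ‖conv D.pentagon (vecF (C0 D.W) (y k) (y k)) (∑ j, vecF (C0 D.W) (v j) (v j)) -
        vecF (C0 D.W) (y k) (y k)‖ =
        ‖conv D.pentagon (∑ j, vecF (C0 D.W) (D.Jh (v j)) (D.Jh (v j)))
          (vecF (C0 D.W) (D.Jh (y k)) (D.Jh (y k))) -
          vecF (C0 D.W) (D.Jh (y k)) (D.Jh (y k))‖ := by
      rw [← hRn, map_sub, hRc, hRv, map_sum]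
      simp only [hRv]
    rw [e1]
    have hv' : ∑ j, ‖D.Jh (v j)‖ ^ 2 = 1 := by
      rw [← hv]
      exact Finset.sum_congr rfl fun j _ => by rw [LinearIsometryEquiv.norm_map]
    have hy' : ‖D.Jh (y k)‖ = 1 := by rw [LinearIsometryEquiv.norm_map, hy k]
    refine (norm_conv_mix_left D.pentagon (fun j => D.Jh (v j)) hv' hy').trans ?_
    have h1 := h (Fin.natAdd n k)
    rw [Fin.append_right] at h1
    have e2 : ∑ j, ‖D.W (tm (D.Jh (v j)) (D.Jh (y k))) - tm (D.Jh (v j)) (D.Jh (y k))‖ ^ 2 =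
        ∑ j, ‖D.W (tm (v j) (D.J (D.Jh (y k)))) - tm (v j) (D.J (D.Jh (y k)))‖ ^ 2 :=
      Finset.sum_congr rfl fun j _ => by rw [norm_W_Jh]
    rw [e2]
    have h2 := Real.sqrt_le_sqrt h1
    rw [hsq] at h2
    linarith

/-- normalization -/
private theorem Units_normalize [Nontrivial H] (A : Submodule ℂ (H →L[ℂ] H)) (w : H) :
    ∃ y : H, ‖y‖ = 1 ∧ vecF A w w = (‖w‖ ^ 2 : ℂ) • vecF A y y := by
  by_cases hw : w = 0
  · obtain ⟨e, he⟩ := exists_norm_eq H (zero_le_one : (0 : ℝ) ≤ 1)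
    refine ⟨e, he, ?_⟩
    rw [hw]
    refine DualT.ext fun x => ?_
    simp
  · have hn : ‖w‖ ≠ 0 := norm_ne_zero_iff.2 hw
    have hn' : (‖w‖ : ℂ) ≠ 0 := by exact_mod_cast hn
    refine ⟨((‖w‖ : ℂ)⁻¹) • w, ?_, ?_⟩
    · rw [norm_smul, norm_inv, Complex.norm_real, norm_norm, inv_mul_cancel₀ hn]
    · rw [vecF_smul_left, vecF_smul_right, smul_smul, smul_smul]
      have : (‖w‖ ^ 2 : ℂ) * ((‖w‖ : ℂ)⁻¹ * conj ((‖w‖ : ℂ)⁻¹)) = 1 := by
        rw [map_inv₀, Complex.conj_ofReal]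
        field_simp
      rw [mul_assoc, this, one_smul]

theorem exists_unit [Nontrivial H] (D : QData H) {ε : DualT (C0 D.W)}
    (hε : lamM D.W ε = 1) (F : Set (DualT (C0 D.W))) (hF : F.Finite) (hFS : F ⊆ St D.W)
    {δ : ℝ} (hδ : 0 < δ) :
    ∃ f ∈ St D.W, ∀ a ∈ F, ‖conv D.pentagon f a - a‖ ≤ δ ∧ ‖conv D.pentagon a f - a‖ ≤ δ := by
  classical
  have hA : ∀ a : F, ∃ (n : ℕ) (v : Fin n → H), ∑ j, ‖v j‖ ^ 2 = 1 ∧
      ‖a.1 - ∑ j, vecF (C0 D.W) (v j) (v j)‖ ≤ δ / 4 := fun a =>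
    St_approx D.W (hFS a.2) (by positivity)
  choose n v hv hav using hA
  choose y hy1 hy2 using fun w : H => Units_normalize (C0 D.W) w
  have : Fintype F := hF.fintype
  -- the family of all unit vectors
  let I := Σ a : F, Fin (n a)
  let e : Fin (Fintype.card I) ≃ I := (Fintype.equivFin I).symm
  obtain ⟨f, hf, h⟩ := exists_unit_vec D hε (Fintype.card I)
    (fun k => y (v (e k).1 (e k).2)) (fun k => hy1 _) (half_pos hδ)
  have h' : ∀ (a : F) (j : Fin (n a)),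
      ‖conv D.pentagon f (vecF (C0 D.W) (y (v a j)) (y (v a j))) -
        vecF (C0 D.W) (y (v a j)) (y (v a j))‖ ≤ δ / 2 ∧
      ‖conv D.pentagon (vecF (C0 D.W) (y (v a j)) (y (v a j))) f -
        vecF (C0 D.W) (y (v a j)) (y (v a j))‖ ≤ δ / 2 := by
    intro a j
    have h1 := h (e.symm ⟨a, j⟩)
    have h2 : e (e.symm ⟨a, j⟩) = ⟨a, j⟩ := Equiv.apply_symm_apply e _
    rw [h2] at h1
    exact h1
  refine ⟨f, hf, fun a ha => ?_⟩
  have hf1 := St_norm_le D.W hf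
  set a' : F := ⟨a, ha⟩ with ha'
  set b : DualT (C0 D.W) := ∑ j, vecF (C0 D.W) (v a' j) (v a' j) with hb
  have hab : ‖a - b‖ ≤ δ / 4 := hav a'
  have hbnd : ∀ T : DualT (C0 D.W) →L[ℂ] DualT (C0 D.W),
      (∀ j, ‖T (vecF (C0 D.W) (y (v a' j)) (y (v a' j))) -
        vecF (C0 D.W) (y (v a' j)) (y (v a' j))‖ ≤ δ / 2) → ‖T b - b‖ ≤ δ / 2 := by
    intro T hT
    have e1 : T b - b = ∑ j, (‖v a' j‖ ^ 2 : ℂ) • (T (vecF (C0 D.W) (y (v a' j)) (y (v a' j))) -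
        vecF (C0 D.W) (y (v a' j)) (y (v a' j))) := by
      rw [hb, map_sum, ← Finset.sum_sub_distrib]
      refine Finset.sum_congr rfl fun j _ => ?_
      rw [hy2 (v a' j), map_smul, ← smul_sub]
    rw [e1]
    calc ‖∑ j, (‖v a' j‖ ^ 2 : ℂ) • (T (vecF (C0 D.W) (y (v a' j)) (y (v a' j))) -
          vecF (C0 D.W) (y (v a' j)) (y (v a' j)))‖
        ≤ ∑ j, ‖(‖v a' j‖ ^ 2 : ℂ) • (T (vecF (C0 D.W) (y (v a' j)) (y (v a' j))) -
          vecF (C0 D.W) (y (v a' j)) (y (v a' j)))‖ := norm_sum_le _ _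
      _ ≤ ∑ j, ‖v a' j‖ ^ 2 * (δ / 2) := by
          refine Finset.sum_le_sum fun j _ => ?_
          rw [norm_smul, norm_pow, Complex.norm_real, norm_norm]
          exact mul_le_mul_of_nonneg_left (hT j) (by positivity)
      _ = δ / 2 := by rw [← Finset.sum_mul, hv a', one_mul]
  constructor
  · have h1 : ‖conv D.pentagon f b - b‖ ≤ δ / 2 :=
      hbnd (conv D.pentagon f) fun j => (h' a' j).1
    have e1 : conv D.pentagon f a - a =
        conv D.pentagon f (a - b) + (conv D.pentagon f b - b) - (a - b) := by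
      rw [map_sub]
      abel
    rw [e1]
    have h2 : ‖conv D.pentagon f (a - b)‖ ≤ δ / 4 := by
      refine (norm_conv_le D.pentagon f (a - b)).trans ?_
      calc ‖f‖ * ‖a - b‖ ≤ 1 * ‖a - b‖ := mul_le_mul_of_nonneg_right hf1 (norm_nonneg _)
        _ ≤ δ / 4 := by rw [one_mul]; exact hab
    have h3 := norm_sub_le (conv D.pentagon f (a - b) + (conv D.pentagon f b - b)) (a - b)
    have h4 := norm_add_le (conv D.pentagon f (a - b)) (conv D.pentagon f b - b)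
    linarith
  · have h1 : ‖(conv D.pentagon).flip f b - b‖ ≤ δ / 2 :=
      hbnd ((conv D.pentagon).flip f) fun j => (h' a' j).2
    rw [ContinuousLinearMap.flip_apply] at h1
    have e1 : conv D.pentagon a f - a =
        conv D.pentagon (a - b) f + (conv D.pentagon b f - b) - (a - b) := by
      rw [map_sub, sub_apply]
      abel
    rw [e1]
    have h2 : ‖conv D.pentagon (a - b) f‖ ≤ δ / 4 := by
      refine (norm_conv_le D.pentagon (a - b) f).trans ?_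
      calc ‖a - b‖ * ‖f‖ ≤ ‖a - b‖ * 1 := mul_le_mul_of_nonneg_left hf1 (norm_nonneg _)
        _ ≤ δ / 4 := by rw [mul_one]; exact hab
    have h3 := norm_sub_le (conv D.pentagon (a - b) f + (conv D.pentagon b f - b)) (a - b)
    have h4 := norm_add_le (conv D.pentagon (a - b) f) (conv D.pentagon b f - b)
    linarith

end LCQG
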