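import Mathlib
import Pool.Agent.Lib.MP_ea3264_an.Units
import Pool.Agent.Lib.MP_ea3264_an.Inv
import Pool.Agent.Lib.MP_ea3264_an.Func
import Pool.Agent.Lib.MP_ea3264_an.S.Main

/-!
# The semigroup in `C₀(𝔾)^*`

Let `M = DualT (C0 W)`, `A = M →L[ℂ] M` (a unital Banach algebra, real via
`NormedAlgebra.complexToReal`). Let `ε` with `lamM W ε = 1` (`coAm_iff`). `‖ε‖ ≤ 1`:
`ε` is a character of the algebra `C0 W` (`C0_mul`, `eps_mul`), so `‖ε x‖ ≤ ‖x‖`
(`char_norm_le`). Let `Λ φ = conv hW φ ∈ A` (left convolution). Then `Λ (φ ⋆ ψ) = Λ φ * Λ ψ`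
(`conv_assoc`), `‖Λ φ‖ ≤ ‖φ‖` (`norm_conv_le`), `(Λ φ) ε = φ` (`conv_unit_right`), so `Λ` is
injective with closed range on closed sets: `S' = Λ '' (St W)` is closed (if `Λ φ_n → T` then
`φ_n = (Λ φ_n) ε → T ε ∈ St W` and `Λ (T ε) = T`), convex, multiplicative (`conv_mem_St`),
contained in the unit ball, nonempty, separable (image of a separable set). The hypotheses (U),
(I) of `Semi.exists_semigroup` follow from `exists_unit`, `exists_inv` (`coAmDual_iff`). Let `μ'`
be the semigroup obtained, `μ t = (μ' t) ε`; then `μ' t = Λ (μ t)` for `t > 0` and the four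
claims follow (evaluate at `ε`).
-/

set_option autoImplicit false
set_option linter.unusedSectionVars false

open scoped TensorProduct InnerProductSpace ComplexConjugate Topology
open ContinuousLinearMap Filter

noncomputable section

namespace LCQG

variable {H : Type*} [NormedAddCommGroup H] [InnerProductSpace ℂ H] [CompleteSpace H]

theorem eps_norm_le {W : HT H H ≃ₗᵢ[ℂ] HT H H} (hW : Pentagon W) {ε : DualT (C0 W)}
    (hε : lamM W ε = 1) : ‖ε‖ ≤ 1 := by
  refine DualT.opNorm_le_bound ε zero_le_one fun x => ?_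
  rw [one_mul]
  exact char_norm_le (C0 W) (fun a ha b hb => C0_mul hW ha hb) ε (eps_mul hW hε) x

private theorem norm_convL_le {W : HT H H ≃ₗᵢ[ℂ] HT H H} (hW : Pentagon W) (φ : DualT (C0 W)) :
    ‖conv hW φ‖ ≤ ‖φ‖ :=
  ContinuousLinearMap.opNorm_le_bound _ (norm_nonneg _) fun ψ => norm_conv_le hW φ ψ

private theorem convL_mul {W : HT H H ≃ₗᵢ[ℂ] HT H H} (hW : Pentagon W) (φ ψ : DualT (C0 W)) :
    conv hW φ * conv hW ψ = conv hW (conv hW φ ψ) := by
  ext1 χ
  exact (conv_assoc hW φ ψ χ).symm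

private theorem image_eq {W : HT H H ≃ₗᵢ[ℂ] HT H H} (hW : Pentagon W)
    {ε : DualT (C0 W)} (hε : lamM W ε = 1) :
    ((fun φ : DualT (C0 W) => conv hW φ) '' (St W)) =
      {T : DualT (C0 W) →L[ℂ] DualT (C0 W) | T ε ∈ St W ∧ conv hW (T ε) = T} := by
  ext T
  constructor
  · rintro ⟨φ, hφ, rfl⟩
    refine ⟨?_, ?_⟩
    · change conv hW φ ε ∈ St W
      rw [conv_unit_right hW hε]
      exact hφ
    · change conv hW (conv hW φ ε) = conv hW φ
      rw [conv_unit_right hW hε]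
  · rintro ⟨h1, h2⟩
    exact ⟨T ε, h1, h2⟩

theorem convSemi_image {W : HT H H ≃ₗᵢ[ℂ] HT H H} [Nontrivial H] (hW : Pentagon W)
    {ε : DualT (C0 W)} (hε : lamM W ε = 1) :
    Semi.ConvSemi ((fun φ : DualT (C0 W) => conv hW φ) '' (St W)) := by
  refine ⟨?_, ?_, ?_, ?_, ?_, ?_⟩
  · rintro _ ⟨φ, hφ, rfl⟩ _ ⟨ψ, hψ, rfl⟩ s t hs ht hst
    refine ⟨s • φ + t • ψ, St_convex W hφ hψ hs ht hst, ?_⟩
    change conv hW (s • φ + t • ψ) = s • conv hW φ + t • conv hW ψ
    rw [map_add]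
    congr 1
    · exact (conv hW).map_smul (s : ℂ) φ
    · exact (conv hW).map_smul (t : ℂ) ψ
  · rw [image_eq hW hε]
    have h1 : Continuous fun T : DualT (C0 W) →L[ℂ] DualT (C0 W) => T ε :=
      continuous_id.clm_apply continuous_const
    exact ((St_closed W).preimage h1).inter (isClosed_eq ((conv hW).continuous.comp h1)
      continuous_id)
  · rintro _ ⟨φ, hφ, rfl⟩ _ ⟨ψ, hψ, rfl⟩
    exact ⟨conv hW φ ψ, conv_mem_St hW hφ hψ, (convL_mul hW φ ψ).symm⟩
  · rintro _ ⟨φ, hφ, rfl⟩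
    exact (norm_convL_le hW φ).trans (St_norm_le W hφ)
  · exact (St_nonempty W).image _
  · exact ContinuousLinearMap.norm_id_le

theorem exists_mu [Nontrivial H] [TopologicalSpace.SeparableSpace H] (D : QData H)
    (h1 : CoAm D.W) (h2 : CoAmDual D.W) :
    ∃ μ : ℝ → DualT (C0 D.W), (∀ t, 0 < t → μ t ∈ St D.W) ∧
      (∀ s t, 0 < s → 0 < t → μ (s + t) = conv D.pentagon (μ s) (μ t)) ∧
      (∀ a ∈ St D.W, Tendsto (fun t => conv D.pentagon (μ t) a) (𝓝[>] 0) (𝓝 a)) ∧
      (∀ a ∈ St D.W, Tendsto (fun t => conv D.pentagon a (μ t) - μ t) atTop (𝓝 0)) := by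
  obtain ⟨ε, hε⟩ := (coAm_iff D.W).1 h1
  obtain ⟨ε', hε'⟩ := (coAmDual_iff D.W).1 h2
  set hW := D.pentagon with hWdef
  have hS := convSemi_image hW hε
  have him := image_eq hW hε
  have hsep : TopologicalSpace.IsSeparable ((fun φ : DualT (C0 D.W) => conv hW φ) '' (St D.W)) :=
    (St_separable D.W).image (conv hW).continuous
  have hev : ∀ T ∈ ((fun φ : DualT (C0 D.W) => conv hW φ) '' (St D.W)),
      T ε ∈ St D.W ∧ conv hW (T ε) = T := by
    intro T hT
    rw [him] at hT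
    exact hT
  obtain ⟨μ', m1, m2, m3, m4⟩ := Semi.exists_semigroup hS hsep
    (by
      intro F hF hFS δ hδ
      obtain ⟨f, hf, hf'⟩ := exists_unit D hε ((fun T => T ε) '' F) (hF.image _)
        (by rintro _ ⟨T, hT, rfl⟩; exact (hev T (hFS hT)).1) hδ
      refine ⟨conv hW f, ⟨f, hf, rfl⟩, ?_⟩
      intro a ha
      obtain ⟨k1, k2⟩ := hf' _ ⟨a, ha, rfl⟩
      have k3 := (hev a (hFS ha)).2
      constructor
      · have : conv hW f * a - a = conv hW (conv hW f (a ε) - a ε) := by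
          rw [map_sub, ← convL_mul, k3]
        rw [this]
        exact (norm_convL_le hW _).trans k1
      · have : a * conv hW f - a = conv hW (conv hW (a ε) f - a ε) := by
          rw [map_sub, ← convL_mul, k3]
        rw [this]
        exact (norm_convL_le hW _).trans k2)
    (by
      intro F hF hFS δ hδ
      obtain ⟨g, hg, hg'⟩ := exists_inv hW hε' ((fun T => T ε) '' F) (hF.image _)
        (by rintro _ ⟨T, hT, rfl⟩; exact (hev T (hFS hT)).1) hδ
      refine ⟨conv hW g, ⟨g, hg, rfl⟩, ?_⟩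
      intro a ha
      have k1 := hg' _ ⟨a, ha, rfl⟩
      have k3 := (hev a (hFS ha)).2
      have : a * conv hW g - conv hW g = conv hW (conv hW (a ε) g - g) := by
        rw [map_sub, ← convL_mul, k3]
      rw [this]
      exact (norm_convL_le hW _).trans k1)
  have hcont : Continuous fun T : DualT (C0 D.W) →L[ℂ] DualT (C0 D.W) => T ε :=
    continuous_id.clm_apply continuous_const
  refine ⟨fun t => μ' t ε, ?_, ?_, ?_, ?_⟩
  · intro t ht
    exact (hev _ (m1 t ht)).1
  · intro s t hs ht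
    change μ' (s + t) ε = conv hW (μ' s ε) (μ' t ε)
    rw [m2 s t hs ht, (hev _ (m1 s hs)).2]
    rfl
  · intro a ha
    have k1 := (hcont.tendsto _).comp (m3 (conv hW a) ⟨a, ha, rfl⟩)
    have k2 : (conv hW a) ε = a := conv_unit_right hW hε a
    rw [k2] at k1
    refine k1.congr' ?_
    filter_upwards [self_mem_nhdsWithin] with t ht
    change (μ' t) ((conv hW a) ε) = conv hW (μ' t ε) a
    rw [k2, (hev _ (m1 t ht)).2]
  · intro a ha
    have k1 := (hcont.tendsto _).comp (m4 (conv hW a) ⟨a, ha, rfl⟩)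
    exact k1

end LCQG
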