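import Mathlib
import Pool.Agent.Lib.MP_ea3264_an.Transfer
import Pool.Agent.Lib.MP_ea3264_an.V.Mass

/-!
# Strong amenability of `𝔾` and `𝔾̂` gives the semigroup

Let `μ` be as in `exists_mu`.
* the semigroup law is `lamM_conv`;
* weak continuity at `0`: for `a ∈ St W`, `lamM (μ t) (lamM a y) = lamM (conv (μ t) a) y →
  lamM a y` (`norm_lamM_le`). The span of the vectors `lamM a y`, `a ∈ St W`, `y : H`, is dense:
  it contains `lam W ξ ξ y = ‖ξ‖² lamM ω y` (`ω` the vector state of `ξ / ‖ξ‖`), so by polarization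
  (`lam` is sesquilinear) all `lam W ξ η y` (`dense_lam`). As `‖lamM (μ t)‖ ≤ ‖μ t‖ ≤ 1`, the set of
  `v` with `lamM (μ t) v → v` is a closed subspace.
* (i): `lamM ω * lamM (μ t) - lamM (μ t) = lamM (conv ω (μ t) - μ t)` (`slice_add`,
  `slice_smul`), `conv ω (μ t) - μ t ∈ L1 W` (`conv_mem_St`, `St_subset_L1`), so by `ext_L1`
  the norm of `tilde` of it is `≤ ‖conv ω (μ t) - μ t‖ → 0`.
* (ii): `≤ ‖μ t‖ ≤ 1` by `ext_L1` and `≥ 1` by `one_le_norm_tilde`.
-/

set_option autoImplicit false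
set_option linter.unusedSectionVars false

open scoped TensorProduct InnerProductSpace ComplexConjugate Topology
open ContinuousLinearMap Filter

noncomputable section

namespace LCQG

variable {H : Type*} [NormedAddCommGroup H] [InnerProductSpace ℂ H] [CompleteSpace H]

private theorem lamM_sub' (W : HT H H ≃ₗᵢ[ℂ] HT H H) (φ ψ : DualT (C0 W)) :
    lamM W (φ - ψ) = lamM W φ - lamM W ψ :=
  map_sub (sliceL (rhoS W) (norm_rhoS_le W)) φ ψ

private theorem continuous_lamM_apply (W : HT H H ≃ₗᵢ[ℂ] HT H H) (y : H) :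
    Continuous fun φ : DualT (C0 W) => lamM W φ y :=
  (sliceL (rhoS W) (norm_rhoS_le W)).continuous.clm_apply continuous_const

/-- The vectors on which `T t` converges to the identity. -/
private def goodV {l : Filter ℝ} (T : ℝ → H →L[ℂ] H) (hl : l = l) : Submodule ℂ H where
  carrier := {v | Tendsto (fun t => T t v) l (𝓝 v)}
  zero_mem' := by
    change Tendsto (fun t => T t 0) l (𝓝 0)
    simp only [map_zero]
    exact tendsto_const_nhds
  add_mem' := by
    intro a b ha hb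
    change Tendsto (fun t => T t (a + b)) l (𝓝 (a + b))
    simp only [map_add]
    exact Tendsto.add ha hb
  smul_mem' := by
    intro c a ha
    change Tendsto (fun t => T t (c • a)) l (𝓝 (c • a))
    simp only [map_smul]
    exact Tendsto.const_smul ha c

private theorem goodV_closed {l : Filter ℝ} (T : ℝ → H →L[ℂ] H)
    (hT : ∀ᶠ t in l, ‖T t‖ ≤ 1) {v : H}
    (hv : v ∈ (goodV (l := l) T rfl).topologicalClosure) :
    Tendsto (fun t => T t v) l (𝓝 v) := by
  rw [Metric.tendsto_nhds]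
  intro δ hδ
  have h1 : v ∈ closure ((goodV (l := l) T rfl : Submodule ℂ H) : Set H) := hv
  obtain ⟨w, hw, hvw⟩ := Metric.mem_closure_iff.1 h1 (δ / 3) (by positivity)
  have hw' : Tendsto (fun t => T t w) l (𝓝 w) := hw
  filter_upwards [hT, Metric.tendsto_nhds.1 hw' (δ / 3) (by positivity)] with t h2 h3
  rw [dist_eq_norm] at h3 hvw ⊢
  have h4 : T t v - v = T t (v - w) + (T t w - w) - (v - w) := by
    rw [map_sub]
    abel
  have h5 : ‖T t (v - w)‖ ≤ ‖v - w‖ := by
    calc ‖T t (v - w)‖ ≤ ‖T t‖ * ‖v - w‖ := (T t).le_opNorm _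
      _ ≤ 1 * ‖v - w‖ := by gcongr
      _ = ‖v - w‖ := one_mul _
  rw [h4]
  calc ‖T t (v - w) + (T t w - w) - (v - w)‖
      ≤ ‖T t (v - w) + (T t w - w)‖ + ‖v - w‖ := norm_sub_le _ _
    _ ≤ ‖T t (v - w)‖ + ‖T t w - w‖ + ‖v - w‖ := by
        gcongr
        exact norm_add_le _ _
    _ < δ := by linarith

private theorem lamq_add_left (W : HT H H ≃ₗᵢ[ℂ] HT H H) (ξ ξ' η : H) :
    lam W (ξ + ξ') η = lam W ξ η + lam W ξ' η := map_add (lamS W η) ξ ξ'

private theorem lamq_smul_left (W : HT H H ≃ₗᵢ[ℂ] HT H H) (c : ℂ) (ξ η : H) :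
    lam W (c • ξ) η = c • lam W ξ η := map_smul (lamS W η) c ξ

private theorem lamq_add_right (W : HT H H ≃ₗᵢ[ℂ] HT H H) (ξ η η' : H) :
    lam W ξ (η + η') = lam W ξ η + lam W ξ η' := by
  have h : lamS W (η + η') = lamS W η + lamS W η' := map_add (lamS W) η η'
  exact congrArg (fun L : H →L[ℂ] (H →L[ℂ] H) => L ξ) h

private theorem lamq_smul_right (W : HT H H ≃ₗᵢ[ℂ] HT H H) (c : ℂ) (ξ η : H) :
    lam W ξ (c • η) = conj c • lam W ξ η := by
  have h : lamS W (c • η) = conj c • lamS W η := (lamS W).map_smulₛₗ c η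
  exact congrArg (fun L : H →L[ℂ] (H →L[ℂ] H) => L ξ) h

/-- A subspace which contains all `lam W ξ ξ y`, `‖ξ‖ = 1`, contains all `lam W ξ η y`. -/
private theorem lam_mem (W : HT H H ≃ₗᵢ[ℂ] HT H H) (V : Submodule ℂ H) (y : H)
    (h : ∀ ξ : H, ‖ξ‖ = 1 → lam W ξ ξ y ∈ V) (ξ η : H) : lam W ξ η y ∈ V := by
  have h1 : ∀ ξ : H, lam W ξ ξ y ∈ V := by
    intro ξ
    by_cases h0 : ξ = 0
    · have : lam W ξ ξ = 0 := by
        rw [h0]
        exact map_zero (lamS W 0)
      rw [this]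
      exact V.zero_mem
    · have hn : (‖ξ‖ : ℂ) ≠ 0 := by
        simpa using h0
      have h2 : ξ = (‖ξ‖ : ℂ) • ((‖ξ‖ : ℂ)⁻¹ • ξ) := by
        rw [smul_smul, mul_inv_cancel₀ hn, one_smul]
      have h3 : ‖(‖ξ‖ : ℂ)⁻¹ • ξ‖ = 1 := by
        rw [norm_smul, norm_inv, Complex.norm_real, norm_norm]
        exact inv_mul_cancel₀ (by simpa using h0)
      rw [h2, lamq_smul_left, lamq_smul_right]
      exact V.smul_mem _ (V.smul_mem _ (h _ h3))
  have h2 : ∀ ξ η : H, lam W ξ η y + lam W η ξ y ∈ V := by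
    intro ξ η
    have h3 := V.sub_mem (V.sub_mem (h1 (ξ + η)) (h1 ξ)) (h1 η)
    have h4 : lam W (ξ + η) (ξ + η) y - lam W ξ ξ y - lam W η η y =
        lam W ξ η y + lam W η ξ y := by
      rw [lamq_add_left, lamq_add_right, lamq_add_right]
      simp only [ContinuousLinearMap.add_apply]
      abel
    rwa [h4] at h3
  have h3 := V.smul_mem Complex.I (h2 ξ (Complex.I • η))
  have h4 : Complex.I • (lam W ξ (Complex.I • η) y + lam W (Complex.I • η) ξ y) =
      lam W ξ η y - lam W η ξ y := by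
    rw [lamq_smul_left, lamq_smul_right, Complex.conj_I]
    simp only [ContinuousLinearMap.smul_apply, smul_add, smul_smul]
    rw [Complex.I_mul_I, mul_neg, Complex.I_mul_I, neg_neg, one_smul, neg_smul, one_smul]
    abel
  rw [h4] at h3
  have h5 := V.smul_mem ((2 : ℂ)⁻¹) (V.add_mem h3 (h2 ξ η))
  have h6 : (2 : ℂ)⁻¹ • (lam W ξ η y - lam W η ξ y + (lam W ξ η y + lam W η ξ y)) =
      lam W ξ η y := by
    have : lam W ξ η y - lam W η ξ y + (lam W ξ η y + lam W η ξ y) = (2 : ℂ) • lam W ξ η y := by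
      rw [two_smul]
      abel
    rw [this, smul_smul, inv_mul_cancel₀ two_ne_zero, one_smul]
  rwa [h6] at h5

/-- `conv (μ t) a → a` for all states `a` implies that `lamM (μ t) → 1` weakly. -/
theorem weak_of_conv [Nontrivial H] {W : HT H H ≃ₗᵢ[ℂ] HT H H} (hW : Pentagon W)
    (μ : ℝ → DualT (C0 W)) (h1 : ∀ t, 0 < t → μ t ∈ St W)
    (h : ∀ a ∈ St W, Tendsto (fun t => conv hW (μ t) a) (𝓝[>] 0) (𝓝 a)) (u y : H) :
    Tendsto (fun t => ⟪u, lamM W (μ t) y⟫_ℂ) (𝓝[>] 0) (𝓝 ⟪u, y⟫_ℂ) := by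
  have hb : ∀ᶠ t in 𝓝[>] (0 : ℝ), ‖lamM W (μ t)‖ ≤ 1 := by
    filter_upwards [self_mem_nhdsWithin] with t ht
    exact (norm_lamM_le W _).trans (St_norm_le W (h1 t ht))
  set V : Submodule ℂ H := goodV (l := 𝓝[>] (0 : ℝ)) (fun t => lamM W (μ t)) rfl with hV
  have hst : ∀ a ∈ St W, ∀ y, lamM W a y ∈ V := by
    intro a ha y
    have k1 := ((continuous_lamM_apply W y).tendsto a).comp (h a ha)
    change Tendsto (fun t => lamM W (μ t) (lamM W a y)) (𝓝[>] 0) (𝓝 (lamM W a y))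
    refine k1.congr fun t => ?_
    change lamM W (conv hW (μ t) a) y = _
    rw [lamM_conv]
    rfl
  have hlam : ∀ ξ η y, lam W ξ η y ∈ V := by
    intro ξ η y
    refine lam_mem W V y (fun ξ hξ => ?_) ξ η
    have := hst _ (vecF_mem_St W hξ) y
    rwa [lamM_vecF] at this
  have htop : V.topologicalClosure = ⊤ := by
    rw [eq_top_iff, ← dense_lam W]
    apply Submodule.topologicalClosure_mono
    rw [Submodule.span_le]
    rintro _ ⟨p, rfl⟩
    exact hlam _ _ _
  have hy : Tendsto (fun t => lamM W (μ t) y) (𝓝[>] 0) (𝓝 y) := by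
    apply goodV_closed _ hb
    rw [← hV, htop]
    exact Submodule.mem_top
  exact tendsto_const_nhds.inner hy

theorem forward [Nontrivial H] [TopologicalSpace.SeparableSpace H] (D : QData H)
    (h1 : CoAm D.W) (h2 : CoAmDual D.W) : HasSemigroup D.W D.U := by
  obtain ⟨μ, m1, m2, m3, m4⟩ := exists_mu D h1 h2
  obtain ⟨ψ, hψ⟩ := (coAmDual_iff D.W).1 h2
  refine ⟨μ, m1, ?_, ?_, ?_, ?_⟩
  · intro s t hs ht
    rw [m2 s t hs ht, lamM_conv]
  · intro u y
    exact weak_of_conv D.pentagon μ m1 m3 u y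
  · intro ω hω
    have k1 : Tendsto (fun t => ‖conv D.pentagon ω (μ t) - μ t‖) atTop (𝓝 0) := by
      have := (m4 ω hω).norm
      rwa [norm_zero] at this
    refine squeeze_zero' (Eventually.of_forall fun t => norm_nonneg _) ?_ k1
    filter_upwards [eventually_gt_atTop (0 : ℝ)] with t ht
    have k2 : lamM D.W ω * lamM D.W (μ t) - lamM D.W (μ t) =
        lamM D.W (conv D.pentagon ω (μ t) - μ t) := by
      rw [lamM_sub', lamM_conv]
    rw [k2]
    refine (ext_L1 D ?_).2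
    exact (L1 D.W).sub_mem (St_subset_L1 D.W (conv_mem_St D.pentagon hω (m1 t ht)))
      (St_subset_L1 D.W (m1 t ht))
  · intro t ht
    apply le_antisymm
    · exact (ext_L1 D (St_subset_L1 D.W (m1 t ht))).2.trans (St_norm_le D.W (m1 t ht))
    · exact one_le_norm_tilde D hψ (m1 t ht)

end LCQG
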