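import Mathlib
import Pool.Agent.Lib.MP_ea3264_an.Forward
import Pool.Agent.Lib.MP_ea3264_an.Backward

/-!
# The main theorem
-/

set_option autoImplicit false
set_option linter.unusedSectionVars false

open scoped TensorProduct InnerProductSpace ComplexConjugate Topology
open ContinuousLinearMap Filter

noncomputable section

namespace LCQG

variable {H : Type*} [NormedAddCommGroup H] [InnerProductSpace ℂ H] [CompleteSpace H]

theorem main [Nontrivial H] [TopologicalSpace.SeparableSpace H] (D : QData H) :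
    (∀ φ ∈ L1 D.W, IsExt D.U (1 / 4) (lamM D.W φ) (tilde D.U (lamM D.W φ)) ∧
      ‖tilde D.U (lamM D.W φ)‖ ≤ ‖φ‖) ∧
    ((CoAm D.W ∧ CoAmDual D.W) ↔ HasSemigroup D.W D.U) :=
  ⟨fun _ hφ => ext_L1 D hφ,
    fun h => forward D h.1 h.2, fun h => ⟨backward_left D h, backward_right D h⟩⟩

end LCQG
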