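import Mathlib
import Pool.Agent.Lib.MP_ea3264_an.Main

/-!
# The main theorem, with explicit analytic extensions
-/

set_option autoImplicit false
set_option linter.unusedSectionVars false

open scoped TensorProduct InnerProductSpace ComplexConjugate Topology
open ContinuousLinearMap Filter

noncomputable section

namespace LCQG

variable {H : Type*} [NormedAddCommGroup H] [InnerProductSpace ℂ H] [CompleteSpace H]

/-- There is a `w*`-continuous convolution semigroup of states `(μ_t)` on `𝔾` such that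
(i) `‖λ̃(ω ⋆ μ_t - μ_t)‖ → 0` as `t → ∞` for every normal state `ω`,
(ii) `‖λ̃(μ_t)‖ = 1` for all `t > 0`,
(iii) `μ_t ∈ L¹(𝔾)` for all `t > 0`.
Here `λ̃(φ)` is the operator `b` with `IsExt U (1/4) (λ(φ)) b`, i.e. `b = τ̂_{i/4}(λ(φ))`. -/
def StateSemigroup (W : HT H H ≃ₗᵢ[ℂ] HT H H) (U : ℝ → H ≃ₗᵢ[ℂ] H) : Prop :=
  ∃ μ : ℝ → DualT (C0 W),
    (∀ t, 0 < t → μ t ∈ St W) ∧
    (∀ s t, 0 < s → 0 < t → lamM W (μ (s + t)) = lamM W (μ s) * lamM W (μ t)) ∧
    (∀ u y : H, Tendsto (fun t => ⟪u, lamM W (μ t) y⟫_ℂ) (𝓝[>] 0) (𝓝 ⟪u, y⟫_ℂ)) ∧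
    (∀ ω ∈ St W, ∃ c : ℝ → H →L[ℂ] H,
      (∀ t, 0 < t → IsExt U (1 / 4) (lamM W ω * lamM W (μ t) - lamM W (μ t)) (c t)) ∧
        Tendsto (fun t => ‖c t‖) atTop (𝓝 0)) ∧
    (∀ t, 0 < t → ∃ b : H →L[ℂ] H, IsExt U (1 / 4) (lamM W (μ t)) b ∧ ‖b‖ = 1)

theorem stateSemigroup_iff (D : QData H) : StateSemigroup D.W D.U ↔ HasSemigroup D.W D.U := by
  constructor
  · rintro ⟨μ, h1, h2, h3, h4, h5⟩
    refine ⟨μ, h1, h2, h3, ?_, ?_⟩
    · intro ω hω
      obtain ⟨c, hc, hlim⟩ := h4 ω hω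
      refine hlim.congr' ?_
      filter_upwards [eventually_gt_atTop 0] with t ht
      rw [tilde_eq (hc t ht)]
    · intro t ht
      obtain ⟨b, hb, hb1⟩ := h5 t ht
      rw [tilde_eq hb, hb1]
  · rintro ⟨μ, h1, h2, h3, h4, h5⟩
    refine ⟨μ, h1, h2, h3, ?_, ?_⟩
    · intro ω hω
      refine ⟨fun t => tilde D.U (lamM D.W ω * lamM D.W (μ t) - lamM D.W (μ t)), ?_, h4 ω hω⟩
      intro t ht
      have hmem : conv D.pentagon ω (μ t) - μ t ∈ L1 D.W :=
        Submodule.sub_mem _ (St_subset_L1 D.W (conv_mem_St D.pentagon hω (h1 t ht)))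
          (St_subset_L1 D.W (h1 t ht))
      have h := (ext_L1 D hmem).1
      have e : lamM D.W (conv D.pentagon ω (μ t) - μ t) =
          lamM D.W ω * lamM D.W (μ t) - lamM D.W (μ t) := by
        rw [← lamM_conv D.pentagon]
        have h1 := (sliceL (rhoS D.W) (norm_rhoS_le D.W)).map_sub
          (conv D.pentagon ω (μ t)) (μ t)
        exact h1
      rw [e] at h
      exact h
    · intro t ht
      exact ⟨_, (ext_L1 D (St_subset_L1 D.W (h1 t ht))).1, h5 t ht⟩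

theorem main_final [Nontrivial H] [TopologicalSpace.SeparableSpace H] (D : QData H) :
    (CoAm D.W ∧ CoAmDual D.W) ↔ StateSemigroup D.W D.U :=
  (main D).2.trans (stateSemigroup_iff D).symm

end LCQG
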