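import Mathlib

/-!
# Locally compact quantum groups through their multiplicative unitary: definitions

`H = L²(𝔾)`; `K`, `L` are Hilbert spaces which realise `H ⊗ H` and `H ⊗ H ⊗ H`.
-/

set_option autoImplicit false
set_option linter.unusedSectionVars false

open scoped InnerProductSpace Topology
open Filter

noncomputable section

namespace LCQG.Stmt

variable {H K L : Type*} [NormedAddCommGroup H] [InnerProductSpace ℂ H] [CompleteSpace H]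
  [NormedAddCommGroup K] [InnerProductSpace ℂ K] [CompleteSpace K]
  [NormedAddCommGroup L] [InnerProductSpace ℂ L] [CompleteSpace L]

/-- `t` exhibits the Hilbert space `K` as the Hilbert space tensor product `H ⊗ H`:
`t x y = x ⊗ y`. -/
structure IsTensor2 (t : H → H → K) : Prop where
  inner : ∀ x y x' y' : H, ⟪t x y, t x' y'⟫_ℂ = ⟪x, x'⟫_ℂ * ⟪y, y'⟫_ℂ
  total : (Submodule.span ℂ {z : K | ∃ x y : H, t x y = z}).topologicalClosure = ⊤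

/-- `s` exhibits the Hilbert space `L` as the Hilbert space tensor product `H ⊗ H ⊗ H`:
`s x y z = x ⊗ y ⊗ z`. -/
structure IsTensor3 (s : H → H → H → L) : Prop where
  inner : ∀ x y z x' y' z' : H,
    ⟪s x y z, s x' y' z'⟫_ℂ = ⟪x, x'⟫_ℂ * ⟪y, y'⟫_ℂ * ⟪z, z'⟫_ℂ
  total : (Submodule.span ℂ {w : L | ∃ x y z : H, s x y z = w}).topologicalClosure = ⊤

/-- `IsExt U r a b` means `τ_{ir}(a) = b`, where `τ_t(a) = U_t a U_{-t}`: the function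
`t ↦ τ_t(a)` extends to a bounded norm-continuous function on the strip `0 ≤ Im z ≤ r`, analytic
for `0 < Im z < r`, with value `b` at `ir`. -/
def IsExt (U : ℝ → H ≃ₗᵢ[ℂ] H) (r : ℝ) (a b : H →L[ℂ] H) : Prop :=
  ∃ F : ℂ → (H →L[ℂ] H), ContinuousOn F {z | 0 ≤ z.im ∧ z.im ≤ r} ∧
    DifferentiableOn ℂ F {z | 0 < z.im ∧ z.im < r} ∧
    (∃ C : ℝ, ∀ z : ℂ, 0 ≤ z.im → z.im ≤ r → ‖F z‖ ≤ C) ∧
    (∀ (t : ℝ) (x : H), F (t : ℂ) x = U t (a (U (-t) x))) ∧ F (r * Complex.I) = b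

/-- `a = (ω_{ξ,η} ⊗ id)(W)`, where `ω_{ξ,η}(x) = ⟪η, x ξ⟫`. -/
def IsLam (t : H → H → K) (W : K ≃ₗᵢ[ℂ] K) (ξ η : H) (a : H →L[ℂ] H) : Prop :=
  ∀ y u : H, ⟪u, a y⟫_ℂ = ⟪t η u, W (t ξ y)⟫_ℂ

/-- `a = (id ⊗ ω_{y,u})(W)`. -/
def IsRho (t : H → H → K) (W : K ≃ₗᵢ[ℂ] K) (y u : H) (a : H →L[ℂ] H) : Prop :=
  ∀ ξ η : H, ⟪η, a ξ⟫_ℂ = ⟪t η u, W (t ξ y)⟫_ℂ

/-- The data attached by Kustermans and Vaes to a locally compact quantum group `𝔾`, on the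
Hilbert space `H = L²(𝔾)`: the multiplicative unitary `W` on `H ⊗ H`, the modular conjugations
`J` of `𝔾` and `Jh = Ĵ` of the dual `𝔾̂`, and the one-parameter group of unitaries `U t = P^{it}`
which implements the scaling groups of `𝔾` and `𝔾̂`. -/
structure QGroup (H K L : Type*) [NormedAddCommGroup H] [InnerProductSpace ℂ H]
    [CompleteSpace H] [NormedAddCommGroup K] [InnerProductSpace ℂ K] [CompleteSpace K]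
    [NormedAddCommGroup L] [InnerProductSpace ℂ L] [CompleteSpace L] where
  /-- `t x y = x ⊗ y`. -/
  t : H → H → K
  /-- `s x y z = x ⊗ y ⊗ z`. -/
  s : H → H → H → L
  ht : IsTensor2 t
  hs : IsTensor3 s
  /-- The multiplicative unitary. -/
  W : K ≃ₗᵢ[ℂ] K
  /-- `W₁₂`, `W₁₃`, `W₂₃` on `H ⊗ H ⊗ H`. -/
  W12 : L ≃ₗᵢ[ℂ] L
  W13 : L ≃ₗᵢ[ℂ] L
  W23 : L ≃ₗᵢ[ℂ] L
  h12 : ∀ x y z x' y' z' : H,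
    ⟪s x' y' z', W12 (s x y z)⟫_ℂ = ⟪t x' y', W (t x y)⟫_ℂ * ⟪z', z⟫_ℂ
  h13 : ∀ x y z x' y' z' : H,
    ⟪s x' y' z', W13 (s x y z)⟫_ℂ = ⟪t x' z', W (t x z)⟫_ℂ * ⟪y', y⟫_ℂ
  h23 : ∀ x y z x' y' z' : H,
    ⟪s x' y' z', W23 (s x y z)⟫_ℂ = ⟪t y' z', W (t y z)⟫_ℂ * ⟪x', x⟫_ℂ
  /-- The pentagon equation `W₁₂ W₁₃ W₂₃ = W₂₃ W₁₂`. -/
  pentagon : ∀ w : L, W12 (W13 (W23 w)) = W23 (W12 w)
  /-- The modular conjugation of `𝔾`. -/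
  J : H ≃ₗᵢ⋆[ℂ] H
  /-- The modular conjugation of the dual. -/
  Jh : H ≃ₗᵢ⋆[ℂ] H
  J_J : ∀ x, J (J x) = x
  Jh_Jh : ∀ x, Jh (Jh x) = x
  /-- `(Ĵ ⊗ J) W (Ĵ ⊗ J) = W*`. -/
  W_adj : ∀ ξ η y u : H, ⟪W (t η u), t ξ y⟫_ℂ = ⟪W (t (Jh ξ) (J y)), t (Jh η) (J u)⟫_ℂ
  /-- The scaling unitaries `P^{it}`. -/
  U : ℝ → H ≃ₗᵢ[ℂ] H
  U_add : ∀ r r' x, U (r + r') x = U r (U r' x)
  U_cont : ∀ x, Continuous fun r => U r x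
  /-- `W` commutes with `P^{it} ⊗ P^{it}`. -/
  W_U : ∀ (r : ℝ) (ξ η y u : H),
    ⟪t (U r η) (U r u), W (t (U r ξ) (U r y))⟫_ℂ = ⟪t η u, W (t ξ y)⟫_ℂ
  /-- `τ̂_{i/2}(λ(ω_{ξ,η})) = J λ(ω_{η,ξ}) J`, i.e. the formula `Ŝ((ω ⊗ id)(W*)) = (ω ⊗ id)(W)`
  for the antipode `Ŝ = R̂ τ̂_{-i/2}` of the dual, `R̂(x) = J x* J`. -/
  scaling : ∀ (ξ η : H) (a b c : H →L[ℂ] H), IsLam t W ξ η a → IsLam t W η ξ b →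
    (∀ x, c x = J (b (J x))) → IsExt U (1 / 2) a c

/-- `C₀(𝔾)`: the closed linear span of the slices `(id ⊗ ω_{y,u})(W)`. -/
def C0 (t : H → H → K) (W : K ≃ₗᵢ[ℂ] K) : Submodule ℂ (H →L[ℂ] H) :=
  (Submodule.span ℂ {a : H →L[ℂ] H | ∃ y u : H, IsRho t W y u a}).topologicalClosure

/-- `C₀(𝔾̂)`: the closed linear span of the slices `(ω_{ξ,η} ⊗ id)(W)`. -/
def C0h (t : H → H → K) (W : K ≃ₗᵢ[ℂ] K) : Submodule ℂ (H →L[ℂ] H) :=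
  (Submodule.span ℂ {a : H →L[ℂ] H | ∃ ξ η : H, IsLam t W ξ η a}).topologicalClosure

/-- `a = λ(φ) = (φ ⊗ id)(W)`, where `φ` is a bounded functional on `C₀(𝔾)`. -/
def IsLamM (t : H → H → K) (W : K ≃ₗᵢ[ℂ] K) (φ : C0 t W →L[ℂ] ℂ) (a : H →L[ℂ] H) : Prop :=
  ∀ (y u : H) (x : C0 t W), IsRho t W y u x → ⟪u, a y⟫_ℂ = φ x

/-- `a = (id ⊗ ψ)(W)`, where `ψ` is a bounded functional on `C₀(𝔾̂)`. -/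
def IsRhoM (t : H → H → K) (W : K ≃ₗᵢ[ℂ] K) (ψ : C0h t W →L[ℂ] ℂ) (a : H →L[ℂ] H) : Prop :=
  ∀ (ξ η : H) (x : C0h t W), IsLam t W ξ η x → ⟪η, a ξ⟫_ℂ = ψ x

/-- `χ = φ ⋆ ψ` in `C₀(𝔾)^*`, i.e. `λ(χ) = λ(φ) λ(ψ)`. -/
def IsConv (t : H → H → K) (W : K ≃ₗᵢ[ℂ] K) (φ ψ χ : C0 t W →L[ℂ] ℂ) : Prop :=
  ∃ a b : H →L[ℂ] H, IsLamM t W φ a ∧ IsLamM t W ψ b ∧ IsLamM t W χ (a * b)

/-- `χ = φ ⋆ ψ` in `C₀(𝔾̂)^*`, i.e. `(id ⊗ χ)(W) = (id ⊗ ψ)(W) (id ⊗ φ)(W)`. -/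
def IsConvh (t : H → H → K) (W : K ≃ₗᵢ[ℂ] K) (φ ψ χ : C0h t W →L[ℂ] ℂ) : Prop :=
  ∃ a b : H →L[ℂ] H, IsRhoM t W φ a ∧ IsRhoM t W ψ b ∧ IsRhoM t W χ (b * a)

/-- `𝔾` is co-amenable (`𝔾̂` is strongly amenable): the convolution algebra `C₀(𝔾)^*` has a
unit. -/
def CoAmenable (t : H → H → K) (W : K ≃ₗᵢ[ℂ] K) : Prop :=
  ∃ ε : C0 t W →L[ℂ] ℂ, ∀ φ : C0 t W →L[ℂ] ℂ, IsConv t W ε φ φ ∧ IsConv t W φ ε φ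

/-- `𝔾̂` is co-amenable (`𝔾` is strongly amenable): the convolution algebra `C₀(𝔾̂)^*` has a
unit. -/
def DualCoAmenable (t : H → H → K) (W : K ≃ₗᵢ[ℂ] K) : Prop :=
  ∃ ε : C0h t W →L[ℂ] ℂ, ∀ φ : C0h t W →L[ℂ] ℂ, IsConvh t W ε φ φ ∧ IsConvh t W φ ε φ

/-- `φ` is (the restriction to `C₀(𝔾)` of) a normal state of `L^∞(𝔾)`, that is, a state in
`L¹(𝔾)`: it is a norm limit of functionals `x ↦ ∑ⱼ ⟪vⱼ, x vⱼ⟫` with `∑ⱼ ‖vⱼ‖² = 1`. -/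
def NormalState (t : H → H → K) (W : K ≃ₗᵢ[ℂ] K) (φ : C0 t W →L[ℂ] ℂ) : Prop :=
  ∀ δ : ℝ, 0 < δ → ∃ (n : ℕ) (v : Fin n → H), ∑ j, ‖v j‖ ^ 2 = 1 ∧
    ∀ x : C0 t W, ‖φ x - ∑ j, ⟪v j, (x : H →L[ℂ] H) (v j)⟫_ℂ‖ ≤ δ * ‖(x : H →L[ℂ] H)‖

/-- There is a `w*`-continuous convolution semigroup of states `(μ_t)` on `𝔾` such that
(i) `‖λ̃(ω ⋆ μ_t - μ_t)‖ → 0` as `t → ∞` for every state `ω ∈ L¹(𝔾)`,
(ii) `‖λ̃(μ_t)‖ = 1` for all `t > 0`,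
(iii) `μ_t ∈ L¹(𝔾)` for all `t > 0`.
Here `l t = λ(μ_t)` and `λ̃(φ) = τ̂_{i/4}(λ(φ))`; `w*`-continuity is expressed by
`λ(μ_t) → 1` weakly as `t → 0+`. -/
def HasStateSemigroup (t : H → H → K) (W : K ≃ₗᵢ[ℂ] K) (U : ℝ → H ≃ₗᵢ[ℂ] H) : Prop :=
  ∃ (μ : ℝ → C0 t W →L[ℂ] ℂ) (l : ℝ → H →L[ℂ] H),
    (∀ r, 0 < r → NormalState t W (μ r)) ∧
    (∀ r, 0 < r → IsLamM t W (μ r) (l r)) ∧
    (∀ r r', 0 < r → 0 < r' → IsConv t W (μ r) (μ r') (μ (r + r'))) ∧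
    (∀ u y : H, Tendsto (fun r => ⟪u, l r y⟫_ℂ) (𝓝[>] 0) (𝓝 ⟪u, y⟫_ℂ)) ∧
    (∀ (ω : C0 t W →L[ℂ] ℂ) (a : H →L[ℂ] H), NormalState t W ω → IsLamM t W ω a →
      ∃ c : ℝ → H →L[ℂ] H, (∀ r, 0 < r → IsExt U (1 / 4) (a * l r - l r) (c r)) ∧
        Tendsto (fun r => ‖c r‖) atTop (𝓝 0)) ∧
    (∀ r, 0 < r → ∃ b : H →L[ℂ] H, IsExt U (1 / 4) (l r) b ∧ ‖b‖ = 1)

end LCQG.Stmt
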