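import Mathlib
import Pool.Agent.Lib.MP_ea3264_an.Final
import Pool.Agent.Lib.MP_ea3264_an.Stmt

/-!
# From abstract tensor products to `HT`
-/

set_option autoImplicit false
set_option linter.unusedSectionVars false

open scoped TensorProduct InnerProductSpace ComplexConjugate Topology
open ContinuousLinearMap Filter

noncomputable section

namespace LCQG.Bridge

section gen

variable {ι E F : Type*} [NormedAddCommGroup E] [InnerProductSpace ℂ E] [CompleteSpace E]
  [NormedAddCommGroup F] [InnerProductSpace ℂ F] [CompleteSpace F]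

omit [CompleteSpace E] in
theorem denseRange_lc {S : ι → E}
    (hS : (Submodule.span ℂ (Set.range S)).topologicalClosure = ⊤) :
    DenseRange (Finsupp.linearCombination ℂ S) := by
  intro x
  have hx : x ∈ (Submodule.span ℂ (Set.range S)).topologicalClosure := by
    rw [hS]; trivial
  rw [← SetLike.mem_coe, Submodule.topologicalClosure_coe, ← Finsupp.range_linearCombination] at hx
  exact hx

omit [CompleteSpace E] [CompleteSpace F] in
theorem inner_lc {S : ι → E} {T : ι → F} (hG : ∀ i j, ⟪S i, S j⟫_ℂ = ⟪T i, T j⟫_ℂ)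
    (f g : ι →₀ ℂ) :
    ⟪Finsupp.linearCombination ℂ S f, Finsupp.linearCombination ℂ S g⟫_ℂ =
      ⟪Finsupp.linearCombination ℂ T f, Finsupp.linearCombination ℂ T g⟫_ℂ := by
  simp only [Finsupp.linearCombination_apply, Finsupp.sum, inner_sum, sum_inner, inner_smul_left,
    inner_smul_right, hG]

/-- Two total families with the same Gram matrix are unitarily equivalent. -/
def unitaryOf (S : ι → E) (T : ι → F) (hG : ∀ i j, ⟪S i, S j⟫_ℂ = ⟪T i, T j⟫_ℂ)
    (hS : (Submodule.span ℂ (Set.range S)).topologicalClosure = ⊤)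
    (hT : (Submodule.span ℂ (Set.range T)).topologicalClosure = ⊤) : E ≃ₗᵢ[ℂ] F :=
  (LinearEquiv.refl ℂ (ι →₀ ℂ)).extendOfIsometry (Finsupp.linearCombination ℂ S)
    (Finsupp.linearCombination ℂ T) (denseRange_lc hS) (denseRange_lc hT) (fun f => by
      have h := inner_lc hG f f
      rw [inner_self_eq_norm_sq_to_K, inner_self_eq_norm_sq_to_K] at h
      have h2 : ‖Finsupp.linearCombination ℂ S f‖ ^ 2 = ‖Finsupp.linearCombination ℂ T f‖ ^ 2 := by
        exact_mod_cast h
      have h3 := (sq_eq_sq₀ (norm_nonneg _) (norm_nonneg _)).1 h2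
      simpa using h3.symm)

theorem unitaryOf_apply (S : ι → E) (T : ι → F) (hG : ∀ i j, ⟪S i, S j⟫_ℂ = ⟪T i, T j⟫_ℂ)
    (hS : (Submodule.span ℂ (Set.range S)).topologicalClosure = ⊤)
    (hT : (Submodule.span ℂ (Set.range T)).topologicalClosure = ⊤) (i : ι) :
    unitaryOf S T hG hS hT (S i) = T i := by
  have h := LinearEquiv.extendOfIsometry_eq (LinearEquiv.refl ℂ (ι →₀ ℂ))
    (Finsupp.linearCombination ℂ S) (Finsupp.linearCombination ℂ T)
    (denseRange_lc hS) (denseRange_lc hT) (fun f => by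
      have h := inner_lc hG f f
      rw [inner_self_eq_norm_sq_to_K, inner_self_eq_norm_sq_to_K] at h
      have h2 : ‖Finsupp.linearCombination ℂ S f‖ ^ 2 = ‖Finsupp.linearCombination ℂ T f‖ ^ 2 := by
        exact_mod_cast h
      have h3 := (sq_eq_sq₀ (norm_nonneg _) (norm_nonneg _)).1 h2
      simpa using h3.symm) (Finsupp.single i 1)
  simpa [unitaryOf] using h

end gen

variable {H K L : Type*} [NormedAddCommGroup H] [InnerProductSpace ℂ H] [CompleteSpace H]
  [NormedAddCommGroup K] [InnerProductSpace ℂ K] [CompleteSpace K]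
  [NormedAddCommGroup L] [InnerProductSpace ℂ L] [CompleteSpace L]

omit [CompleteSpace H] in
/-- The elementary tensors in `H ⊗ (H ⊗ H)` are total. -/
theorem span_tm3_dense :
    (Submodule.span ℂ (Set.range fun p : H × H × H =>
      (tm p.1 (tm p.2.1 p.2.2) : HT H (HT H H)))).topologicalClosure = ⊤ := by
  rw [eq_top_iff]
  intro z _
  refine HT.induction (p := fun z => z ∈ (Submodule.span ℂ (Set.range fun p : H × H × H =>
      (tm p.1 (tm p.2.1 p.2.2) : HT H (HT H H)))).topologicalClosure) z ?_ ?_ ?_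
  · exact Submodule.isClosed_topologicalClosure _
  · intro z w hz hw
    exact Submodule.add_mem _ hz hw
  · intro x v
    refine HT.induction (p := fun v => (tm x v : HT H (HT H H)) ∈ (Submodule.span ℂ
      (Set.range fun p : H × H × H =>
        (tm p.1 (tm p.2.1 p.2.2) : HT H (HT H H)))).topologicalClosure) v ?_ ?_ ?_
    · have hc : Continuous fun v : HT H H => (tm x v : HT H (HT H H)) :=
        (insL x : HT H H →L[ℂ] HT H (HT H H)).continuous
      exact (Submodule.isClosed_topologicalClosure _).preimage hc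
    · intro z w hz hw
      rw [tm_add_right]
      exact Submodule.add_mem _ hz hw
    · intro y z
      exact Submodule.le_topologicalClosure _ (Submodule.subset_span ⟨(x, y, z), rfl⟩)

/-- The unitary `H ⊗ H ≅ K`. -/
def th2 {t : H → H → K} (ht : Stmt.IsTensor2 t) : HT H H ≃ₗᵢ[ℂ] K :=
  unitaryOf (fun p : H × H => (tm p.1 p.2 : HT H H)) (fun p : H × H => t p.1 p.2)
    (fun i j => by rw [inner_tm_tm, ht.inner]) span_tm_dense (by
      have h := ht.total
      have e : {z : K | ∃ x y : H, t x y = z} = Set.range fun p : H × H => t p.1 p.2 := by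
        ext z
        simp
      rwa [e] at h)

@[simp] theorem th2_tm {t : H → H → K} (ht : Stmt.IsTensor2 t) (x y : H) :
    th2 ht (tm x y) = t x y :=
  unitaryOf_apply (fun p : H × H => (tm p.1 p.2 : HT H H)) (fun p : H × H => t p.1 p.2)
    _ _ _ (x, y)

/-- The unitary `H ⊗ (H ⊗ H) ≅ L`. -/
def th3 {s : H → H → H → L} (hs : Stmt.IsTensor3 s) : HT H (HT H H) ≃ₗᵢ[ℂ] L :=
  unitaryOf (fun p : H × H × H => (tm p.1 (tm p.2.1 p.2.2) : HT H (HT H H)))
    (fun p : H × H × H => s p.1 p.2.1 p.2.2)
    (fun i j => by rw [inner_tm_tm, inner_tm_tm, hs.inner, mul_assoc]) span_tm3_dense (by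
      have h := hs.total
      have e : {z : L | ∃ x y z' : H, s x y z' = z} =
          Set.range fun p : H × H × H => s p.1 p.2.1 p.2.2 := by
        ext z
        simp
      rwa [e] at h)

@[simp] theorem th3_tm {s : H → H → H → L} (hs : Stmt.IsTensor3 s) (x y z : H) :
    th3 hs (tm x (tm y z)) = s x y z :=
  unitaryOf_apply (fun p : H × H × H => (tm p.1 (tm p.2.1 p.2.2) : HT H (HT H H)))
    (fun p : H × H × H => s p.1 p.2.1 p.2.2) _ _ _ (x, y, z)

omit [CompleteSpace H] in
/-- Vectors of `H ⊗ (H ⊗ H)` are determined by their coefficients. -/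
theorem ext_inner3 {z w : HT H (HT H H)}
    (h : ∀ x y v, ⟪tm x (tm y v), z⟫_ℂ = ⟪tm x (tm y v), w⟫_ℂ) : z = w := by
  refine HT.ext_inner fun x v => ?_
  refine HT.induction (p := fun v => ⟪tm x v, z⟫_ℂ = ⟪tm x v, w⟫_ℂ) v ?_ ?_ (h x)
  · have hc : Continuous fun v : HT H H => (tm x v : HT H (HT H H)) :=
      (insL x : HT H H →L[ℂ] HT H (HT H H)).continuous
    exact isClosed_eq (hc.inner continuous_const) (hc.inner continuous_const)
  · intro a b ha hb
    rw [tm_add_right, inner_add_left, inner_add_left, ha, hb]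

omit [CompleteSpace H] in
/-- Operators on `H ⊗ (H ⊗ H)` are determined by their coefficients. -/
theorem ext_op3 {A B : HT H (HT H H) ≃ₗᵢ[ℂ] HT H (HT H H)}
    (h : ∀ x y z x' y' z' : H, ⟪tm x' (tm y' z'), A (tm x (tm y z))⟫_ℂ =
      ⟪tm x' (tm y' z'), B (tm x (tm y z))⟫_ℂ) : A = B := by
  refine HT.ext_equiv fun x v => ?_
  refine HT.induction (p := fun v => A (tm x v) = B (tm x v)) v ?_ ?_ ?_
  · have hc : Continuous fun v : HT H H => (tm x v : HT H (HT H H)) :=
      (insL x : HT H H →L[ℂ] HT H (HT H H)).continuous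
    exact isClosed_eq (A.continuous.comp hc) (B.continuous.comp hc)
  · intro a b ha hb
    rw [tm_add_right, map_add, map_add, ha, hb]
  · intro y z
    exact ext_inner3 fun x' y' z' => h x y z x' y' z'

/-! ### Coefficients of the legs -/

section legs

variable {W : HT H H ≃ₗᵢ[ℂ] HT H H}

omit [CompleteSpace H] in
private theorem contR {V : Type*} [NormedAddCommGroup V] [InnerProductSpace ℂ V] (y : H) :
    Continuous fun x : V => tm x y := (insR y : V →L[ℂ] HT V H).continuous

omit [CompleteSpace H] in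
theorem br_leg23 (x : H) (v : HT H H) : leg23 W (tm x v) = tm x (W v) := by
  simp [leg23]

omit [CompleteSpace H] in
theorem br_leg12 (x y z : H) :
    leg12 W (tm x (tm y z)) = assocT H H H (tm (W (tm x y)) z) := by
  simp [leg12]

omit [CompleteSpace H] in
theorem br_flip (x y z : H) : flip23 H (tm x (tm y z)) = tm x (tm z y) := by
  simp [flip23]

omit [CompleteSpace H] in
theorem br_leg13 (x y z : H) :
    leg13 W (tm x (tm y z)) = flip23 H (assocT H H H (tm (W (tm x z)) y)) := by
  change flip23 H (leg12 W (flip23 H (tm x (tm y z)))) = _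
  rw [br_flip, br_leg12]

omit [CompleteSpace H] in
theorem br_A0 (η η' u a : H) (z : HT H H) :
    ⟪tm η (tm η' u), flip23 H (assocT H H H (tm z a))⟫_ℂ = ⟪η', a⟫_ℂ * ⟪tm η u, z⟫_ℂ := by
  refine HT.induction (p := fun z => ⟪tm η (tm η' u), flip23 H (assocT H H H (tm z a))⟫_ℂ =
    ⟪η', a⟫_ℂ * ⟪tm η u, z⟫_ℂ) z ?_ ?_ ?_
  · refine isClosed_eq ?_ ?_
    · exact continuous_const.inner ((flip23 H).continuous.comp
        ((assocT H H H).continuous.comp (contR a)))
    · exact continuous_const.mul (continuous_const.inner continuous_id)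
  · intro z w hz hw
    rw [tm_add_left, map_add, map_add, inner_add_right, hz, hw, inner_add_right, mul_add]
  · intro c d
    rw [assocT_tm, br_flip]
    simp only [inner_tm_tm]
    ring

omit [CompleteSpace H] in
theorem br_C (η u u' d : H) (w : HT H H) :
    ⟪tm η (tm u u'), assocT H H H (tm w d)⟫_ℂ = ⟪tm η u, w⟫_ℂ * ⟪u', d⟫_ℂ := by
  refine HT.induction (p := fun w => ⟪tm η (tm u u'), assocT H H H (tm w d)⟫_ℂ =
    ⟪tm η u, w⟫_ℂ * ⟪u', d⟫_ℂ) w ?_ ?_ ?_
  · refine isClosed_eq ?_ ?_
    · exact continuous_const.inner ((assocT H H H).continuous.comp (contR d))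
    · exact (continuous_const.inner continuous_id).mul continuous_const
  · intro z w hz hw
    rw [tm_add_left, map_add, inner_add_right, hz, hw, inner_add_right, add_mul]
  · intro a b
    rw [assocT_tm]
    simp only [inner_tm_tm]
    ring

end legs

/-! ### The transported unitary -/

variable (G : Stmt.QGroup H K L)

/-- The multiplicative unitary on `HT H H`. -/
def WW : HT H H ≃ₗᵢ[ℂ] HT H H := (th2 G.ht).trans (G.W.trans (th2 G.ht).symm)

theorem WW_apply (z : HT H H) : WW G z = (th2 G.ht).symm (G.W (th2 G.ht z)) := rfl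

theorem inner_WW (ξ η y u : H) :
    ⟪tm η u, WW G (tm ξ y)⟫_ℂ = ⟪G.t η u, G.W (G.t ξ y)⟫_ℂ := by
  rw [← LinearIsometryEquiv.inner_map_map (th2 G.ht), WW_apply,
    LinearIsometryEquiv.apply_symm_apply, th2_tm, th2_tm]

theorem inner_WW' (ξ η y u : H) :
    ⟪WW G (tm η u), tm ξ y⟫_ℂ = ⟪G.W (G.t η u), G.t ξ y⟫_ℂ := by
  rw [← LinearIsometryEquiv.inner_map_map (th2 G.ht), WW_apply,
    LinearIsometryEquiv.apply_symm_apply, th2_tm, th2_tm]

theorem leg12_eq : leg12 (WW G) = (th3 G.hs).trans (G.W12.trans (th3 G.hs).symm) := by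
  refine ext_op3 fun x y z x' y' z' => ?_
  rw [br_leg12, br_C, inner_WW, ← G.h12]
  rw [LinearIsometryEquiv.trans_apply, LinearIsometryEquiv.trans_apply,
    ← LinearIsometryEquiv.inner_map_map (th3 G.hs), LinearIsometryEquiv.apply_symm_apply,
    th3_tm, th3_tm]

theorem leg13_eq : leg13 (WW G) = (th3 G.hs).trans (G.W13.trans (th3 G.hs).symm) := by
  refine ext_op3 fun x y z x' y' z' => ?_
  rw [br_leg13, br_A0, inner_WW, mul_comm, ← G.h13]
  rw [LinearIsometryEquiv.trans_apply, LinearIsometryEquiv.trans_apply,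
    ← LinearIsometryEquiv.inner_map_map (th3 G.hs), LinearIsometryEquiv.apply_symm_apply,
    th3_tm, th3_tm]

theorem leg23_eq : leg23 (WW G) = (th3 G.hs).trans (G.W23.trans (th3 G.hs).symm) := by
  refine ext_op3 fun x y z x' y' z' => ?_
  rw [br_leg23, inner_tm_tm, inner_WW, mul_comm, ← G.h23]
  rw [LinearIsometryEquiv.trans_apply, LinearIsometryEquiv.trans_apply,
    ← LinearIsometryEquiv.inner_map_map (th3 G.hs), LinearIsometryEquiv.apply_symm_apply,
    th3_tm, th3_tm]

theorem pentagon_WW : Pentagon (WW G) := by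
  intro z
  rw [leg12_eq, leg13_eq, leg23_eq]
  simp only [LinearIsometryEquiv.trans_apply, LinearIsometryEquiv.apply_symm_apply]
  rw [G.pentagon]

end LCQG.Bridge
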