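import Mathlib
import Pool.Agent.Lib.MP_ea3264_an.Bridge1

/-!
# The main theorem in terms of abstract tensor products
-/

set_option autoImplicit false
set_option linter.unusedSectionVars false

open scoped TensorProduct InnerProductSpace ComplexConjugate Topology
open ContinuousLinearMap Filter

noncomputable section

namespace LCQG.Bridge

variable {H K L : Type*} [NormedAddCommGroup H] [InnerProductSpace ℂ H] [CompleteSpace H]
  [NormedAddCommGroup K] [InnerProductSpace ℂ K] [CompleteSpace K]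
  [NormedAddCommGroup L] [InnerProductSpace ℂ L] [CompleteSpace L]

theorem isExt_iff (U : ℝ → H ≃ₗᵢ[ℂ] H) (s : ℝ) (a b : H →L[ℂ] H) :
    Stmt.IsExt U s a b ↔ IsExt U s a b := by
  constructor
  · rintro ⟨F, h1, h2, ⟨C, hC⟩, h4, h5⟩
    refine ⟨F, h1, h2, ⟨C, fun z hz => hC z hz.1 hz.2⟩, fun t => ?_, h5⟩
    ext x
    rw [h4]
    rfl
  · rintro ⟨F, h1, h2, ⟨C, hC⟩, h4, h5⟩
    refine ⟨F, h1, h2, ⟨C, fun z hz hz' => hC z ⟨hz, hz'⟩⟩, fun t x => ?_, h5⟩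
    rw [h4]
    rfl

variable (G : Stmt.QGroup H K L)

theorem isLam_iff (ξ η : H) (a : H →L[ℂ] H) :
    Stmt.IsLam G.t G.W ξ η a ↔ lam (WW G) ξ η = a := by
  constructor
  · intro h
    refine op_ext_inner fun u y => ?_
    rw [h y u, inner_lam, inner_WW]
  · rintro rfl y u
    rw [inner_lam, inner_WW]

theorem isRho_iff (y u : H) (a : H →L[ℂ] H) :
    Stmt.IsRho G.t G.W y u a ↔ rho (WW G) y u = a := by
  constructor
  · intro h
    refine op_ext_inner fun u y => ?_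
    rw [h y u, inner_rho, inner_WW]
  · rintro rfl ξ η
    rw [inner_rho, inner_WW]

theorem W_U_WW (t : ℝ) (ξ y : H) : WW G (tm (G.U t ξ) (G.U t y)) =
    mapT (G.U t) (G.U t) (WW G (tm ξ y)) := by
  refine HT.ext_inner fun a b => ?_
  have ha : G.U t (G.U (-t) a) = a := U_apply_neg G.U_add t a
  have hb : G.U t (G.U (-t) b) = b := U_apply_neg G.U_add t b
  rw [inner_WW]
  conv_lhs => rw [← ha, ← hb]
  rw [G.W_U, ← inner_WW, ← LinearIsometryEquiv.inner_map_map (mapT (G.U t) (G.U t)), mapT_tm,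
    ha, hb]

/-- The data on `HT H H`. -/
def toD : QData H where
  W := WW G
  J := G.J
  Jh := G.Jh
  U := G.U
  pentagon := pentagon_WW G
  J_J := G.J_J
  Jh_Jh := G.Jh_Jh
  U_add := G.U_add
  U_cont := G.U_cont
  W_adj := fun ξ η y u => by rw [inner_WW', inner_WW', G.W_adj]
  W_U := W_U_WW G
  scaling := fun ξ η => (isExt_iff _ _ _ _).1 (G.scaling ξ η _ (lam (WW G) η ξ) _
    ((isLam_iff G _ _ _).2 rfl) ((isLam_iff G _ _ _).2 rfl) (fun x => rfl))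

theorem C0_eq : Stmt.C0 G.t G.W = LCQG.C0 (WW G) := by
  have e : {a : H →L[ℂ] H | ∃ y u : H, Stmt.IsRho G.t G.W y u a} =
      Set.range fun p : H × H => rhoS (WW G) p.1 p.2 := by
    ext a
    simp only [Set.mem_setOf_eq, Set.mem_range, Prod.exists, rhoS_apply]
    constructor
    · rintro ⟨y, u, h⟩
      exact ⟨u, y, (isRho_iff G y u a).1 h⟩
    · rintro ⟨u, y, h⟩
      exact ⟨y, u, (isRho_iff G y u a).2 h⟩
  unfold Stmt.C0 LCQG.C0 Cs
  rw [e]

theorem C0h_eq : Stmt.C0h G.t G.W = LCQG.C0h (WW G) := by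
  have e : {a : H →L[ℂ] H | ∃ ξ η : H, Stmt.IsLam G.t G.W ξ η a} =
      Set.range fun p : H × H => lamS (WW G) p.1 p.2 := by
    ext a
    simp only [Set.mem_setOf_eq, Set.mem_range, Prod.exists, lamS_apply]
    constructor
    · rintro ⟨ξ, η, h⟩
      exact ⟨η, ξ, (isLam_iff G ξ η a).1 h⟩
    · rintro ⟨η, ξ, h⟩
      exact ⟨ξ, η, (isLam_iff G ξ η a).2 h⟩
  unfold Stmt.C0h LCQG.C0h Cs
  rw [e]

/-! ### Functionals -/

section cast

variable {A A' : Submodule ℂ (H →L[ℂ] H)}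

/-- Transport of functionals. -/
def castF (h : A = A') (φ : A →L[ℂ] ℂ) : DualT A' :=
  DualT.of A' (show A' →L[ℂ] ℂ by subst h; exact φ)

/-- Transport of functionals, backwards. -/
def castB (h : A = A') (φ : DualT A') : A →L[ℂ] ℂ := by
  subst h; exact φ

theorem castF_apply (h : A = A') (φ : A →L[ℂ] ℂ) (x : H →L[ℂ] H) (hx : x ∈ A) :
    castF h φ (SubT.mk A' x (h ▸ hx)) = φ ⟨x, hx⟩ := by
  subst h; rfl

theorem castF_castB (h : A = A') (φ : DualT A') : castF h (castB h φ) = φ := by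
  subst h; rfl

theorem castB_castF (h : A = A') (φ : A →L[ℂ] ℂ) : castB h (castF h φ) = φ := by
  subst h; rfl

theorem castF_apply' (h : A = A') (φ : A →L[ℂ] ℂ) (x : SubT A') :
    castF h φ x = φ ⟨SubT.val A' x, h ▸ SubT.val_mem A' x⟩ := by
  subst h; rfl

theorem norm_castF_sub_le_iff (h : A = A') (φ : A →L[ℂ] ℂ) (ψ : DualT A') {δ : ℝ} (hδ : 0 ≤ δ)
    (f : (H →L[ℂ] H) → ℂ) (hf : ∀ x : SubT A', ψ x = f (SubT.val A' x)) :
    ‖castF h φ - ψ‖ ≤ δ ↔ ∀ x : A, ‖φ x - f (x : H →L[ℂ] H)‖ ≤ δ * ‖(x : H →L[ℂ] H)‖ := by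
  subst h
  constructor
  · intro hn x
    have h1 := (castF rfl φ - ψ).le_opNorm (show SubT A from x)
    rw [DualT.sub_apply, hf] at h1
    have h2 : castF rfl φ (show SubT A from x) = φ x := rfl
    have h3 : SubT.val A (show SubT A from x) = (x : H →L[ℂ] H) := rfl
    rw [h2, h3] at h1
    have h4 : ‖(show SubT A from x)‖ = ‖(x : H →L[ℂ] H)‖ := rfl
    rw [h4] at h1
    exact h1.trans (mul_le_mul_of_nonneg_right hn (norm_nonneg _))
  · intro hx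
    refine DualT.opNorm_le_bound _ hδ fun x => ?_
    rw [DualT.sub_apply, hf]
    exact hx (show A from x)

end cast

/-- Functionals on `C₀(𝔾)`. -/
abbrev cF (φ : Stmt.C0 G.t G.W →L[ℂ] ℂ) : DualT (LCQG.C0 (WW G)) := castF (C0_eq G) φ

/-- Functionals on `C₀(𝔾̂)`. -/
abbrev cFh (φ : Stmt.C0h G.t G.W →L[ℂ] ℂ) : DualT (LCQG.C0h (WW G)) := castF (C0h_eq G) φ

theorem rho_mem (y u : H) : rho (WW G) y u ∈ Stmt.C0 G.t G.W := by
  rw [C0_eq]
  exact mem_Cs (rhoS (WW G)) u y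

theorem lam_mem (ξ η : H) : lam (WW G) ξ η ∈ Stmt.C0h G.t G.W := by
  rw [C0h_eq]
  exact mem_Cs (lamS (WW G)) η ξ

theorem inner_lamM_cF (φ : Stmt.C0 G.t G.W →L[ℂ] ℂ) (u y : H) :
    ⟪u, lamM (WW G) (cF G φ) y⟫_ℂ = φ ⟨rho (WW G) y u, rho_mem G y u⟩ := by
  rw [inner_lamM, ← castF_apply (C0_eq G)]
  rfl

theorem inner_rhoM_cFh (φ : Stmt.C0h G.t G.W →L[ℂ] ℂ) (η ξ : H) :
    ⟪η, rhoM (WW G) (cFh G φ) ξ⟫_ℂ = φ ⟨lam (WW G) ξ η, lam_mem G ξ η⟩ := by
  rw [inner_rhoM, ← castF_apply (C0h_eq G)]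
  rfl

theorem isLamM_iff (φ : Stmt.C0 G.t G.W →L[ℂ] ℂ) (a : H →L[ℂ] H) :
    Stmt.IsLamM G.t G.W φ a ↔ lamM (WW G) (cF G φ) = a := by
  constructor
  · intro h
    refine op_ext_inner fun u y => ?_
    rw [inner_lamM_cF]
    exact (h y u ⟨rho (WW G) y u, rho_mem G y u⟩ ((isRho_iff G _ _ _).2 rfl)).symm
  · rintro rfl y u x hx
    rw [inner_lamM_cF]
    have := (isRho_iff G _ _ _).1 hx
    congr 1
    exact Subtype.ext this

theorem isRhoM_iff (φ : Stmt.C0h G.t G.W →L[ℂ] ℂ) (a : H →L[ℂ] H) :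
    Stmt.IsRhoM G.t G.W φ a ↔ rhoM (WW G) (cFh G φ) = a := by
  constructor
  · intro h
    refine op_ext_inner fun η ξ => ?_
    rw [inner_rhoM_cFh]
    exact (h ξ η ⟨lam (WW G) ξ η, lam_mem G ξ η⟩ ((isLam_iff G _ _ _).2 rfl)).symm
  · rintro rfl ξ η x hx
    rw [inner_rhoM_cFh]
    have := (isLam_iff G _ _ _).1 hx
    congr 1
    exact Subtype.ext this

theorem isConv_iff (φ ψ χ : Stmt.C0 G.t G.W →L[ℂ] ℂ) :
    Stmt.IsConv G.t G.W φ ψ χ ↔
      lamM (WW G) (cF G χ) = lamM (WW G) (cF G φ) * lamM (WW G) (cF G ψ) := by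
  constructor
  · rintro ⟨a, b, ha, hb, hc⟩
    rw [isLamM_iff] at ha hb hc
    rw [ha, hb, hc]
  · intro h
    exact ⟨_, _, (isLamM_iff G _ _).2 rfl, (isLamM_iff G _ _).2 rfl, (isLamM_iff G _ _).2 h⟩

theorem isConvh_iff (φ ψ χ : Stmt.C0h G.t G.W →L[ℂ] ℂ) :
    Stmt.IsConvh G.t G.W φ ψ χ ↔
      rhoM (WW G) (cFh G χ) = rhoM (WW G) (cFh G ψ) * rhoM (WW G) (cFh G φ) := by
  constructor
  · rintro ⟨a, b, ha, hb, hc⟩
    rw [isRhoM_iff] at ha hb hc
    rw [ha, hb, hc]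
  · intro h
    exact ⟨_, _, (isRhoM_iff G _ _).2 rfl, (isRhoM_iff G _ _).2 rfl, (isRhoM_iff G _ _).2 h⟩

theorem coAmenable_iff : Stmt.CoAmenable G.t G.W ↔ CoAm (WW G) := by
  constructor
  · rintro ⟨ε, h⟩
    refine ⟨cF G ε, fun φ => ?_⟩
    have h1 := h (castB (C0_eq G) φ)
    rw [isConv_iff, isConv_iff, cF, castF_castB] at h1
    exact ⟨h1.1.symm, h1.2.symm⟩
  · rintro ⟨ε, h⟩
    refine ⟨castB (C0_eq G) ε, fun φ => ?_⟩
    rw [isConv_iff, isConv_iff, cF, cF, castF_castB]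
    exact ⟨(h _).1.symm, (h _).2.symm⟩

theorem dualCoAmenable_iff : Stmt.DualCoAmenable G.t G.W ↔ CoAmDual (WW G) := by
  constructor
  · rintro ⟨ε, h⟩
    refine ⟨cFh G ε, fun φ => ?_⟩
    have h1 := h (castB (C0h_eq G) φ)
    rw [isConvh_iff, isConvh_iff, cFh, castF_castB] at h1
    exact ⟨h1.2.symm, h1.1.symm⟩
  · rintro ⟨ε, h⟩
    refine ⟨castB (C0h_eq G) ε, fun φ => ?_⟩
    rw [isConvh_iff, isConvh_iff, cFh, cFh, castF_castB]
    exact ⟨(h _).2.symm, (h _).1.symm⟩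

theorem normalState_iff (φ : Stmt.C0 G.t G.W →L[ℂ] ℂ) :
    Stmt.NormalState G.t G.W φ ↔ cF G φ ∈ St (WW G) := by
  have key : ∀ (n : ℕ) (v : Fin n → H) (δ : ℝ), 0 ≤ δ →
      (‖cF G φ - ∑ j, vecF (LCQG.C0 (WW G)) (v j) (v j)‖ ≤ δ ↔
        ∀ x : Stmt.C0 G.t G.W, ‖φ x - ∑ j, ⟪v j, (x : H →L[ℂ] H) (v j)⟫_ℂ‖ ≤
          δ * ‖(x : H →L[ℂ] H)‖) := fun n v δ hδ =>
    norm_castF_sub_le_iff (C0_eq G) φ _ hδ (fun a => ∑ j, ⟪v j, a (v j)⟫_ℂ) (fun x => by
      rw [DualT.sum_apply]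
      rfl)
  constructor
  · intro h
    rw [St, Metric.mem_closure_iff]
    intro δ hδ
    obtain ⟨n, v, hv, hx⟩ := h (δ / 2) (by positivity)
    refine ⟨_, ⟨n, v, hv, rfl⟩, ?_⟩
    rw [dist_eq_norm]
    have h1 := (key n v (δ / 2) (by positivity)).2 hx
    linarith
  · intro h δ hδ
    rw [St, Metric.mem_closure_iff] at h
    obtain ⟨ψ, ⟨n, v, hv, rfl⟩, hx⟩ := h δ hδ
    refine ⟨n, v, hv, (key n v δ hδ.le).1 ?_⟩
    rw [← dist_eq_norm]
    exact hx.le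

theorem hasStateSemigroup_iff :
    Stmt.HasStateSemigroup G.t G.W G.U ↔ StateSemigroup (WW G) G.U := by
  constructor
  · rintro ⟨μ, l, h1, h2, h3, h4, h5, h6⟩
    have hl : ∀ r, 0 < r → lamM (WW G) (cF G (μ r)) = l r := fun r hr =>
      (isLamM_iff G _ _).1 (h2 r hr)
    refine ⟨fun r => cF G (μ r), fun r hr => (normalState_iff G _).1 (h1 r hr), ?_, ?_, ?_, ?_⟩
    · intro r r' hr hr'
      exact (isConv_iff G _ _ _).1 (h3 r r' hr hr')
    · intro u y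
      refine (h4 u y).congr' ?_
      filter_upwards [self_mem_nhdsWithin] with r hr
      rw [hl r hr]
    · intro ω hω
      have hω' : Stmt.NormalState G.t G.W (castB (C0_eq G) ω) := by
        rw [normalState_iff, cF, castF_castB]
        exact hω
      have hlam : Stmt.IsLamM G.t G.W (castB (C0_eq G) ω) (lamM (WW G) ω) := by
        rw [isLamM_iff, cF, castF_castB]
      obtain ⟨c, hc, hlim⟩ := h5 _ _ hω' hlam
      refine ⟨c, fun r hr => ?_, hlim⟩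
      rw [hl r hr]
      exact (isExt_iff _ _ _ _).1 (hc r hr)
    · intro r hr
      obtain ⟨b, hb, hb1⟩ := h6 r hr
      refine ⟨b, ?_, hb1⟩
      rw [hl r hr]
      exact (isExt_iff _ _ _ _).1 hb
  · rintro ⟨μ, h1, h2, h3, h4, h5⟩
    have hμ : ∀ r, cF G (castB (C0_eq G) (μ r)) = μ r := fun r => castF_castB _ _
    refine ⟨fun r => castB (C0_eq G) (μ r), fun r => lamM (WW G) (μ r), ?_, ?_, ?_, ?_, ?_, ?_⟩
    · intro r hr
      rw [normalState_iff, hμ]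
      exact h1 r hr
    · intro r hr
      rw [isLamM_iff, hμ]
    · intro r r' hr hr'
      rw [isConv_iff, hμ, hμ, hμ]
      exact h2 r r' hr hr'
    · exact h3
    · intro ω a hω ha
      rw [normalState_iff] at hω
      rw [isLamM_iff] at ha
      obtain ⟨c, hc, hlim⟩ := h4 _ hω
      refine ⟨c, fun r hr => (isExt_iff _ _ _ _).2 ?_, hlim⟩
      rw [← ha]
      exact hc r hr
    · intro r hr
      obtain ⟨b, hb, hb1⟩ := h5 r hr
      exact ⟨b, (isExt_iff _ _ _ _).2 hb, hb1⟩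

/-- The main theorem. -/
theorem main_stmt [Nontrivial H] [TopologicalSpace.SeparableSpace H] :
    (Stmt.CoAmenable G.t G.W ∧ Stmt.DualCoAmenable G.t G.W) ↔
      Stmt.HasStateSemigroup G.t G.W G.U := by
  rw [coAmenable_iff, dualCoAmenable_iff, hasStateSemigroup_iff]
  exact main_final (toD G)

end LCQG.Bridge
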